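import Mathlib

open Finset

namespace Pool.Agent.TH236.Net

/-! The graph: a free group on two letters times a wreath product whose lamps are vertices of a
crown graph. -/

abbrev F : Type := FreeGroup (Fin 2)

/-- Lamp states. -/
abbrev Q (r : ℕ) : Type := Fin r × Bool

/-- Coordinates. -/
abbrev I (n b : ℕ) : Type := ZMod n × Fin b

/-- Lamp configurations. -/
abbrev L (n b r : ℕ) : Type := I n b → Q r

abbrev V (n b r : ℕ) : Type := F × (L n b r × ZMod n)

/-- Adjacency in the crown graph. -/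
def crown {r : ℕ} (a c : Q r) : Prop := a.1 ≠ c.1 ∧ a.2 ≠ c.2

theorem crown_symm {r : ℕ} {a c : Q r} (h : crown a c) : crown c a := ⟨h.1.symm, h.2.symm⟩

/-- Distance in the crown graph. -/
def dq {r : ℕ} (a c : Q r) : ℕ :=
  if a.1 = c.1 then (if a.2 = c.2 then 0 else 3) else (if a.2 = c.2 then 2 else 1)

theorem dq_self {r : ℕ} (a : Q r) : dq a a = 0 := by simp [dq]

theorem dq_crown {r : ℕ} {a c : Q r} (h : crown a c) : dq a c = 1 := by
  simp [dq, h.1, h.2]

theorem dq_triangle {r : ℕ} (a c e : Q r) : dq a e ≤ dq a c + dq c e := by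
  obtain ⟨a1, a2⟩ := a
  obtain ⟨c1, c2⟩ := c
  obtain ⟨e1, e2⟩ := e
  unfold dq
  by_cases h1 : a1 = c1 <;> by_cases h2 : c1 = e1 <;> by_cases h3 : a1 = e1 <;>
    cases a2 <;> cases c2 <;> cases e2 <;> simp_all

/-- The flip of a lamp state. -/
def flip {r : ℕ} (a : Q r) : Q r := (a.1, !a.2)

theorem flip_flip {r : ℕ} (a : Q r) : flip (flip a) = a := by simp [flip]

theorem dq_add_flip {r : ℕ} (a c : Q r) : dq a c + dq a (flip c) = 3 := by
  obtain ⟨a1, a2⟩ := a
  obtain ⟨c1, c2⟩ := c
  unfold dq flip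
  by_cases h1 : a1 = c1 <;> cases a2 <;> cases c2 <;> simp [h1]

theorem dq_flip_self {r : ℕ} (a : Q r) : dq a (flip a) = 3 := by
  have := dq_add_flip a a
  rw [dq_self] at this
  omega

variable {n b r : ℕ}

/-- The three kinds of edges. -/
def Step (u v : V n b r) : Prop :=
  (u.2 = v.2 ∧ (v.1 * u.1⁻¹).norm = 1) ∨
  (u.1 = v.1 ∧ u.2.1 = v.2.1 ∧ (v.2.2 = u.2.2 + 1 ∨ u.2.2 = v.2.2 + 1)) ∨
  (u.1 = v.1 ∧ u.2.2 = v.2.2 ∧ ∃ j : Fin b, crown (u.2.1 (u.2.2, j)) (v.2.1 (u.2.2, j)) ∧
    ∀ i : I n b, i ≠ (u.2.2, j) → u.2.1 i = v.2.1 i)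

theorem Step.symm {u v : V n b r} (h : Step u v) : Step v u := by
  rcases h with h | h | h
  · refine Or.inl ⟨h.1.symm, ?_⟩
    rw [← FreeGroup.norm_inv_eq]
    simpa using h.2
  · exact Or.inr (Or.inl ⟨h.1.symm, h.2.1.symm, h.2.2.symm⟩)
  · obtain ⟨h1, h2, j, h3, h4⟩ := h
    refine Or.inr (Or.inr ⟨h1.symm, h2.symm, j, ?_, ?_⟩)
    · rw [← h2]
      exact crown_symm h3
    · intro i hi
      rw [← h2] at hi
      exact (h4 i hi).symm

/-- The graph. -/
def gr (n b r : ℕ) : SimpleGraph (V n b r) where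
  Adj u v := u ≠ v ∧ Step u v
  symm := ⟨fun _ _ h => ⟨h.1.symm, h.2.symm⟩⟩
  loopless := ⟨fun _ h => h.1 rfl⟩

theorem gr_adj (u v : V n b r) : (gr n b r).Adj u v ↔ u ≠ v ∧ Step u v := Iff.rfl

/-! Automorphisms. -/

/-- Automorphisms of the lamp graph. -/
def lampEquiv {r : ℕ} (s : Equiv.Perm (Fin r)) (c : Bool) : Q r ≃ Q r where
  toFun a := (s a.1, xor c a.2)
  invFun a := (s.symm a.1, xor c a.2)
  left_inv a := by simp
  right_inv a := by simp

theorem crown_lampEquiv {r : ℕ} (s : Equiv.Perm (Fin r)) (c : Bool) (a e : Q r) :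
    crown (lampEquiv s c a) (lampEquiv s c e) ↔ crown a e := by
  simp [crown, lampEquiv]

/-- Shift of coordinates. -/
def shift (n b : ℕ) (t : ZMod n) : I n b ≃ I n b :=
  Equiv.prodCongr (Equiv.addRight t) (Equiv.refl _)

/-- The action on configurations. -/
def confEquiv (t : ZMod n) (s : I n b → Equiv.Perm (Fin r)) (c : I n b → Bool) :
    L n b r ≃ L n b r where
  toFun f := fun i => lampEquiv (s i) (c i) (f ((shift n b t).symm i))
  invFun f := fun i => (lampEquiv (s (shift n b t i)) (c (shift n b t i))).symm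
    (f (shift n b t i))
  left_inv f := by
    funext i
    simp
  right_inv f := by
    funext i
    simp

theorem confEquiv_shift (t : ZMod n) (s : I n b → Equiv.Perm (Fin r)) (c : I n b → Bool)
    (f : L n b r) (p : ZMod n) (j : Fin b) :
    confEquiv t s c f (p + t, j) = lampEquiv (s (p + t, j)) (c (p + t, j)) (f (p, j)) := by
  have h : (shift n b t).symm (p + t, j) = (p, j) := by
    rw [Equiv.symm_apply_eq]
    rfl
  change lampEquiv (s (p + t, j)) (c (p + t, j)) (f ((shift n b t).symm (p + t, j))) = _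
  rw [h]

/-- The action on vertices. -/
def vertEquiv (h : F) (t : ZMod n) (s : I n b → Equiv.Perm (Fin r)) (c : I n b → Bool) :
    V n b r ≃ V n b r :=
  Equiv.prodCongr (Equiv.mulRight h) (Equiv.prodCongr (confEquiv t s c) (Equiv.addRight t))

theorem step_vertEquiv (h : F) (t : ZMod n) (s : I n b → Equiv.Perm (Fin r))
    (c : I n b → Bool) (u v : V n b r) :
    Step (vertEquiv h t s c u) (vertEquiv h t s c v) ↔ Step u v := by
  obtain ⟨g, f, p⟩ := u
  obtain ⟨g', f', p'⟩ := v
  change Step (g * h, (confEquiv t s c f, p + t)) (g' * h, (confEquiv t s c f', p' + t)) ↔ _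
  unfold Step
  simp only
  refine or_congr ?_ (or_congr ?_ ?_)
  · simp [mul_assoc]
  · rw [mul_left_inj, (confEquiv t s c).injective.eq_iff, add_right_comm p t 1,
      add_right_comm p' t 1, add_left_inj, add_left_inj]
  · rw [mul_left_inj, add_left_inj]
    refine and_congr Iff.rfl (and_congr Iff.rfl (exists_congr fun j => and_congr ?_ ?_))
    · rw [confEquiv_shift, confEquiv_shift, crown_lampEquiv]
    · constructor
      · intro H i hi
        have h1 := H (i.1 + t, i.2) (by
          intro h2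
          apply hi
          have h3 := congrArg Prod.fst h2
          have h4 := congrArg Prod.snd h2
          simp only [add_left_inj] at h3
          exact Prod.ext h3 h4)
        rw [confEquiv_shift, confEquiv_shift] at h1
        exact (lampEquiv _ _).injective h1
      · intro H i hi
        obtain ⟨q, k⟩ := i
        obtain ⟨q0, rfl⟩ : ∃ q0, q = q0 + t := ⟨q - t, by simp⟩
        rw [confEquiv_shift, confEquiv_shift]
        rw [H (q0, k) (by
          intro h2
          apply hi
          have h3 := congrArg Prod.fst h2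
          have h4 := congrArg Prod.snd h2
          simp only at h3 h4
          rw [h3, h4])]

/-- The automorphism. -/
def autIso (h : F) (t : ZMod n) (s : I n b → Equiv.Perm (Fin r)) (c : I n b → Bool) :
    gr n b r ≃g gr n b r where
  toEquiv := vertEquiv h t s c
  map_rel_iff' := by
    intro u v
    rw [gr_adj, gr_adj, step_vertEquiv, (vertEquiv h t s c).injective.ne_iff]

theorem transitive (u v : V n b r) : ∃ φ : gr n b r ≃g gr n b r, φ u = v := by
  obtain ⟨g, f, p⟩ := u
  obtain ⟨g', f', p'⟩ := v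
  refine ⟨autIso (g⁻¹ * g') (p' - p)
    (fun i => Equiv.swap (f ((shift n b (p' - p)).symm i)).1 (f' i).1)
    (fun i => xor (f ((shift n b (p' - p)).symm i)).2 (f' i).2), ?_⟩
  change ((g * (g⁻¹ * g'), (confEquiv (p' - p) _ _ f, p + (p' - p))) : V n b r) = (g', (f', p'))
  refine Prod.ext (by simp) (Prod.ext ?_ (by simp))
  funext i
  change lampEquiv _ _ (f ((shift n b (p' - p)).symm i)) = f' i
  refine Prod.ext ?_ ?_
  · simp [lampEquiv]
  · change xor (xor (f ((shift n b (p' - p)).symm i)).2 (f' i).2)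
      (f ((shift n b (p' - p)).symm i)).2 = (f' i).2
    cases (f ((shift n b (p' - p)).symm i)).2 <;> cases (f' i).2 <;> rfl

/-- The simultaneous flip. -/
def zeta (u : V n b r) : V n b r := (u.1, (fun i => flip (u.2.1 i), u.2.2))

theorem zeta_zeta (u : V n b r) : zeta (zeta u) = u := by
  obtain ⟨g, f, p⟩ := u
  simp [zeta, flip_flip]

theorem adj_zeta {u v : V n b r} (h : (gr n b r).Adj u v) :
    (gr n b r).Adj (zeta u) (zeta v) := by
  rw [gr_adj] at h ⊢
  refine ⟨fun h1 => h.1 ?_, ?_⟩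
  · rw [← zeta_zeta u, h1, zeta_zeta]
  · rcases h.2 with h | h | h
    · refine Or.inl ⟨?_, h.2⟩
      have h1 : (zeta u).2 = (fun i => flip (u.2.1 i), u.2.2) := rfl
      have h2 : (zeta v).2 = (fun i => flip (v.2.1 i), v.2.2) := rfl
      rw [h1, h2, h.1]
    · refine Or.inr (Or.inl ⟨h.1, ?_, h.2.2⟩)
      have h1 : (zeta u).2.1 = (fun i => flip (u.2.1 i)) := rfl
      have h2 : (zeta v).2.1 = (fun i => flip (v.2.1 i)) := rfl
      rw [h1, h2, h.2.1]
    · obtain ⟨h1, h2, j, h3, h4⟩ := h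
      refine Or.inr (Or.inr ⟨h1, h2, j, ?_, ?_⟩)
      · refine ⟨h3.1, ?_⟩
        have := h3.2
        change (!(u.2.1 (u.2.2, j)).2) ≠ (!(v.2.1 (u.2.2, j)).2)
        simpa using this
      · intro i hi
        change flip (u.2.1 i) = flip (v.2.1 i)
        rw [h4 i hi]

end Pool.Agent.TH236.Net
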