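import Mathlib
import Pool.Agent.TH236.Net1

open Finset

namespace Pool.Agent.TH236.Net

variable {n b r : ℕ}

/-! Lower bound for distances. -/

/-- The number of crown moves needed. -/
def delta [NeZero n] (f f' : L n b r) : ℕ := ∑ i, dq (f i) (f' i)

theorem delta_triangle [NeZero n] (f f' f'' : L n b r) :
    delta f f'' ≤ delta f f' + delta f' f'' := by
  unfold delta
  rw [← Finset.sum_add_distrib]
  exact Finset.sum_le_sum fun i _ => dq_triangle _ _ _

theorem delta_self [NeZero n] (f : L n b r) : delta f f = 0 := by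
  unfold delta
  exact Finset.sum_eq_zero fun i _ => dq_self _

/-- The potential. -/
def pot [NeZero n] (u v : V n b r) : ℕ := (v.1 * u.1⁻¹).norm + delta u.2.1 v.2.1

theorem pot_triangle [NeZero n] (u v w : V n b r) : pot u w ≤ pot u v + pot v w := by
  unfold pot
  have h1 : w.1 * u.1⁻¹ = (w.1 * v.1⁻¹) * (v.1 * u.1⁻¹) := by group
  have h2 := FreeGroup.norm_mul_le (w.1 * v.1⁻¹) (v.1 * u.1⁻¹)
  rw [← h1] at h2
  have h3 := delta_triangle u.2.1 v.2.1 w.2.1
  omega

theorem pot_adj [NeZero n] {u v : V n b r} (h : (gr n b r).Adj u v) : pot u v ≤ 1 := by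
  rw [gr_adj] at h
  rcases h.2 with h | h | h
  · unfold pot
    rw [h.1, delta_self, h.2]
  · unfold pot
    rw [h.1, h.2.1, delta_self]
    simp
  · obtain ⟨h1, h2, j, h3, h4⟩ := h
    unfold pot
    rw [h1, mul_inv_cancel, FreeGroup.norm_one, zero_add]
    unfold delta
    rw [Finset.sum_eq_single (u.2.2, j)]
    · exact (dq_crown h3).le
    · intro i _ hi
      rw [h4 i hi, dq_self]
    · intro h
      exact absurd (Finset.mem_univ _) h

theorem pot_le_length [NeZero n] {u v : V n b r} (p : (gr n b r).Walk u v) :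
    pot u v ≤ p.length := by
  induction p with
  | nil =>
    unfold pot
    simp [delta_self]
  | @cons u v w h p ih =>
    rw [SimpleGraph.Walk.length_cons]
    have := pot_triangle u v w
    have := pot_adj h
    omega

/-! Upper bound for distances. -/

/-- Reachable in at most `c` steps. -/
def Rch (c : ℕ) (u v : V n b r) : Prop := ∃ p : (gr n b r).Walk u v, p.length ≤ c

theorem Rch.refl (u : V n b r) : Rch 0 u u := ⟨SimpleGraph.Walk.nil, by simp⟩

theorem Rch.trans {c d : ℕ} {u v w : V n b r} (h1 : Rch c u v) (h2 : Rch d v w) :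
    Rch (c + d) u w := by
  obtain ⟨p, hp⟩ := h1
  obtain ⟨q, hq⟩ := h2
  refine ⟨p.append q, ?_⟩
  rw [SimpleGraph.Walk.length_append]
  omega

theorem Rch.mono {c d : ℕ} {u v : V n b r} (h1 : Rch c u v) (h : c ≤ d) : Rch d u v := by
  obtain ⟨p, hp⟩ := h1
  exact ⟨p, hp.trans h⟩

theorem Rch.step {u v : V n b r} (h : Step u v) : Rch 1 u v := by
  by_cases huv : u = v
  · rw [huv]
    exact (Rch.refl v).mono (by omega)
  · have h1 : (gr n b r).Adj u v := ⟨huv, h⟩
    exact ⟨SimpleGraph.Walk.cons h1 SimpleGraph.Walk.nil, by simp⟩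

theorem rch_free (x : L n b r × ZMod n) (w : List (Fin 2 × Bool)) (g : F) :
    Rch w.length (g, x) (FreeGroup.mk w * g, x) := by
  induction w with
  | nil =>
    have : (FreeGroup.mk ([] : List (Fin 2 × Bool)) * g, x) = ((g, x) : V n b r) := by
      rw [← FreeGroup.one_eq_mk, one_mul]
    rw [this]
    exact Rch.refl _
  | cons s w ih =>
    rw [List.length_cons]
    refine ih.trans (Rch.step (Or.inl ⟨rfl, ?_⟩))
    have e : (FreeGroup.mk (s :: w) * g : F) * (FreeGroup.mk w * g)⁻¹ = FreeGroup.mk [s] := by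
      have e2 : (FreeGroup.mk (s :: w) : F) = FreeGroup.mk [s] * FreeGroup.mk w := by
        rw [FreeGroup.mul_mk]
        rfl
      rw [e2]
      group
    change FreeGroup.norm ((FreeGroup.mk (s :: w) * g : F) * (FreeGroup.mk w * g)⁻¹) = 1
    rw [e]
    rfl

theorem rch_free' (x : L n b r × ZMod n) (g g' : F) :
    Rch (g' * g⁻¹).norm (g, x) (g', x) := by
  have := rch_free x (g' * g⁻¹).toWord g
  rw [FreeGroup.mk_toWord] at this
  simpa [FreeGroup.norm] using this

theorem rch_pos (g : F) (f : L n b r) (p : ZMod n) (t : ℕ) :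
    Rch t (g, (f, p)) (g, (f, p + (t : ZMod n))) := by
  induction t with
  | zero =>
    simp only [Nat.cast_zero, add_zero]
    exact Rch.refl _
  | succ t ih =>
    refine ih.trans (Rch.step (Or.inr (Or.inl ⟨rfl, rfl, Or.inl ?_⟩)))
    push_cast
    ring

theorem rch_lamp_one (g : F) (f : L n b r) (p : ZMod n) (j : Fin b) (a : Q r)
    (h : crown (f (p, j)) a) :
    Rch 1 (g, (f, p)) (g, (Function.update f (p, j) a, p)) := by
  refine Rch.step (Or.inr (Or.inr ⟨rfl, rfl, j, ?_, ?_⟩))
  · change crown (f (p, j)) (Function.update f (p, j) a (p, j))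
    rw [Function.update_self]
    exact h
  · intro i hi
    change f i = Function.update f (p, j) a i
    rw [Function.update_of_ne hi]

theorem exists_other (hr : 3 ≤ r) (x y : Fin r) : ∃ z : Fin r, x ≠ z ∧ z ≠ y := by
  by_contra h
  push Not at h
  have h1 : (Finset.univ : Finset (Fin r)) ⊆ {x, y} := by
    intro z _
    by_cases hz : x = z
    · simp [hz]
    · simp [h z hz]
  have h2 := Finset.card_le_card h1
  rw [Finset.card_univ, Fintype.card_fin] at h2
  have h3 : ({x, y} : Finset (Fin r)).card ≤ 2 := Finset.card_le_two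
  omega

theorem rch_lamp (hr : 3 ≤ r) (g : F) (f : L n b r) (p : ZMod n) (j : Fin b) (a : Q r) :
    Rch (dq (f (p, j)) a) (g, (f, p)) (g, (Function.update f (p, j) a, p)) := by
  have key1 : ∀ (f : L n b r) (a : Q r), crown (f (p, j)) a →
      Rch 1 (g, (f, p)) (g, (Function.update f (p, j) a, p)) :=
    fun f a h => rch_lamp_one g f p j a h
  have key2 : ∀ (f : L n b r) (c a : Q r), crown (f (p, j)) c → crown c a →
      Rch 2 (g, (f, p)) (g, (Function.update f (p, j) a, p)) := by
    intro f c a h1 h2
    have h3 := key1 (Function.update f (p, j) c) a (by rw [Function.update_self]; exact h2)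
    rw [Function.update_idem] at h3
    exact (key1 f c h1).trans h3
  have key3 : ∀ (f : L n b r) (c e a : Q r), crown (f (p, j)) c → crown c e → crown e a →
      Rch 3 (g, (f, p)) (g, (Function.update f (p, j) a, p)) := by
    intro f c e a h1 h2 h3
    have h4 := key2 (Function.update f (p, j) c) e a (by rw [Function.update_self]; exact h2) h3
    rw [Function.update_idem] at h4
    exact (key1 f c h1).trans h4
  unfold dq
  by_cases h1 : (f (p, j)).1 = a.1
  · rw [if_pos h1]
    by_cases h2 : (f (p, j)).2 = a.2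
    · rw [if_pos h2]
      have h3 : Function.update f (p, j) a = f := by
        rw [Function.update_eq_self_iff]
        exact (Prod.ext h1 h2).symm
      rw [h3]
      exact Rch.refl _
    · rw [if_neg h2]
      obtain ⟨z, hz1, -⟩ := exists_other hr a.1 a.1
      obtain ⟨w, hw1, hw2⟩ := exists_other hr z a.1
      refine key3 f (z, !(f (p, j)).2) (w, (f (p, j)).2) a ⟨?_, ?_⟩ ⟨hw1, ?_⟩ ⟨hw2, h2⟩
      · rw [h1]
        exact hz1
      · simp
      · simp
  · rw [if_neg h1]
    by_cases h2 : (f (p, j)).2 = a.2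
    · rw [if_pos h2]
      obtain ⟨z, hz1, hz2⟩ := exists_other hr (f (p, j)).1 a.1
      refine key2 f (z, !(f (p, j)).2) a ⟨hz1, ?_⟩ ⟨hz2, ?_⟩
      · simp
      · rw [h2]
        simp
    · rw [if_neg h2]
      exact key1 f a ⟨h1, h2⟩

theorem delta_update [NeZero n] (f f' : L n b r) (i : I n b) :
    dq (f i) (f' i) + delta (Function.update f i (f' i)) f' = delta f f' := by
  unfold delta
  rw [← Finset.add_sum_erase Finset.univ (fun k => dq (f k) (f' k)) (Finset.mem_univ i)]
  rw [← Finset.add_sum_erase Finset.univ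
    (fun k => dq (Function.update f i (f' i) k) (f' k)) (Finset.mem_univ i)]
  rw [Function.update_self, dq_self, zero_add]
  congr 1
  refine Finset.sum_congr rfl fun k hk => ?_
  rw [Function.update_of_ne (Finset.ne_of_mem_erase hk)]

/-- Repairing the lamps over the current position. -/
theorem rch_block [NeZero n] (hr : 3 ≤ r) (g : F) (f f' : L n b r) (p : ZMod n)
    (J : Finset (Fin b)) :
    ∃ c, Rch c (g, (f, p)) (g, ((fun i => if i.1 = p ∧ i.2 ∈ J then f' i else f i), p)) ∧
      c + delta (fun i => if i.1 = p ∧ i.2 ∈ J then f' i else f i) f' = delta f f' := by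
  classical
  induction J using Finset.induction_on with
  | empty =>
    refine ⟨0, ?_, ?_⟩
    · simpa using Rch.refl (n := n) (b := b) (r := r) (g, (f, p))
    · simp
  | @insert j J hj ih =>
    obtain ⟨c, hc1, hc2⟩ := ih
    set fJ : L n b r := fun i => if i.1 = p ∧ i.2 ∈ J then f' i else f i with hfJ
    have e : (fun i : I n b => if i.1 = p ∧ i.2 ∈ insert j J then f' i else f i) =
        Function.update fJ (p, j) (f' (p, j)) := by
      funext i
      by_cases hi : i = (p, j)
      · subst hi
        simp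
      · rw [Function.update_of_ne hi]
        obtain ⟨q, k⟩ := i
        simp only [hfJ, Finset.mem_insert]
        by_cases hq : q = p
        · subst hq
          have hk : k ≠ j := fun h => hi (by rw [h])
          simp [hk]
        · simp [hq]
    rw [e]
    refine ⟨c + dq (fJ (p, j)) (f' (p, j)), hc1.trans (rch_lamp hr g fJ p j _), ?_⟩
    have := delta_update fJ f' (p, j)
    omega

/-- The tour. -/
theorem rch_tour [NeZero n] (hr : 3 ≤ r) (g : F) (f f' : L n b r) (p : ZMod n) (t : ℕ)
    (ht : t ≤ n) :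
    ∃ c, Rch c (g, (f, p))
      (g, ((fun i => if (i.1 - p).val < t then f' i else f i), p + (t : ZMod n))) ∧
      c + delta (fun i => if (i.1 - p).val < t then f' i else f i) f' = delta f f' + t := by
  induction t with
  | zero =>
    refine ⟨0, ?_, ?_⟩
    · simpa using Rch.refl (n := n) (b := b) (r := r) (g, (f, p))
    · simp
  | succ t ih =>
    obtain ⟨c, hc1, hc2⟩ := ih (by omega)
    set ft : L n b r := fun i => if (i.1 - p).val < t then f' i else f i with hft
    obtain ⟨d, hd1, hd2⟩ := rch_block hr g ft f' (p + (t : ZMod n)) Finset.univ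
    have e : (fun i : I n b => if i.1 = p + (t : ZMod n) ∧ i.2 ∈ Finset.univ then f' i
        else ft i) = fun i => if (i.1 - p).val < t + 1 then f' i else f i := by
      funext i
      have h1 : i.1 = p + (t : ZMod n) ↔ (i.1 - p).val = t := by
        constructor
        · intro h
          rw [h, add_sub_cancel_left]
          exact ZMod.val_natCast_of_lt (by omega)
        · intro h
          have h2 : ((i.1 - p).val : ZMod n) = i.1 - p := ZMod.natCast_zmod_val _
          rw [h] at h2
          rw [h2]
          ring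
      simp only [hft, Finset.mem_univ, and_true, h1]
      by_cases h2 : (i.1 - p).val = t
      · simp [h2]
      · by_cases h3 : (i.1 - p).val < t
        · simp [h2, h3, Nat.lt_succ_of_lt h3]
        · have h4 : ¬ (i.1 - p).val < t + 1 := by omega
          simp [h2, h3, h4]
    rw [e] at hd1 hd2
    have h5 := rch_pos g (fun i : I n b => if (i.1 - p).val < t + 1 then f' i else f i)
      (p + (t : ZMod n)) 1
    have e2 : p + (t : ZMod n) + ((1 : ℕ) : ZMod n) = p + ((t + 1 : ℕ) : ZMod n) := by
      push_cast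
      ring
    rw [e2] at h5
    refine ⟨c + d + 1, (hc1.trans hd1).trans h5, ?_⟩
    omega

theorem rch_all [NeZero n] (hr : 3 ≤ r) (u v : V n b r) : Rch (pot u v + 2 * n) u v := by
  obtain ⟨g, f, p⟩ := u
  obtain ⟨g', f', p'⟩ := v
  obtain ⟨c, hc1, hc2⟩ := rch_tour hr g f f' p n le_rfl
  have e : (fun i : I n b => if (i.1 - p).val < n then f' i else f i) = f' := by
    funext i
    simp [ZMod.val_lt]
  rw [e, ZMod.natCast_self, add_zero] at hc1
  rw [e, delta_self, add_zero] at hc2
  have h1 := rch_pos g f' p (p' - p).val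
  rw [ZMod.natCast_zmod_val, add_sub_cancel] at h1
  have h2 := rch_free' (f', p') g g'
  refine ((hc1.trans h1).trans h2).mono ?_
  have h3 : (p' - p).val < n := ZMod.val_lt _
  unfold pot
  simp only
  omega

theorem connected [NeZero n] (hr : 3 ≤ r) : (gr n b r).Connected := by
  have h : (gr n b r).Preconnected := fun u v => by
    obtain ⟨p, -⟩ := rch_all hr u v
    exact ⟨p⟩
  exact { preconnected := h
          nonempty := ⟨((1 : F), (fun _ => (⟨0, by omega⟩, false), 0))⟩ }

theorem dist_le_pot [NeZero n] (hr : 3 ≤ r) (u v : V n b r) :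
    (gr n b r).dist u v ≤ pot u v + 2 * n := by
  obtain ⟨p, hp⟩ := rch_all hr u v
  exact (SimpleGraph.dist_le p).trans hp

theorem pot_le_dist [NeZero n] (hr : 3 ≤ r) (u v : V n b r) :
    pot u v ≤ (gr n b r).dist u v := by
  obtain ⟨p, hp⟩ := (connected (b := b) hr).exists_walk_length_eq_dist u v
  rw [← hp]
  exact pot_le_length p

theorem norm_le_dist [NeZero n] (hr : 3 ≤ r) (u v : V n b r) :
    (v.1 * u.1⁻¹).norm ≤ (gr n b r).dist u v :=
  (Nat.le_add_right _ _).trans (pot_le_dist hr u v)

theorem dist_zeta_le [NeZero n] (hr : 3 ≤ r) (u v : V n b r) :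
    (gr n b r).dist (zeta u) (zeta v) ≤ (gr n b r).dist u v := by
  obtain ⟨p, hp⟩ := (connected (b := b) hr).exists_walk_length_eq_dist u v
  let φ : gr n b r →g gr n b r := ⟨zeta, fun h => adj_zeta h⟩
  have h1 := SimpleGraph.dist_le (p.map φ)
  rw [SimpleGraph.Walk.length_map, hp] at h1
  exact h1

theorem dist_zeta [NeZero n] (hr : 3 ≤ r) (u v : V n b r) :
    (gr n b r).dist (zeta u) (zeta v) = (gr n b r).dist u v := by
  refine le_antisymm (dist_zeta_le hr u v) ?_
  have := dist_zeta_le hr (zeta u) (zeta v)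
  rwa [zeta_zeta, zeta_zeta] at this

theorem dist_zeta_right [NeZero n] (hr : 3 ≤ r) (u v : V n b r) :
    (gr n b r).dist (zeta u) v = (gr n b r).dist u (zeta v) := by
  rw [← dist_zeta hr u (zeta v), zeta_zeta]

theorem card_I [NeZero n] : Fintype.card (I n b) = n * b := by
  rw [Fintype.card_prod, ZMod.card, Fintype.card_fin]

/-- The flip moves every vertex far away. -/
theorem le_dist_zeta_self [NeZero n] (hr : 3 ≤ r) (u : V n b r) :
    3 * (n * b) ≤ (gr n b r).dist u (zeta u) := by
  refine le_trans ?_ (pot_le_dist hr u (zeta u))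
  unfold pot delta
  have h1 : ∀ i ∈ (Finset.univ : Finset (I n b)), dq (u.2.1 i) ((zeta u).2.1 i) = 3 :=
    fun i _ => dq_flip_self _
  rw [Finset.sum_congr rfl h1, Finset.sum_const, Finset.card_univ, card_I, smul_eq_mul]
  omega

/-- Two points of one fibre are close, up to the flip. -/
theorem dist_add_dist_zeta [NeZero n] (hr : 3 ≤ r) (u v : V n b r) (h : u.1 = v.1) :
    (gr n b r).dist u v + (gr n b r).dist u (zeta v) ≤ 3 * (n * b) + 4 * n := by
  have h1 := dist_le_pot hr u v
  have h2 := dist_le_pot hr u (zeta v)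
  have h3 : pot u v + pot u (zeta v) = 3 * (n * b) := by
    unfold pot delta
    have e1 : (v.1 * u.1⁻¹).norm = 0 := by rw [h]; simp
    have e2 : ((zeta v).1 * u.1⁻¹).norm = 0 := by
      change (v.1 * u.1⁻¹).norm = 0
      exact e1
    rw [e1, e2, zero_add, zero_add, ← Finset.sum_add_distrib]
    have h4 : ∀ i ∈ (Finset.univ : Finset (I n b)),
        dq (u.2.1 i) (v.2.1 i) + dq (u.2.1 i) ((zeta v).2.1 i) = 3 :=
      fun i _ => dq_add_flip _ _
    rw [Finset.sum_congr rfl h4, Finset.sum_const, Finset.card_univ, card_I, smul_eq_mul]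
    ring
  omega

end Pool.Agent.TH236.Net
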