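import Mathlib
import Pool.Agent.TH236.Net2

open Finset

namespace Pool.Agent.TH236.Net

/-! A code of Gilbert and Varshamov. -/

section code

variable {ι : Type} [Fintype ι] {r : ℕ}

/-- Number of agreements. -/
def agree (c x : ι → Fin r) : ℕ := (Finset.univ.filter (fun i => c i = x i)).card

theorem agree_comm (c x : ι → Fin r) : agree c x = agree x c := by
  unfold agree
  congr 1
  ext i
  simp [eq_comm]

variable [DecidableEq ι]

theorem card_fixed (c : ι → Fin r) (J : Finset ι) :
    (Finset.univ.filter (fun x : ι → Fin r => ∀ i ∈ J, x i = c i)).card =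
      r ^ (Fintype.card ι - J.card) := by
  have h1 : (Finset.univ.filter (fun x : ι → Fin r => ∀ i ∈ J, x i = c i)) =
      Fintype.piFinset (fun i => if i ∈ J then ({c i} : Finset (Fin r)) else Finset.univ) := by
    ext x
    simp only [Finset.mem_filter, Finset.mem_univ, true_and, Fintype.mem_piFinset]
    constructor
    · intro h i
      by_cases hi : i ∈ J
      · simp [hi, h i hi]
      · simp [hi]
    · intro h i hi
      have := h i
      simpa [hi] using this
  rw [h1, Fintype.card_piFinset]
  have h2 : ∀ i ∈ (Finset.univ : Finset ι),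
      (if i ∈ J then ({c i} : Finset (Fin r)) else Finset.univ).card =
        if i ∈ J then 1 else r := by
    intro i _
    by_cases hi : i ∈ J <;> simp [hi]
  rw [Finset.prod_congr rfl h2, Finset.prod_ite, Finset.prod_const_one, one_mul,
    Finset.prod_const]
  congr 1
  have h3 : (Finset.univ.filter (fun i => i ∉ J)) = Jᶜ := by
    ext i
    simp
  rw [h3, Finset.card_compl]

theorem card_ball (c : ι → Fin r) (m : ℕ) :
    (Finset.univ.filter (fun x : ι → Fin r => m ≤ agree c x)).card ≤
      2 ^ Fintype.card ι * r ^ (Fintype.card ι - m) := by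
  have h1 : (Finset.univ.filter (fun x : ι → Fin r => m ≤ agree c x)) ⊆
      (Finset.powersetCard m (Finset.univ : Finset ι)).biUnion
        (fun J => Finset.univ.filter (fun x : ι → Fin r => ∀ i ∈ J, x i = c i)) := by
    intro x hx
    rw [Finset.mem_filter] at hx
    obtain ⟨J, hJ1, hJ2⟩ := Finset.exists_subset_card_eq hx.2
    rw [Finset.mem_biUnion]
    refine ⟨J, ?_, ?_⟩
    · rw [Finset.mem_powersetCard]
      exact ⟨Finset.subset_univ _, hJ2⟩
    · rw [Finset.mem_filter]
      refine ⟨Finset.mem_univ _, fun i hi => ?_⟩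
      have := hJ1 hi
      rw [Finset.mem_filter] at this
      exact this.2.symm
  refine (Finset.card_le_card h1).trans (Finset.card_biUnion_le.trans ?_)
  have h2 : ∀ J ∈ Finset.powersetCard m (Finset.univ : Finset ι),
      (Finset.univ.filter (fun x : ι → Fin r => ∀ i ∈ J, x i = c i)).card =
        r ^ (Fintype.card ι - m) := by
    intro J hJ
    rw [Finset.mem_powersetCard] at hJ
    rw [card_fixed, hJ.2]
  rw [Finset.sum_congr rfl h2, Finset.sum_const, smul_eq_mul, Finset.card_powersetCard,
    Finset.card_univ]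
  exact Nat.mul_le_mul_right _ (Nat.choose_le_two_pow _ _)

theorem exists_code (m : ℕ) (hm : m < Fintype.card ι) (hr : 0 < r) :
    ∃ C : Finset (ι → Fin r), (∀ c ∈ C, ∀ x ∈ C, c ≠ x → agree c x ≤ m) ∧
      r ^ (m + 1) ≤ C.card * 2 ^ Fintype.card ι := by
  classical
  set P : Finset (Finset (ι → Fin r)) := Finset.univ.filter
    (fun C => ∀ c ∈ C, ∀ x ∈ C, c ≠ x → agree c x ≤ m) with hP
  have hne : P.Nonempty := ⟨∅, by simp [hP]⟩
  obtain ⟨C, hC, hmax⟩ := Finset.exists_max_image P Finset.card hne
  have hC' : ∀ c ∈ C, ∀ x ∈ C, c ≠ x → agree c x ≤ m := by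
    rw [hP, Finset.mem_filter] at hC
    exact hC.2
  refine ⟨C, hC', ?_⟩
  have hself : ∀ x : ι → Fin r, agree x x = Fintype.card ι := by
    intro x
    simp [agree, Finset.card_univ]
  have hcov : ∀ x : ι → Fin r, ∃ c ∈ C, m + 1 ≤ agree c x := by
    intro x
    by_contra h
    push Not at h
    have hx : x ∉ C := by
      intro hx
      have := h x hx
      rw [hself] at this
      omega
    have h1 : insert x C ∈ P := by
      rw [hP, Finset.mem_filter]
      refine ⟨Finset.mem_univ _, ?_⟩
      intro c hc y hy hcy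
      rw [Finset.mem_insert] at hc hy
      rcases hc with rfl | hc <;> rcases hy with rfl | hy
      · exact absurd rfl hcy
      · rw [agree_comm]
        have := h y hy
        omega
      · have := h c hc
        omega
      · exact hC' c hc y hy hcy
    have h2 := hmax _ h1
    rw [Finset.card_insert_of_notMem hx] at h2
    omega
  have h1 : (Finset.univ : Finset (ι → Fin r)) ⊆ C.biUnion
      (fun c => Finset.univ.filter (fun x : ι → Fin r => m + 1 ≤ agree c x)) := by
    intro x _
    obtain ⟨c, hc, h⟩ := hcov x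
    rw [Finset.mem_biUnion]
    exact ⟨c, hc, by rw [Finset.mem_filter]; exact ⟨Finset.mem_univ _, h⟩⟩
  have h2 := (Finset.card_le_card h1).trans Finset.card_biUnion_le
  rw [Finset.card_univ, Fintype.card_fun, Fintype.card_fin] at h2
  have h3 : ∑ c ∈ C, (Finset.univ.filter (fun x : ι → Fin r => m + 1 ≤ agree c x)).card ≤
      C.card * (2 ^ Fintype.card ι * r ^ (Fintype.card ι - (m + 1))) := by
    rw [← smul_eq_mul, ← Finset.sum_const]
    exact Finset.sum_le_sum fun c _ => card_ball c (m + 1)
  have h4 : r ^ Fintype.card ι = r ^ (m + 1) * r ^ (Fintype.card ι - (m + 1)) := by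
    rw [← pow_add]
    congr 1
    omega
  rw [h4] at h2
  have h5 : 0 < r ^ (Fintype.card ι - (m + 1)) := Nat.pow_pos hr
  refine Nat.le_of_mul_le_mul_right ?_ h5
  calc r ^ (m + 1) * r ^ (Fintype.card ι - (m + 1)) ≤ _ := h2
    _ ≤ _ := h3
    _ = _ := by ring

end code

/-! Balls in the free group. -/

theorem ball_finite (j : ℕ) : {x : F | x.norm ≤ j}.Finite := by
  have h1 : {l : List (Fin 2 × Bool) | l.length ≤ j}.Finite := List.finite_length_le _ j
  exact Set.Finite.of_finite_image (f := FreeGroup.toWord)
    (h1.subset (by rintro _ ⟨x, hx, rfl⟩; exact hx)) (FreeGroup.toWord_injective.injOn)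

theorem ball_card (j : ℕ) : {x : F | x.norm ≤ j}.ncard ≤ 5 ^ j := by
  have h1 : (Set.univ : Set (Fin j → Option (Fin 2 × Bool))).ncard = 5 ^ j := by
    rw [Set.ncard_univ, Nat.card_eq_fintype_card, Fintype.card_fun, Fintype.card_fin,
      Fintype.card_option, Fintype.card_prod, Fintype.card_fin, Fintype.card_bool]
  rw [← h1]
  refine Set.ncard_le_ncard_of_injOn (fun x : F => fun i : Fin j => x.toWord[(i : ℕ)]?)
    (fun _ _ => Set.mem_univ _) ?_ (Set.toFinite _)
  intro x hx y hy h
  apply FreeGroup.toWord_injective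
  apply List.ext_getElem?
  intro i
  by_cases hi : i < j
  · exact congrFun h ⟨i, hi⟩
  · have hx' : x.toWord.length ≤ j := hx
    have hy' : y.toWord.length ≤ j := hy
    rw [List.getElem?_eq_none (by omega), List.getElem?_eq_none (by omega)]

/-! Expansion. -/

/-- The letter used for the children. -/
def other : List (Fin 2 × Bool) → Fin 2
  | [] => 0
  | (a :: _) => a.1 + 1

/-- The two children of an element of the free group. -/
def child (v : F) (e : Bool) : F := FreeGroup.mk ((other v.toWord, e) :: v.toWord)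

theorem toWord_child (v : F) (e : Bool) :
    (child v e).toWord = (other v.toWord, e) :: v.toWord := by
  unfold child
  rw [FreeGroup.toWord_mk, FreeGroup.reduce.cons, FreeGroup.reduce_toWord]
  rcases h : v.toWord with _ | ⟨a, L⟩
  · rfl
  · have h1 : a.1 + 1 ≠ a.1 := by
      intro h
      have : ∀ c : Fin 2, c + 1 ≠ c := by decide
      exact this _ h
    simp [other, h1]

theorem child_injective (v w : F) (e c : Bool) (h : child v e = child w c) :
    v = w ∧ e = c := by
  have h1 := congrArg FreeGroup.toWord h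
  rw [toWord_child, toWord_child] at h1
  simp only [List.cons.injEq, Prod.mk.injEq] at h1
  exact ⟨FreeGroup.toWord_injective h1.2, h1.1.2⟩

theorem child_norm (v : F) (e : Bool) : (child v e * v⁻¹).norm = 1 := by
  have e1 : ∀ (a : Fin 2 × Bool) (L : List (Fin 2 × Bool)),
      (FreeGroup.mk (a :: L) : F) = FreeGroup.mk [a] * FreeGroup.mk L := by
    intro a L
    rw [FreeGroup.mul_mk]
    rfl
  have e2 : child v e * v⁻¹ = FreeGroup.mk [(other v.toWord, e)] := by
    rw [mul_inv_eq_iff_eq_mul]
    unfold child
    rw [e1, FreeGroup.mk_toWord]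
  rw [e2]
  rfl

theorem infinite_F : Infinite F := by
  rw [← not_finite_iff_infinite]
  intro hf
  have h2 : Function.Injective (fun q : F × Bool => child q.1 q.2) := by
    rintro ⟨v, e⟩ ⟨w, c⟩ h
    obtain ⟨rfl, rfl⟩ := child_injective _ _ _ _ h
    rfl
  have h3 := Nat.card_le_card_of_injective _ h2
  rw [Nat.card_prod] at h3
  have h4 : 0 < Nat.card F := Nat.card_pos
  have h5 : Nat.card Bool = 2 := by simp
  rw [h5] at h3
  omega

end Pool.Agent.TH236.Net
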