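import Mathlib
import Pool.Agent.TH236.Net3

open Finset

namespace Pool.Agent.TH236.Net

/-- The set of edges of `G` with exactly one endpoint in `A`. -/
def edgeBoundary {V : Type} (G : SimpleGraph V) (A : Finset V) : Set (Sym2 V) :=
  {e | e ∈ G.edgeSet ∧ ∃ u ∈ A, ∃ v, v ∉ A ∧ e = s(u, v)}

/-- The Cheeger constant. -/
noncomputable def cheeger {V : Type} (G : SimpleGraph V) : ℝ :=
  sInf {x : ℝ | ∃ A : Finset V, A.Nonempty ∧ x = ((edgeBoundary G A).ncard : ℝ) / (A.card : ℝ)}

/-- Every two distinct vertices of `S` are at distance at least `k`. -/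
def Separated {V : Type} (G : SimpleGraph V) (k : ℕ) (S : Set V) : Prop :=
  ∀ u ∈ S, ∀ v ∈ S, u ≠ v → k ≤ G.dist u v

/-- A `k`-net. -/
def IsNet {V : Type} (G : SimpleGraph V) (k : ℕ) (S : Set V) : Prop :=
  Maximal (Separated G k) S

/-- The net graph of a set `S`. -/
def netGraph {V : Type} (G : SimpleGraph V) (k : ℕ) (S : Set V) : SimpleGraph S where
  Adj u v := u ≠ v ∧ G.dist (u : V) (v : V) ≤ 2 * k
  symm := ⟨fun u v h => ⟨h.1.symm, by rw [SimpleGraph.dist_comm]; exact h.2⟩⟩
  loopless := ⟨fun u h => h.1 rfl⟩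

theorem cheeger_nonneg {V : Type} (G : SimpleGraph V) : 0 ≤ cheeger G := by
  refine Real.sInf_nonneg ?_
  rintro x ⟨A, -, rfl⟩
  positivity

theorem cheeger_le {V : Type} (G : SimpleGraph V) (A : Finset V) (hA : A.Nonempty) :
    cheeger G ≤ ((edgeBoundary G A).ncard : ℝ) / (A.card : ℝ) := by
  refine csInf_le ⟨0, ?_⟩ ⟨A, hA, rfl⟩
  rintro x ⟨B, -, rfl⟩
  positivity

theorem exists_net_ge {V : Type} (G : SimpleGraph V) (k : ℕ) (X : Set V)
    (hX : Separated G k X) : ∃ S, X ⊆ S ∧ IsNet G k S := by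
  refine zorn_subset_nonempty {S | Separated G k S} ?_ X hX
  intro c hc hchain _
  refine ⟨⋃₀ c, ?_, fun s hs => Set.subset_sUnion_of_mem hs⟩
  rintro u ⟨s, hs, hus⟩ v ⟨t, ht, hvt⟩ huv
  rcases hchain.total hs ht with h | h
  · exact hc ht u (h hus) v hvt huv
  · exact hc hs u hus v (h hvt) huv

theorem edgeBoundary_finite {V : Type} (G : SimpleGraph V)
    (hG : ∀ v, (G.neighborSet v).Finite) (A : Finset V) :
    (edgeBoundary G A).Finite := by
  have h1 : (⋃ x ∈ A, (fun y => s(x, y)) '' G.neighborSet x).Finite :=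
    Set.Finite.biUnion A.finite_toSet (fun x _ => (hG x).image _)
  refine h1.subset ?_
  rintro e ⟨he, u, hu, v, hv, rfl⟩
  rw [Set.mem_iUnion₂]
  exact ⟨u, hu, v, he, rfl⟩

variable {n b r : ℕ}

theorem neighborSet_subset [NeZero n] (u : V n b r) :
    (gr n b r).neighborSet u ⊆
      ((fun h : F => ((h * u.1, u.2) : V n b r)) '' {h | h.norm ≤ 1}) ∪
      (({(u.1, (u.2.1, u.2.2 + 1)), (u.1, (u.2.1, u.2.2 - 1))} : Set (V n b r)) ∪
        Set.range (fun q : Fin b × Q r =>
          ((u.1, (Function.update u.2.1 (u.2.2, q.1) q.2, u.2.2)) : V n b r))) := by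
  rintro v ⟨-, h⟩
  rcases h with h | h | h
  · refine Or.inl ⟨v.1 * u.1⁻¹, h.2.le, ?_⟩
    refine Prod.ext ?_ h.1
    simp
  · refine Or.inr (Or.inl ?_)
    rcases h.2.2 with h3 | h3
    · refine Or.inl ?_
      exact Prod.ext h.1.symm (Prod.ext h.2.1.symm h3)
    · refine Or.inr ?_
      refine Prod.ext h.1.symm (Prod.ext h.2.1.symm ?_)
      change v.2.2 = u.2.2 - 1
      rw [h3, add_sub_cancel_right]
  · obtain ⟨h1, h2, j, h3, h4⟩ := h
    refine Or.inr (Or.inr ⟨(j, v.2.1 (u.2.2, j)), ?_⟩)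
    refine Prod.ext h1 (Prod.ext ?_ h2)
    funext i
    change Function.update u.2.1 (u.2.2, j) (v.2.1 (u.2.2, j)) i = v.2.1 i
    by_cases hi : i = (u.2.2, j)
    · subst hi
      rw [Function.update_self]
    · rw [Function.update_of_ne hi]
      exact h4 i hi

theorem neighborSet_finite [NeZero n] (u : V n b r) : ((gr n b r).neighborSet u).Finite := by
  refine Set.Finite.subset ?_ (neighborSet_subset u)
  refine ((ball_finite 1).image _).union (Set.Finite.union ?_ (Set.finite_range _))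
  exact Set.toFinite _

theorem degree_le [NeZero n] (u : V n b r) :
    ((gr n b r).neighborSet u).ncard ≤ 5 + (2 + b * (r * 2)) := by
  refine (Set.ncard_le_ncard (neighborSet_subset u) ?_).trans ?_
  · refine ((ball_finite 1).image _).union (Set.Finite.union ?_ (Set.finite_range _))
    exact Set.toFinite _
  · refine (Set.ncard_union_le _ _).trans (Nat.add_le_add ?_
      ((Set.ncard_union_le _ _).trans (Nat.add_le_add ?_ ?_)))
    · exact (Set.ncard_image_le (ball_finite 1)).trans (ball_card 1)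
    · exact (Set.ncard_insert_le _ _).trans (by rw [Set.ncard_singleton])
    · rw [← Set.image_univ]
      refine (Set.ncard_image_le Set.finite_univ).trans ?_
      rw [Set.ncard_univ, Nat.card_eq_fintype_card, Fintype.card_prod, Fintype.card_prod,
        Fintype.card_fin, Fintype.card_fin, Fintype.card_bool]

theorem boundary_lower [NeZero n] (A : Finset (V n b r)) :
    A.card ≤ (edgeBoundary (gr n b r) A).ncard := by
  classical
  set φ : V n b r × Bool → V n b r × V n b r :=
    fun q => (q.1, (child q.1.1 q.2, q.1.2)) with hφ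
  have hφinj : Function.Injective φ := by
    rintro ⟨x, e⟩ ⟨x', e'⟩ h
    simp only [hφ, Prod.mk.injEq] at h
    obtain ⟨rfl, h2, -⟩ := h
    rw [(child_injective _ _ _ _ h2).2]
  set T : Finset (V n b r × V n b r) :=
    (A ×ˢ (Finset.univ : Finset Bool)).image φ with hT
  have hTcard : T.card = A.card * 2 := by
    rw [hT, Finset.card_image_of_injective _ hφinj, Finset.card_product]
    simp
  have hTmem : ∀ q ∈ T, q.1 ∈ A ∧ ∃ e, q.2 = (child q.1.1 e, q.1.2) := by
    intro q hq
    rw [hT, Finset.mem_image] at hq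
    obtain ⟨a, ha, rfl⟩ := hq
    rw [Finset.mem_product] at ha
    exact ⟨ha.1, a.2, rfl⟩
  have hin : (T.filter (fun q => q.2 ∈ A)).card ≤ A.card := by
    refine Finset.card_le_card_of_injOn (fun q => q.2) ?_ ?_
    · intro q hq
      rw [Finset.mem_coe, Finset.mem_filter] at hq
      exact hq.2
    · intro q hq q' hq' h
      rw [Finset.mem_coe, Finset.mem_filter] at hq hq'
      obtain ⟨-, e, he⟩ := hTmem q hq.1
      obtain ⟨-, e', he'⟩ := hTmem q' hq'.1
      have h2 : q.2 = q'.2 := h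
      have h3 := h2
      rw [he, he'] at h3
      have h4 := (child_injective _ _ _ _ (congrArg Prod.fst h3)).1
      have h5 := congrArg Prod.snd h3
      exact Prod.ext (Prod.ext h4 h5) h2
  have hout : A.card ≤ (T.filter (fun q => q.2 ∉ A)).card := by
    have h1 := Finset.card_filter_add_card_filter_not (s := T) (fun q => q.2 ∈ A)
    omega
  refine hout.trans ?_
  rw [← Set.ncard_coe_finset]
  refine Set.ncard_le_ncard_of_injOn (fun q => s(q.1, q.2)) ?_ ?_
    (edgeBoundary_finite _ (fun v => neighborSet_finite v) A)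
  · intro q hq
    rw [Finset.mem_coe, Finset.mem_filter] at hq
    obtain ⟨h1, e, he⟩ := hTmem q hq.1
    refine ⟨?_, q.1, h1, q.2, hq.2, rfl⟩
    rw [SimpleGraph.mem_edgeSet, gr_adj]
    refine ⟨fun h => hq.2 (h ▸ h1), Or.inl ?_⟩
    rw [he]
    exact ⟨rfl, child_norm _ _⟩
  · intro q hq q' hq' h
    rw [Finset.mem_coe, Finset.mem_filter] at hq hq'
    simp only [Sym2.eq_iff] at h
    rcases h with h | h
    · exact Prod.ext h.1 h.2
    · exact absurd (h.1 ▸ (hTmem q hq.1).1) hq'.2

theorem one_le_cheeger [NeZero n] (hr : 3 ≤ r) : 1 ≤ cheeger (gr n b r) := by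
  have hne : Nonempty (V n b r) := ⟨((1 : F), (fun _ => (⟨0, by omega⟩, false), 0))⟩
  refine le_csInf ⟨_, {hne.some}, Finset.singleton_nonempty _, rfl⟩ ?_
  rintro x ⟨A, hA, rfl⟩
  have h1 : (0 : ℝ) < A.card := by exact_mod_cast hA.card_pos
  rw [le_div_iff₀ h1, one_mul]
  exact_mod_cast boundary_lower A

/-! The sparse part of the net. -/

/-- A family of points far from the centre, invariant under the flip, with few points in every
fibre, which no point far from the centre can be added to. -/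
theorem exists_sparse [NeZero n] (hr : 3 ≤ r) (k : ℕ) (hk0 : 0 < k) (hk1 : k ≤ 3 * (n * b)) :
    ∃ E : Set (V n b r), (∀ v ∈ E, k ≤ v.1.norm) ∧ Separated (gr n b r) k E ∧
      (∀ v ∈ E, zeta v ∈ E) ∧
      ∀ v : V n b r, k ≤ v.1.norm → ∃ e ∈ E, (gr n b r).dist v e < k := by
  obtain ⟨E, hE⟩ := zorn_subset {X : Set (V n b r) | (∀ v ∈ X, k ≤ v.1.norm) ∧
    Separated (gr n b r) k X ∧ ∀ v ∈ X, zeta v ∈ X} (by
    intro c hc hchain
    refine ⟨⋃₀ c, ⟨?_, ?_, ?_⟩, fun s hs => Set.subset_sUnion_of_mem hs⟩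
    · rintro v ⟨s, hs, hv⟩
      exact (hc hs).1 v hv
    · rintro u ⟨s, hs, hus⟩ v ⟨t, ht, hvt⟩ huv
      rcases hchain.total hs ht with h | h
      · exact (hc ht).2.1 u (h hus) v hvt huv
      · exact (hc hs).2.1 u hus v (h hvt) huv
    · rintro v ⟨s, hs, hv⟩
      exact ⟨s, hs, (hc hs).2.2 v hv⟩)
  obtain ⟨⟨h1, h2, h3⟩, hmax⟩ := hE
  refine ⟨E, h1, h2, h3, ?_⟩
  intro v hv
  by_contra hcon
  push Not at hcon
  have hz : ∀ e ∈ E, k ≤ (gr n b r).dist (zeta v) e := by
    intro e he
    rw [dist_zeta_right hr]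
    exact hcon _ (h3 e he)
  have hvz : k ≤ (gr n b r).dist v (zeta v) := hk1.trans (le_dist_zeta_self hr v)
  have hmem : (insert v (insert (zeta v) E)) ∈ {X : Set (V n b r) | (∀ v ∈ X, k ≤ v.1.norm) ∧
      Separated (gr n b r) k X ∧ ∀ v ∈ X, zeta v ∈ X} := by
    refine ⟨?_, ?_, ?_⟩
    · rintro w (rfl | rfl | hw)
      · exact hv
      · exact hv
      · exact h1 w hw
    · rintro x (rfl | rfl | hx) y (rfl | rfl | hy) hxy
      · exact absurd rfl hxy
      · exact hvz
      · exact hcon y hy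
      · rw [SimpleGraph.dist_comm]
        exact hvz
      · exact absurd rfl hxy
      · exact hz y hy
      · rw [SimpleGraph.dist_comm]
        exact hcon x hx
      · rw [SimpleGraph.dist_comm]
        exact hz x hx
      · exact h2 x hx y hy hxy
    · rintro w (rfl | rfl | hw)
      · exact Or.inr (Or.inl rfl)
      · refine Or.inl ?_
        exact zeta_zeta _
      · exact Or.inr (Or.inr (h3 w hw))
  have hle : E ≤ insert v (insert (zeta v) E) := fun w hw => Or.inr (Or.inr hw)
  have h4 := hmax hmem hle (Or.inl rfl)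
  have h5 := hcon v h4
  rw [SimpleGraph.dist_self] at h5
  omega

/-- The number of points of the sparse part over a ball. -/
theorem sparse_card [NeZero n] (hr : 3 ≤ r) (k : ℕ) (hk2 : 3 * (n * b) + 4 * n < 2 * k)
    (E : Set (V n b r)) (hE2 : Separated (gr n b r) k E) (hE3 : ∀ v ∈ E, zeta v ∈ E) (R : ℕ) :
    {v : V n b r | v ∈ E ∧ v.1.norm ≤ R}.Finite ∧
      {v : V n b r | v ∈ E ∧ v.1.norm ≤ R}.ncard ≤ 2 * 5 ^ R := by
  classical
  have hfin : {v : V n b r | v ∈ E ∧ v.1.norm ≤ R}.Finite := by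
    have h1 : ({g : F | g.norm ≤ R} ×ˢ (Set.univ : Set (L n b r × ZMod n))).Finite :=
      (ball_finite R).prod (Set.toFinite _)
    exact h1.subset fun v hv => ⟨hv.2, Set.mem_univ _⟩
  refine ⟨hfin, ?_⟩
  rw [Set.ncard_eq_toFinset_card _ hfin]
  refine (Finset.card_le_mul_card_image (f := Prod.fst) hfin.toFinset 2 ?_).trans ?_
  · intro g hg
    rw [Finset.mem_image] at hg
    obtain ⟨u, hu, rfl⟩ := hg
    have h1 : hfin.toFinset.filter (fun x => x.1 = u.1) ⊆ {u, zeta u} := by
      intro v hv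
      rw [Finset.mem_filter, Set.Finite.mem_toFinset] at hv
      rw [Set.Finite.mem_toFinset] at hu
      by_contra hne
      rw [Finset.mem_insert, Finset.mem_singleton] at hne
      push Not at hne
      have h2 := hE2 u hu.1 v hv.1.1 (Ne.symm hne.1)
      have h3 := hE2 u hu.1 (zeta v) (hE3 v hv.1.1) (by
        intro h
        apply hne.2
        rw [h, zeta_zeta])
      have h4 := dist_add_dist_zeta hr u v hv.2.symm
      omega
    exact (Finset.card_le_card h1).trans Finset.card_le_two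
  · refine Nat.mul_le_mul_left 2 ?_
    refine le_trans ?_ (ball_card R)
    rw [Set.ncard_eq_toFinset_card _ (ball_finite R)]
    refine Finset.card_le_card ?_
    intro g hg
    rw [Finset.mem_image] at hg
    obtain ⟨u, hu, rfl⟩ := hg
    rw [Set.Finite.mem_toFinset] at hu ⊢
    exact hu.2

end Pool.Agent.TH236.Net
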