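import Mathlib
import Pool.Agent.TH236.Net4

open Finset

namespace Pool.Agent.TH236.Net

variable {r : ℕ}

/-- The configuration of a code word. -/
def word {n b r : ℕ} (c : ZMod n → Fin r) : L n b r := fun i => (c i.1, false)

theorem delta_word {n b : ℕ} [NeZero n] (c x : ZMod n → Fin r) :
    delta (word (b := b) c) (word x) = (n - agree c x) * (b * 2) := by
  classical
  unfold delta
  rw [Fintype.sum_prod_type]
  have h1 : ∀ q ∈ (Finset.univ : Finset (ZMod n)),
      ∑ j : Fin b, dq (word (b := b) c (q, j)) (word x (q, j)) =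
        if c q = x q then 0 else b * 2 := by
    intro q _
    have h2 : ∀ j ∈ (Finset.univ : Finset (Fin b)),
        dq (word (b := b) c (q, j)) (word x (q, j)) = if c q = x q then 0 else 2 := by
      intro j _
      simp [dq, word]
    rw [Finset.sum_congr rfl h2, Finset.sum_const, Finset.card_univ, Fintype.card_fin]
    by_cases h : c q = x q <;> simp [h]
  rw [Finset.sum_congr rfl h1, Finset.sum_ite, Finset.sum_const_zero, zero_add,
    Finset.sum_const, smul_eq_mul]
  congr 1
  have h3 := Finset.card_filter_add_card_filter_not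
    (s := (Finset.univ : Finset (ZMod n))) (fun q => c q = x q)
  rw [Finset.card_univ, ZMod.card] at h3
  unfold agree
  omega

/-- The main estimate. -/
theorem main_estimate (hr : 3 ≤ r) (m : ℕ) (hm : 0 < m) :
    ∃ S, IsNet (gr (16 * m) 8 r) (240 * m) S ∧
      ∃ N : ℕ, r ^ (m + 1) ≤ N * 2 ^ (16 * m) ∧ 0 < N ∧
        cheeger (netGraph (gr (16 * m) 8 r) (240 * m) S) ≤
          4 * (25 : ℝ) ^ (1200 * m) / N := by
  classical
  have : NeZero (16 * m) := ⟨by omega⟩
  obtain ⟨C, hC1, hC2⟩ := exists_code (ι := ZMod (16 * m)) (r := r) m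
    (by rw [ZMod.card]; omega) (by omega)
  rw [ZMod.card] at hC2
  have hCpos : 0 < C.card := by
    rcases Nat.eq_zero_or_pos C.card with h | h
    · rw [h, zero_mul] at hC2
      have : 0 < r ^ (m + 1) := Nat.pow_pos (by omega)
      omega
    · exact h
  set G := gr (16 * m) 8 r with hG
  obtain ⟨E, hE1, hE2, hE3, hE4⟩ := exists_sparse (n := 16 * m) (b := 8) (r := r) hr (240 * m)
    (by omega) (by omega)
  set D : Set (V (16 * m) 8 r) := (fun c => ((1 : F), (word c, (0 : ZMod (16 * m))))) '' (C : Set _)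
    with hD
  have hDE : Separated G (240 * m) (D ∪ E) := by
    have hcross : ∀ u ∈ D, ∀ v ∈ E, 240 * m ≤ G.dist u v := by
      rintro u ⟨c, -, rfl⟩ v hv
      refine (hE1 v hv).trans (le_trans ?_ (norm_le_dist hr _ _))
      simp
    rintro u (hu | hu) v (hv | hv) huv
    · obtain ⟨c, hc, rfl⟩ := hu
      obtain ⟨x, hx, rfl⟩ := hv
      have hcx : c ≠ x := fun h => huv (by rw [h])
      have h1 := hC1 c hc x hx hcx
      refine le_trans ?_ (pot_le_dist hr _ _)
      unfold pot
      simp only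
      rw [delta_word]
      have h2 : 15 * m ≤ 16 * m - agree c x := by omega
      have h3 := Nat.mul_le_mul_right (8 * 2) h2
      omega
    · exact hcross u hu v hv
    · rw [SimpleGraph.dist_comm]
      exact hcross v hv u hu
    · exact hE2 u hu v hv huv
  obtain ⟨S, hS1, hS2⟩ := exists_net_ge G (240 * m) (D ∪ E) hDE
  have hSE : ∀ v ∈ S, 240 * m ≤ v.1.norm → v ∈ E := by
    intro v hv hvn
    obtain ⟨e, he, hd⟩ := hE4 v hvn
    by_contra hne
    have hve : v ≠ e := fun h => hne (h ▸ he)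
    have h1 := hS2.1 v hv e (hS1 (Or.inr he)) hve
    have h2 : G.dist v e < 240 * m := hd
    omega
  refine ⟨S, hS2, C.card, hC2, hCpos, ?_⟩
  -- the finite set
  have hAfin : {s : S | s.1.1.norm ≤ 720 * m}.Finite := by
    have h1 : ({g : F | g.norm ≤ 720 * m} ×ˢ
        (Set.univ : Set (L (16 * m) 8 r × ZMod (16 * m)))).Finite :=
      (ball_finite _).prod (Set.toFinite _)
    refine Set.Finite.of_finite_image (f := fun s : S => s.1) (h1.subset ?_)
      (Subtype.val_injective.injOn)
    rintro _ ⟨s, hs, rfl⟩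
    exact ⟨hs, Set.mem_univ _⟩
  set A : Finset S := hAfin.toFinset with hA
  have hAcard : C.card ≤ A.card := by
    refine Finset.card_le_card_of_injOn (fun c => if h : ((1 : F), (word c, (0 : ZMod (16 * m)))) ∈ S
      then (⟨_, h⟩ : S) else ⟨_, (hS1 (Or.inl ⟨_, (Finset.card_pos.1 hCpos).choose_spec, rfl⟩))⟩)
      ?_ ?_
    · intro c hc
      have h : ((1 : F), (word c, (0 : ZMod (16 * m)))) ∈ S := hS1 (Or.inl ⟨c, hc, rfl⟩)
      simp only [dif_pos h]
      rw [hA, Finset.mem_coe, Set.Finite.mem_toFinset]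
      change (1 : F).norm ≤ 720 * m
      simp
    · intro c hc x hx h
      have h1 : ((1 : F), (word c, (0 : ZMod (16 * m)))) ∈ S := hS1 (Or.inl ⟨c, hc, rfl⟩)
      have h2 : ((1 : F), (word x, (0 : ZMod (16 * m)))) ∈ S := hS1 (Or.inl ⟨x, hx, rfl⟩)
      simp only [dif_pos h1, dif_pos h2, Subtype.mk.injEq, Prod.mk.injEq, true_and, and_true] at h
      funext q
      have h3 := congrFun h (q, 0)
      exact congrArg Prod.fst h3
  have hAne : A.Nonempty := Finset.card_pos.1 (by omega)
  have hApos : (0 : ℝ) < A.card := by exact_mod_cast hAne.card_pos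
  refine (cheeger_le _ A hAne).trans ?_
  -- the boundary
  obtain ⟨hTfin, hTcard⟩ := sparse_card (n := 16 * m) (b := 8) hr (240 * m) (by omega) E hE2 hE3
    (1200 * m)
  set T : Finset (V (16 * m) 8 r) := hTfin.toFinset with hT
  have hbd : ((edgeBoundary (netGraph G (240 * m) S) A).ncard) ≤ (T ×ˢ T).card := by
    have h1 : ∀ e ∈ edgeBoundary (netGraph G (240 * m) S) A, ∃ q : S × S,
        (q.1.1, q.2.1) ∈ T ×ˢ T ∧ e = s(q.1, q.2) := by
      rintro e ⟨he, u, hu, v, hv, rfl⟩
      refine ⟨(u, v), ?_, rfl⟩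
      have h2 : (netGraph G (240 * m) S).Adj u v := he
      have h3 : G.dist u.1 v.1 ≤ 2 * (240 * m) := h2.2
      rw [hA, Set.Finite.mem_toFinset] at hu hv
      have hu' : u.1.1.norm ≤ 720 * m := hu
      have hv' : ¬ v.1.1.norm ≤ 720 * m := hv
      have h4 := (norm_le_dist hr u.1 v.1).trans h3
      have h5 : v.1.1.norm ≤ (v.1.1 * u.1.1⁻¹).norm + u.1.1.norm := by
        have := FreeGroup.norm_mul_le (v.1.1 * u.1.1⁻¹) u.1.1
        rwa [inv_mul_cancel_right] at this
      rw [Finset.mem_product, hT, Set.Finite.mem_toFinset, Set.Finite.mem_toFinset]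
      refine ⟨⟨hSE _ u.2 ?_, ?_⟩, ⟨hSE _ v.2 ?_, ?_⟩⟩
      · change _ ≤ u.1.1.norm
        omega
      · change u.1.1.norm ≤ _
        omega
      · change _ ≤ v.1.1.norm
        omega
      · change v.1.1.norm ≤ _
        omega
    have hne : Nonempty (S × S) := ⟨(hAne.choose, hAne.choose)⟩
    choose! g hg1 hg2 using h1
    rw [← Set.ncard_coe_finset]
    refine Set.ncard_le_ncard_of_injOn (fun e => ((g e).1.1, (g e).2.1)) ?_ ?_
      (Finset.finite_toSet _)
    · intro e he
      exact hg1 e he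
    · intro e he e' he' h
      simp only [Prod.mk.injEq] at h
      rw [hg2 e he, hg2 e' he', Subtype.ext h.1, Subtype.ext h.2]
  have hTc : T.card ≤ 2 * 5 ^ (1200 * m) := by
    rw [hT, ← Set.ncard_eq_toFinset_card _ hTfin]
    exact hTcard
  have hbd2 : (edgeBoundary (netGraph G (240 * m) S) A).ncard ≤ 4 * 25 ^ (1200 * m) := by
    refine hbd.trans ?_
    rw [Finset.card_product]
    refine (Nat.mul_le_mul hTc hTc).trans (le_of_eq ?_)
    have : (25 : ℕ) ^ (1200 * m) = 5 ^ (1200 * m) * 5 ^ (1200 * m) := by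
      have h25 : (25 : ℕ) = 5 * 5 := rfl
      rw [h25, mul_pow]
    rw [this]
    ring
  have hbd3 : ((edgeBoundary (netGraph G (240 * m) S) A).ncard : ℝ) ≤
      4 * (25 : ℝ) ^ (1200 * m) := by
    exact_mod_cast hbd2
  have hCR : (0 : ℝ) < C.card := by exact_mod_cast hCpos
  have hCA : (C.card : ℝ) ≤ A.card := by exact_mod_cast hAcard
  exact div_le_div₀ (by positivity) hbd3 hCR hCA

end Pool.Agent.TH236.Net
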