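import Mathlib
import Pool.Agent.TH236.Net5

open Finset

namespace Pool.Agent.TH236.Net

/-- A pigeonhole principle. -/
theorem pigeon (P : ℕ → ℝ → Prop) (D0 : ℕ) (h : ∀ C : ℝ, 0 < C → ∃ D ≤ D0, P D C)
    (mono : ∀ D C C', P D C → C ≤ C' → P D C') : ∃ D, ∀ C : ℝ, 0 < C → P D C := by
  by_contra hcon
  push Not at hcon
  choose Cf hpos hnot using hcon
  obtain ⟨D1, -, hmin⟩ := Finset.exists_min_image (Finset.range (D0 + 1)) Cf ⟨0, by simp⟩
  obtain ⟨D, hD, hP⟩ := h (Cf D1) (hpos D1)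
  exact hnot D (mono D _ _ hP (hmin D (by rw [Finset.mem_range]; omega)))

theorem ncard_neighborSet {V : Type} (G : SimpleGraph V)
    (h : ∀ u v : V, ∃ φ : G ≃g G, φ u = v) (u v : V) :
    (G.neighborSet u).ncard = (G.neighborSet v).ncard := by
  obtain ⟨φ, rfl⟩ := h u v
  exact Nat.card_congr (φ.mapNeighborSet u)

theorem final : ∃ D : ℕ, ∀ C : ℝ, 0 < C →
    ∃ (V : Type) (G : SimpleGraph V), Infinite V ∧ G.Connected ∧
      (∀ u v : V, ∃ φ : G ≃g G, φ u = v) ∧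
      (∀ v, (G.neighborSet v).Finite ∧ (G.neighborSet v).ncard = D) ∧
      1 ≤ cheeger G ∧
      ∃ k : ℕ, 1 ≤ k ∧ ∃ S : Set V, IsNet G k S ∧ cheeger (netGraph G k S) < C ∧
        cheeger (netGraph G k S) < C * cheeger G := by
  obtain ⟨r, hr⟩ : ∃ r : ℕ, r = 2 ^ 17 * 25 ^ 1200 := ⟨_, rfl⟩
  have hr3 : 3 ≤ r := by
    rw [hr]
    have h1 : 1 ≤ 25 ^ 1200 := Nat.one_le_pow _ _ (by norm_num)
    have h2 : 3 ≤ 2 ^ 17 := by norm_num
    calc 3 ≤ 2 ^ 17 := h2
      _ = 2 ^ 17 * 1 := (mul_one _).symm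
      _ ≤ 2 ^ 17 * 25 ^ 1200 := Nat.mul_le_mul_left _ h1
  refine pigeon _ (5 + (2 + 8 * (r * 2))) ?_ ?_
  · intro C hC
    obtain ⟨m, hm⟩ := exists_pow_lt_of_lt_one (show (0 : ℝ) < C / 4 by positivity)
      (show (1 / 2 : ℝ) < 1 by norm_num)
    obtain ⟨M, hM0, hm'⟩ : ∃ M : ℕ, 0 < M ∧ (4 : ℝ) * (1 / 2) ^ M < C := by
      refine ⟨m + 1, Nat.succ_pos m, ?_⟩
      have h1 : (1 / 2 : ℝ) ^ (m + 1) ≤ (1 / 2) ^ m := by
        rw [pow_succ]
        have : (0 : ℝ) ≤ (1 / 2) ^ m := by positivity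
        linarith
      linarith
    obtain ⟨S, hS, N, hN1, hN2, hN3⟩ := main_estimate hr3 M hM0
    have : NeZero (16 * M) := ⟨by omega⟩
    have hlow := one_le_cheeger (n := 16 * M) (b := 8) (r := r) hr3
    have hNlow : 2 ^ M * 25 ^ (1200 * M) ≤ N := by
      have h1 : r ^ M ≤ r ^ (M + 1) := Nat.pow_le_pow_right (by omega) (by omega)
      have h2 : r ^ M = (2 ^ M * 25 ^ (1200 * M)) * 2 ^ (16 * M) := by
        rw [hr, mul_pow, ← pow_mul, ← pow_mul]
        have h3 : 17 * M = M + 16 * M := by omega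
        rw [h3, pow_add]
        ring
      rw [h2] at h1
      exact Nat.le_of_mul_le_mul_right (h1.trans hN1) (by positivity)
    have hup : cheeger (netGraph (gr (16 * M) 8 r) (240 * M) S) < C := by
      refine lt_of_le_of_lt (hN3.trans ?_) hm'
      have hNR : (0 : ℝ) < N := by exact_mod_cast hN2
      rw [div_le_iff₀ hNR]
      have h1 : (2 : ℝ) ^ M * 25 ^ (1200 * M) ≤ N := by exact_mod_cast hNlow
      have h2 : (1 / 2 : ℝ) ^ M * 2 ^ M = 1 := by
        rw [← mul_pow]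
        norm_num
      have h3 : (0 : ℝ) ≤ 4 * (1 / 2) ^ M := by positivity
      calc 4 * (25 : ℝ) ^ (1200 * M) =
            4 * (1 / 2) ^ M * (2 ^ M * 25 ^ (1200 * M)) := by
            rw [← mul_assoc, mul_assoc 4, h2, mul_one]
        _ ≤ 4 * (1 / 2) ^ M * N := mul_le_mul_of_nonneg_left h1 h3
    have htr : ∀ u v : V (16 * M) 8 r, ∃ φ : gr (16 * M) 8 r ≃g gr (16 * M) 8 r, φ u = v :=
      fun u v => transitive u v
    have hne : Nonempty (V (16 * M) 8 r) := (connected (b := 8) hr3).nonempty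
    obtain ⟨v0⟩ := hne
    refine ⟨((gr (16 * M) 8 r).neighborSet v0).ncard, degree_le v0,
      V (16 * M) 8 r, gr (16 * M) 8 r, ?_, connected hr3, htr, ?_, hlow, 240 * M, by omega, S,
      hS, hup, ?_⟩
    · have := infinite_F
      have : Nonempty (L (16 * M) 8 r × ZMod (16 * M)) := ⟨v0.2⟩
      infer_instance
    · exact fun v => ⟨neighborSet_finite v, ncard_neighborSet _ htr v v0⟩
    · calc cheeger (netGraph (gr (16 * M) 8 r) (240 * M) S) < C := hup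
        _ = C * 1 := (mul_one C).symm
        _ ≤ C * cheeger (gr (16 * M) 8 r) := mul_le_mul_of_nonneg_left hlow hC.le
  · rintro D C C' ⟨V, G, h1, h2, h3, h4, h5, k, hk, S, hS, h6, h7⟩ hCC
    refine ⟨V, G, h1, h2, h3, h4, h5, k, hk, S, hS, lt_of_lt_of_le h6 hCC,
      lt_of_lt_of_le h7 ?_⟩
    exact mul_le_mul_of_nonneg_right hCC (by linarith)

end Pool.Agent.TH236.Net
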