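import Mathlib

set_option autoImplicit false

namespace Pool.TH236.SU

open Matrix Module.End

variable {n : ℕ}

theorem joint_basis {E : Type*} [NormedAddCommGroup E] [InnerProductSpace ℂ E] [FiniteDimensional ℂ E]
    (hn : Module.finrank ℂ E = n) (S1 S2 : E →ₗ[ℂ] E) (s1 : S1.IsSymmetric) (s2 : S2.IsSymmetric)
    (hc : Commute S1 S2) :
    ∃ b : OrthonormalBasis (Fin n) ℂ E, ∀ a, ∃ c1 c2 : ℂ, S1 (b a) = c1 • b a ∧ S2 (b a) = c2 • b a := by
  classical
  have hd := LinearMap.IsSymmetric.directSum_isInternal_of_commute s1 s2 hc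
  have hf := LinearMap.IsSymmetric.orthogonalFamily_eigenspace_inf_eigenspace s1 s2
  set V : ℂ × ℂ → Submodule ℂ E := fun i => eigenspace S1 i.2 ⊓ eigenspace S2 i.1 with hV
  have hfin : {i | V i ≠ ⊥}.Finite := WellFoundedGT.finite_ne_bot_of_iSupIndep hd.submodule_iSupIndep
  have : Fintype {i // V i ≠ ⊥} := hfin.fintype
  have hd' : DirectSum.IsInternal (fun i : {i // V i ≠ ⊥} => V i) :=
    (DirectSum.isInternal_ne_bot_iff).mpr hd
  have hf' : OrthogonalFamily ℂ (fun i : {i // V i ≠ ⊥} => V i) fun i => (V i).subtypeₗᵢ :=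
    hf.comp Subtype.coe_injective
  refine ⟨hd'.subordinateOrthonormalBasis hn hf', fun a => ?_⟩
  have hm := hd'.subordinateOrthonormalBasis_subordinate hn a hf'
  obtain ⟨m1, m2⟩ := hm
  exact ⟨_, _, mem_eigenspace_iff.mp m1, mem_eigenspace_iff.mp m2⟩

theorem unitary_diag (g : Matrix (Fin n) (Fin n) ℂ) (hg : g ∈ Matrix.unitaryGroup (Fin n) ℂ) :
    ∃ U ∈ Matrix.unitaryGroup (Fin n) ℂ, ∃ d : Fin n → ℂ, g = U * Matrix.diagonal d * star U := by
  classical
  have g1 : g * star g = 1 := Matrix.mem_unitaryGroup_iff.mp hg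
  have g2 : star g * g = 1 := Matrix.mem_unitaryGroup_iff'.mp hg
  set A1 : Matrix (Fin n) (Fin n) ℂ := g + star g with hA1
  set A2 : Matrix (Fin n) (Fin n) ℂ := Complex.I • (g - star g) with hA2
  have h1 : A1.IsHermitian := by
    rw [Matrix.IsHermitian, hA1, ← Matrix.star_eq_conjTranspose, star_add, star_star, add_comm]
  have h2 : A2.IsHermitian := by
    rw [Matrix.IsHermitian, hA2, ← Matrix.star_eq_conjTranspose, star_smul, star_sub, star_star]
    rw [Complex.star_def, Complex.conj_I, neg_smul, ← smul_neg, neg_sub]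
  have hcomm : A1 * A2 = A2 * A1 := by
    rw [hA1, hA2]
    simp only [mul_smul_comm, smul_mul_assoc]
    congr 1
    rw [add_mul, mul_sub, mul_sub, sub_mul, mul_add, mul_add, g1, g2]
    abel
  have s1 := Matrix.isSymmetric_toEuclideanLin_iff.mpr h1
  have s2 := Matrix.isSymmetric_toEuclideanLin_iff.mpr h2
  have hc : Commute (Matrix.toEuclideanLin A1) (Matrix.toEuclideanLin A2) := by
    apply LinearMap.ext
    intro v
    show (Matrix.toEuclideanLin A1) ((Matrix.toEuclideanLin A2) v) = (Matrix.toEuclideanLin A2) ((Matrix.toEuclideanLin A1) v)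
    rw [Matrix.toLpLin_apply, Matrix.toLpLin_apply, Matrix.toLpLin_apply, Matrix.toLpLin_apply]
    congr 1
    show A1 *ᵥ (A2 *ᵥ _) = A2 *ᵥ (A1 *ᵥ _)
    rw [Matrix.mulVec_mulVec, Matrix.mulVec_mulVec, hcomm]
  obtain ⟨b, hb⟩ := joint_basis (n := n) (finrank_euclideanSpace_fin) _ _ s1 s2 hc
  have key : ∀ a : Fin n, ∃ c : ℂ, g *ᵥ ((b a).ofLp) = c • (b a).ofLp := by
    intro a
    obtain ⟨c1, c2, m1, m2⟩ := hb a
    have e1 : A1 *ᵥ ((b a).ofLp) = c1 • (b a).ofLp := congrArg WithLp.ofLp m1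
    have e2 : A2 *ᵥ ((b a).ofLp) = c2 • (b a).ofLp := congrArg WithLp.ofLp m2
    refine ⟨(1/2 : ℂ) * (c1 - Complex.I * c2), ?_⟩
    have hgg : g = (1/2 : ℂ) • (A1 - Complex.I • A2) := by
      rw [hA1, hA2, smul_smul, Complex.I_mul_I]
      ext x y
      simp only [Matrix.smul_apply, Matrix.sub_apply, Matrix.add_apply, smul_eq_mul]
      ring
    conv_lhs => rw [hgg]
    rw [Matrix.smul_mulVec, Matrix.sub_mulVec, Matrix.smul_mulVec, e1, e2, smul_smul, ← sub_smul, smul_smul]
  choose c hcc using key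
  set U : Matrix (Fin n) (Fin n) ℂ := (EuclideanSpace.basisFun (Fin n) ℂ).toBasis.toMatrix b.toBasis with hU
  have hUU : U ∈ Matrix.unitaryGroup (Fin n) ℂ :=
    (EuclideanSpace.basisFun (Fin n) ℂ).toMatrix_orthonormalBasis_mem_unitary b
  have hUe : ∀ i j, U i j = (b j).ofLp i := fun i j => rfl
  refine ⟨U, hUU, c, ?_⟩
  have hgU : g * U = U * Matrix.diagonal c := by
    ext i j
    rw [Matrix.mul_diagonal, Matrix.mul_apply]
    have := congrFun (hcc j) i
    simp only [Matrix.mulVec, dotProduct, Pi.smul_apply, smul_eq_mul] at this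
    simp only [hUe]
    rw [this, mul_comm]
  have hU1 : U * star U = 1 := Matrix.mem_unitaryGroup_iff.mp hUU
  rw [← hgU, mul_assoc, hU1, mul_one]

theorem diag_norm (g U : Matrix (Fin n) (Fin n) ℂ) (hg : g ∈ Matrix.unitaryGroup (Fin n) ℂ)
    (hU : U ∈ Matrix.unitaryGroup (Fin n) ℂ) (d : Fin n → ℂ) (h : g = U * Matrix.diagonal d * star U) (i : Fin n) :
    ‖d i‖ = 1 := by
  have U1 : star U * U = 1 := Matrix.mem_unitaryGroup_iff'.mp hU
  have U2 : U * star U = 1 := Matrix.mem_unitaryGroup_iff.mp hU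
  have g1 : g * star g = 1 := Matrix.mem_unitaryGroup_iff.mp hg
  have hD : Matrix.diagonal d = star U * g * U := by
    rw [h]
    calc Matrix.diagonal d = (star U * U) * Matrix.diagonal d * (star U * U) := by rw [U1, one_mul, mul_one]
      _ = _ := by simp only [mul_assoc]
  have hDD : Matrix.diagonal d * star (Matrix.diagonal d) = 1 := by
    rw [hD, star_mul, star_mul, star_star]
    calc star U * g * U * (star U * (star g * U)) = star U * (g * (U * star U) * star g) * U := by simp only [mul_assoc]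
      _ = 1 := by rw [U2, mul_one, g1, mul_one, U1]
  have := congrFun (congrFun hDD i) i
  rw [Matrix.star_eq_conjTranspose, Matrix.diagonal_conjTranspose, Matrix.diagonal_mul_diagonal, Matrix.diagonal_apply_eq, Matrix.one_apply_eq] at this
  have h2 : d i * (starRingEnd ℂ) (d i) = 1 := this
  rw [Complex.mul_conj, Complex.normSq_eq_norm_sq] at h2
  have h3 : ‖d i‖^2 = 1 := by exact_mod_cast h2
  nlinarith [norm_nonneg (d i), sq_nonneg (‖d i‖ - 1)]

end Pool.TH236.SU
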