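import Mathlib
import Pool.Agent.TH236.SUIneq

set_option autoImplicit false

namespace Pool.TH236.SU

theorem ineq_real (x : ℝ) (h1 : -2 ≤ x) (h2 : x ≤ 2) :
    (x^2+x-1)^2*(x^3-x^2-2*x+1)^4*(x+1)^2*|x-1| < (-x^5+x^4+4*x^3-2*x^2-3*x+2)^4 := by
  rcases le_total x 1 with h | h
  · rw [abs_of_nonpos (by linarith)]
    have key : 0 < (-x^5+x^4+4*x^3-2*x^2-3*x+2)^4 + (x^2+x-1)^2*(x^3-x^2-2*x+1)^4*(x+1)^2*(x-1) := by
      rcases le_total x (-13/8) with a1 | a1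
      · exact piece1 x (by linarith) (by linarith)
      rcases le_total x (-5/4) with a2 | a2
      · exact piece2 x (by linarith) (by linarith)
      rcases le_total x (-1/2) with a3 | a3
      · exact piece3 x (by linarith) (by linarith)
      rcases le_total x (1/4) with a4 | a4
      · exact piece4 x (by linarith) (by linarith)
      rcases le_total x (5/8) with a5 | a5
      · exact piece5 x (by linarith) (by linarith)
      rcases le_total x (13/16) with a6 | a6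
      · exact piece6 x (by linarith) (by linarith)
      · exact piece7 x (by linarith) (by linarith)
    linarith
  · rw [abs_of_nonneg (by linarith)]
    have key := piece0 x h h2
    linarith

/-- The polynomial `1 + y^2 + y^4 - y^5`. -/
noncomputable def fP (y : ℂ) : ℂ := 1 + y^2 + y^4 - y^5

theorem circle_ineq (y : ℂ) (hy : ‖y‖ = 1) :
    ‖1+y+y^2+y^3+y^4‖^2 * ‖1-y+y^2-y^3+y^4-y^5+y^6‖^4 * ‖1+y+y^2‖^2 * ‖1-y+y^2‖ < ‖fP y‖^8 := by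
  have hy0 : y ≠ 0 := by
    intro h; rw [h] at hy; simp at hy
  set x : ℝ := 2 * y.re with hx
  have hxc : (x : ℂ) = y + y⁻¹ := by
    rw [Complex.inv_eq_conj hy, Complex.add_conj]
  have hre : |y.re| ≤ 1 := by
    have := Complex.abs_re_le_norm y
    rwa [hy] at this
  have hx1 : -2 ≤ x := by have := (abs_le.mp hre).1; linarith
  have hx2 : x ≤ 2 := by have := (abs_le.mp hre).2; linarith
  have e5 : ‖1+y+y^2+y^3+y^4‖ = |x^2+x-1| := by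
    have : 1+y+y^2+y^3+y^4 = y^2 * ((x^2+x-1 : ℝ) : ℂ) := by
      push_cast; rw [hxc]; field_simp; ring
    rw [this, norm_mul, norm_pow, hy, Complex.norm_real, Real.norm_eq_abs]; simp
  have e14 : ‖1-y+y^2-y^3+y^4-y^5+y^6‖ = |x^3-x^2-2*x+1| := by
    have : 1-y+y^2-y^3+y^4-y^5+y^6 = y^3 * ((x^3-x^2-2*x+1 : ℝ) : ℂ) := by
      push_cast; rw [hxc]; field_simp; ring
    rw [this, norm_mul, norm_pow, hy, Complex.norm_real, Real.norm_eq_abs]; simp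
  have e3 : ‖1+y+y^2‖ = |x+1| := by
    have : 1+y+y^2 = y * ((x+1 : ℝ) : ℂ) := by
      push_cast; rw [hxc]; field_simp; ring
    rw [this, norm_mul, hy, Complex.norm_real, Real.norm_eq_abs]; simp
  have e6 : ‖1-y+y^2‖ = |x-1| := by
    have : 1-y+y^2 = y * ((x-1 : ℝ) : ℂ) := by
      push_cast; rw [hxc]; field_simp; ring
    rw [this, norm_mul, hy, Complex.norm_real, Real.norm_eq_abs]; simp
  have ef : ‖fP y‖^2 = -x^5+x^4+4*x^3-2*x^2-3*x+2 := by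
    have h1 : ((‖fP y‖^2 : ℝ) : ℂ) = fP y * (starRingEnd ℂ) (fP y) := by
      rw [Complex.mul_conj, Complex.normSq_eq_norm_sq]
    have h2 : (starRingEnd ℂ) (fP y) = 1 + y⁻¹^2 + y⁻¹^4 - y⁻¹^5 := by
      rw [fP]; simp only [map_sub, map_add, map_one, map_pow]
      rw [← Complex.inv_eq_conj hy]
    have h3 : ((‖fP y‖^2 : ℝ) : ℂ) = ((-x^5+x^4+4*x^3-2*x^2-3*x+2 : ℝ) : ℂ) := by
      rw [h1, h2]; push_cast; rw [hxc, fP]; field_simp; ring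
    exact_mod_cast h3
  have := ineq_real x hx1 hx2
  calc ‖1+y+y^2+y^3+y^4‖^2 * ‖1-y+y^2-y^3+y^4-y^5+y^6‖^4 * ‖1+y+y^2‖^2 * ‖1-y+y^2‖
      = (x^2+x-1)^2*(x^3-x^2-2*x+1)^4*(x+1)^2*|x-1| := by
        rw [e5, e14, e3, e6, sq_abs, sq_abs]
        congr 3
        rw [show (4:ℕ) = 2*2 from rfl, pow_mul, pow_mul, sq_abs]
    _ < (-x^5+x^4+4*x^3-2*x^2-3*x+2)^4 := this
    _ = ‖fP y‖^8 := by rw [← ef]; ring

/-- Division-free form. -/
theorem circle_ineq' (y : ℂ) (hy : ‖y‖ = 1) (h1 : 1 - y ≠ 0) (h2 : 1 + y ≠ 0) :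
    ‖1-y^5‖^2 * ‖1+y^7‖^4 * ‖1-y^3‖^2 * ‖1+y^3‖ < ‖fP y‖^8 * ‖1-y‖^4 * ‖1+y‖^5 := by
  have key := circle_ineq y hy
  have a5 : ‖1-y^5‖ = ‖1-y‖ * ‖1+y+y^2+y^3+y^4‖ := by rw [← norm_mul]; congr 1; ring
  have a3 : ‖1-y^3‖ = ‖1-y‖ * ‖1+y+y^2‖ := by rw [← norm_mul]; congr 1; ring
  have b7 : ‖1+y^7‖ = ‖1+y‖ * ‖1-y+y^2-y^3+y^4-y^5+y^6‖ := by rw [← norm_mul]; congr 1; ring
  have b3 : ‖1+y^3‖ = ‖1+y‖ * ‖1-y+y^2‖ := by rw [← norm_mul]; congr 1; ring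
  have p1 : 0 < ‖1-y‖ := norm_pos_iff.mpr h1
  have p2 : 0 < ‖1+y‖ := norm_pos_iff.mpr h2
  rw [a5, a3, b7, b3]
  have := mul_lt_mul_of_pos_right key (show 0 < ‖1-y‖^4 * ‖1+y‖^5 by positivity)
  calc _ = ‖1+y+y^2+y^3+y^4‖^2 * ‖1-y+y^2-y^3+y^4-y^5+y^6‖^4 * ‖1+y+y^2‖^2 * ‖1-y+y^2‖ * (‖1-y‖^4 * ‖1+y‖^5) := by ring
    _ < _ := this
    _ = _ := by ring

end Pool.TH236.SU
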