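import Mathlib
import Pool.Agent.TH236.SUCircle

set_option autoImplicit false

namespace Pool.TH236.SU

open ZMod

variable {n : ℕ} [NeZero n]

theorem psi_norm (x : ZMod n) : ‖(stdAddChar x : ℂ)‖ = 1 := AddChar.norm_apply _ x

theorem psi_mul (j : ℕ) (x : ZMod n) : (stdAddChar ((j : ZMod n) * x) : ℂ) = (stdAddChar x) ^ j := by
  rw [← nsmul_eq_mul, AddChar.map_nsmul_eq_pow]

theorem psi_ne_one {x : ZMod n} (hx : x ≠ 0) : (stdAddChar x : ℂ) ≠ 1 := by
  intro h
  apply hx
  apply injective_stdAddChar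
  rw [h, AddChar.map_zero_eq_one]

/-- product over the units -/
noncomputable def NP (g : ℂ → ℝ) (k : ZMod n) : ℝ := ∏ u : (ZMod n)ˣ, g (stdAddChar ((u : ZMod n) * k))

theorem NP_unit (g : ℂ → ℝ) (v : (ZMod n)ˣ) (k : ZMod n) : NP g ((v : ZMod n) * k) = NP g k := by
  unfold NP
  apply Fintype.prod_equiv (Equiv.mulRight v)
  intro u
  simp only [Equiv.coe_mulRight, Units.val_mul]
  rw [mul_assoc]

theorem NP_pow (g : ℂ → ℝ) (j : ℕ) (hj : Nat.Coprime j n) (k : ZMod n) :
    NP (fun y => g (y ^ j)) k = NP g k := by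
  rw [← NP_unit g (ZMod.unitOfCoprime j hj) k]
  unfold NP
  apply Finset.prod_congr rfl
  intro u _
  show g ((stdAddChar ((u : ZMod n) * k) : ℂ) ^ j) = _
  rw [← psi_mul, ZMod.coe_unitOfCoprime]
  congr 2
  ring

theorem NP_mul (g h : ℂ → ℝ) (k : ZMod n) : NP (fun y => g y * h y) k = NP g k * NP h k := by
  unfold NP; exact Finset.prod_mul_distrib

theorem NP_powr (g : ℂ → ℝ) (e : ℕ) (k : ZMod n) : NP (fun y => g y ^ e) k = NP g k ^ e := by
  unfold NP; exact Finset.prod_pow _ _ _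

theorem unit_mul_ne {k : ZMod n} (hk : k ≠ 0) (u : (ZMod n)ˣ) : (u : ZMod n) * k ≠ 0 := by
  intro h; apply hk
  have := congrArg (fun t => (↑u⁻¹ : ZMod n) * t) h
  simpa [← mul_assoc] using this

theorem NP_one_sub_pos {k : ZMod n} (hk : k ≠ 0) : 0 < NP (fun y => ‖1 - y‖) k := by
  unfold NP
  apply Finset.prod_pos
  intro u _
  rw [norm_pos_iff, sub_ne_zero]
  exact (psi_ne_one (unit_mul_ne hk u)).symm

theorem NP_one_sub_pow {k : ZMod n} (j : ℕ) (hj : Nat.Coprime j n) :
    NP (fun y => ‖1 - y ^ j‖) k = NP (fun y => ‖1 - y‖) k :=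
  NP_pow (fun y => ‖1 - y‖) j hj k

theorem NP_one_add {k : ZMod n} (hk : k ≠ 0) (h2 : Nat.Coprime 2 n) :
    NP (fun y => ‖1 + y‖) k = 1 := by
  have h := NP_one_sub_pow (k := k) 2 h2
  have e : (fun y : ℂ => ‖1 - y ^ 2‖) = fun y => ‖1 - y‖ * ‖1 + y‖ := by
    funext y; rw [← norm_mul]; congr 1; ring
  rw [e, NP_mul] at h
  have := NP_one_sub_pos hk
  field_simp at h
  exact h

theorem NP_one_add_pow {k : ZMod n} (hk : k ≠ 0) (h2 : Nat.Coprime 2 n) (j : ℕ) (hj : Nat.Coprime j n) :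
    NP (fun y => ‖1 + y ^ j‖) k = 1 := by
  rw [NP_pow (fun y => ‖1 + y‖) j hj k, NP_one_add hk h2]

theorem NP_one_add_seven {k : ZMod n} (h2 : Nat.Coprime 2 n) :
    1 ≤ NP (fun y => ‖1 + y ^ 7‖) k := by
  have e : NP (fun y => ‖1 + y ^ 7‖) k = NP (fun y => ‖1 + y‖) (((7 : ℕ) : ZMod n) * k) := by
    unfold NP
    apply Finset.prod_congr rfl
    intro u _
    show ‖1 + (stdAddChar ((u : ZMod n) * k) : ℂ) ^ 7‖ = _
    rw [← psi_mul]
    congr 3; ring
  rw [e]
  by_cases h7 : ((7 : ℕ) : ZMod n) * k = 0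
  · rw [h7]
    unfold NP
    simp only [mul_zero, AddChar.map_zero_eq_one]
    rw [Finset.prod_const]
    apply one_le_pow₀
    norm_num
  · rw [NP_one_add h7 h2]

theorem NP_f_gt {k : ZMod n} (hn : Nat.Coprime n 30) (hk : k ≠ 0) : 1 < NP (fun y => ‖fP y‖) k := by
  have h2 : Nat.Coprime 2 n := (Nat.Coprime.coprime_dvd_right (by norm_num : 2 ∣ 30) hn).symm
  have h3 : Nat.Coprime 3 n := (Nat.Coprime.coprime_dvd_right (by norm_num : 3 ∣ 30) hn).symm
  have h5 : Nat.Coprime 5 n := (Nat.Coprime.coprime_dvd_right (by norm_num : 5 ∣ 30) hn).symm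
  have key : NP (fun y => ‖1-y^5‖^2 * ‖1+y^7‖^4 * ‖1-y^3‖^2 * ‖1+y^3‖) k <
      NP (fun y => ‖fP y‖^8 * ‖1-y‖^4 * ‖1+y‖^5) k := by
    unfold NP
    apply Finset.prod_lt_prod_of_nonempty
    · intro u _
      have hu := unit_mul_ne hk u
      have hy := psi_ne_one hu
      have hy5 : (1 - (stdAddChar ((u : ZMod n) * k) : ℂ) ^ 5) ≠ 0 := by
        rw [← psi_mul, sub_ne_zero]
        apply Ne.symm; apply psi_ne_one
        have := unit_mul_ne hu (ZMod.unitOfCoprime 5 h5)
        rwa [ZMod.coe_unitOfCoprime] at this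
      have hy3 : (1 - (stdAddChar ((u : ZMod n) * k) : ℂ) ^ 3) ≠ 0 := by
        rw [← psi_mul, sub_ne_zero]
        apply Ne.symm; apply psi_ne_one
        have := unit_mul_ne hu (ZMod.unitOfCoprime 3 h3)
        rwa [ZMod.coe_unitOfCoprime] at this
      have hy7 : (1 + (stdAddChar ((u : ZMod n) * k) : ℂ) ^ 7) ≠ 0 := by
        rw [← psi_mul]
        intro h
        have h' : (stdAddChar (((7:ℕ) : ZMod n) * ((u : ZMod n) * k)) : ℂ) ^ 2 = 1 := by
          have : (stdAddChar (((7:ℕ) : ZMod n) * ((u : ZMod n) * k)) : ℂ) = -1 := by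
            linear_combination h
          rw [this]; ring
        rw [← psi_mul] at h'
        by_cases h7 : ((7:ℕ) : ZMod n) * ((u : ZMod n) * k) = 0
        · rw [h7, AddChar.map_zero_eq_one] at h
          norm_num at h
        · have := unit_mul_ne h7 (ZMod.unitOfCoprime 2 h2)
          rw [ZMod.coe_unitOfCoprime] at this
          exact psi_ne_one this h'
      have hy3' : (1 + (stdAddChar ((u : ZMod n) * k) : ℂ) ^ 3) ≠ 0 := by
        rw [← psi_mul]
        intro h
        have h' : (stdAddChar (((3:ℕ) : ZMod n) * ((u : ZMod n) * k)) : ℂ) ^ 2 = 1 := by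
          have : (stdAddChar (((3:ℕ) : ZMod n) * ((u : ZMod n) * k)) : ℂ) = -1 := by
            linear_combination h
          rw [this]; ring
        rw [← psi_mul] at h'
        have a := unit_mul_ne hu (ZMod.unitOfCoprime 3 h3)
        rw [ZMod.coe_unitOfCoprime] at a
        have := unit_mul_ne a (ZMod.unitOfCoprime 2 h2)
        rw [ZMod.coe_unitOfCoprime] at this
        exact psi_ne_one this h'
      have := norm_pos_iff.mpr hy5
      have := norm_pos_iff.mpr hy3
      have := norm_pos_iff.mpr hy7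
      have := norm_pos_iff.mpr hy3'
      positivity
    · intro u _
      have hu := unit_mul_ne hk u
      have hy := psi_ne_one hu
      apply circle_ineq' _ (psi_norm _)
      · rw [sub_ne_zero]; exact hy.symm
      · intro h
        have h' : (stdAddChar ((u : ZMod n) * k) : ℂ) ^ 2 = 1 := by
          have : (stdAddChar ((u : ZMod n) * k) : ℂ) = -1 := by
            linear_combination h
          rw [this]; ring
        rw [← psi_mul] at h'
        have := unit_mul_ne hu (ZMod.unitOfCoprime 2 h2)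
        rw [ZMod.coe_unitOfCoprime] at this
        exact psi_ne_one this h'
    · exact Finset.univ_nonempty
  simp only [NP_mul, NP_powr] at key
  rw [NP_one_sub_pow 5 h5, NP_one_sub_pow 3 h3, NP_one_add_pow hk h2 3 h3, NP_one_add hk h2] at key
  have hα := NP_one_sub_pos hk
  have h7 := NP_one_add_seven (k := k) h2
  set α := NP (fun y => ‖1 - y‖) k
  set β := NP (fun y => ‖1 + y ^ 7‖) k
  set F := NP (fun y => ‖fP y‖) k
  have hF : 0 ≤ F := by
    apply Finset.prod_nonneg; intro u _; exact norm_nonneg _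
  by_contra hcon
  push Not at hcon
  have h8 : F^8 ≤ 1 := pow_le_one₀ hF hcon
  have h4 : 1 ≤ β^4 := one_le_pow₀ h7
  have : α^4 ≤ α^2 * β^4 * α^2 * 1 := by nlinarith [pow_pos hα 4]
  have : F^8 * α^4 * 1^5 ≤ α^4 := by nlinarith [pow_pos hα 4]
  linarith

/-- Galois conjugation of a polynomial relation. -/
theorem galois (Q : Polynomial ℤ) (k : ZMod n) (u : (ZMod n)ˣ)
    (h : Polynomial.aeval (stdAddChar k : ℂ) Q = 0) :
    Polynomial.aeval (stdAddChar ((u : ZMod n) * k) : ℂ) Q = 0 := by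
  set ζ : ℂ := stdAddChar (1 : ZMod n) with hζ
  have hprim : IsPrimitiveRoot ζ n := by
    have h1 : ζ = Complex.exp (2 * Real.pi * Complex.I / n) := by
      have := stdAddChar_coe (N := n) 1
      rw [hζ]
      push_cast at this
      rw [this]; congr 1; ring
    rw [h1]
    exact Complex.isPrimitiveRoot_exp n (NeZero.ne n)
  have hk : (stdAddChar k : ℂ) = ζ ^ k.val := by
    rw [hζ, ← psi_mul, mul_one, ZMod.natCast_zmod_val]
  have huk : (stdAddChar ((u : ZMod n) * k) : ℂ) = (ζ ^ (u : ZMod n).val) ^ k.val := by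
    rw [← pow_mul, hζ, ← psi_mul, mul_one]; push_cast; rw [ZMod.natCast_zmod_val, ZMod.natCast_zmod_val]
  have hpos : 0 < n := Nat.pos_of_ne_zero (NeZero.ne n)
  have hmin : minpoly ℤ ζ = minpoly ℤ (ζ ^ (u : ZMod n).val) :=
    hprim.minpoly_eq_pow_coprime (ZMod.val_coe_unit_coprime u)
  have h1 : Polynomial.aeval ζ (Q.comp (Polynomial.X ^ k.val)) = 0 := by
    rw [Polynomial.aeval_comp]; simpa [hk] using h
  have h2 : minpoly ℤ ζ ∣ Q.comp (Polynomial.X ^ k.val) :=
    minpoly.isIntegrallyClosed_dvd (hprim.isIntegral hpos) h1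
  rw [hmin] at h2
  obtain ⟨R, hR⟩ := h2
  have h3 : Polynomial.aeval (ζ ^ (u : ZMod n).val) (Q.comp (Polynomial.X ^ k.val)) = 0 := by
    rw [hR, map_mul, minpoly.aeval, zero_mul]
  rw [Polynomial.aeval_comp] at h3
  rw [huk]
  simpa using h3

end Pool.TH236.SU
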