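import Mathlib
import Pool.Agent.TH236.SUNorm

set_option autoImplicit false

namespace Pool.TH236.SU

open ZMod

variable {n : ℕ} [NeZero n]

/-- The basic operator on functions on `ZMod n`; `h` is the inverse of `2`. -/
def Mop {R : Type*} [Ring R] (h : ZMod n) (φ : ZMod n → R) (x : ZMod n) : R :=
  φ (x-1) - φ (x-6) - φ (x-7) + φ (x-8) - φ (h*x) + φ (h*x-4)

theorem dft_shift (φ : ZMod n → ℂ) (c : ℕ) (k : ZMod n) :
    dft (fun x : ZMod n => φ (x - (c : ZMod n))) k = (stdAddChar (-k)) ^ c * dft φ k := by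
  rw [dft_apply, dft_apply, Finset.mul_sum]
  apply Fintype.sum_equiv (Equiv.subRight (c : ZMod n))
  intro x
  simp only [Equiv.subRight_apply, smul_eq_mul]
  rw [← mul_assoc, ← psi_mul, ← AddChar.map_add_eq_mul]
  congr 2; ring

/-- The affine permutation `x ↦ h x - c`. -/
def eHalf (h : ZMod n) (hh : 2 * h = 1) (c : ZMod n) : ZMod n ≃ ZMod n where
  toFun := fun x => h * x - c
  invFun := fun z => 2 * (z + c)
  left_inv := fun x => by
    show 2 * (h * x - c + c) = x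
    linear_combination x * hh
  right_inv := fun z => by
    show h * (2 * (z + c)) - c = z
    linear_combination (z + c) * hh

theorem dft_half (h : ZMod n) (hh : 2 * h = 1) (φ : ZMod n → ℂ) (c : ℕ) (k : ZMod n) :
    dft (fun x : ZMod n => φ (h * x - (c : ZMod n))) k = (stdAddChar (-k)) ^ (2 * c) * dft φ (2 * k) := by
  rw [dft_apply, dft_apply, Finset.mul_sum]
  apply Fintype.sum_equiv (eHalf h hh (c : ZMod n))
  intro x
  have e1 : eHalf h hh (c : ZMod n) x = h * x - (c : ZMod n) := rfl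
  rw [e1, smul_eq_mul, smul_eq_mul, ← mul_assoc, ← psi_mul, ← AddChar.map_add_eq_mul]
  have e2 : -(x * k) = (((2 * c : ℕ) : ZMod n) * -k + -((h * x - (c : ZMod n)) * (2 * k))) := by
    push_cast
    linear_combination (x * k) * hh
  rw [← e2]

theorem dft_rel (h : ZMod n) (hh : 2 * h = 1) (φ : ZMod n → ℂ) (hφ : ∀ x, Mop h φ x = 0) (k : ZMod n) :
    dft φ (2 * k) * (1 - (stdAddChar (-k) : ℂ) ^ 8) =
      dft φ k * ((stdAddChar (-k) : ℂ) - (stdAddChar (-k)) ^ 6 - (stdAddChar (-k)) ^ 7 + (stdAddChar (-k)) ^ 8) := by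
  have e : (fun x : ZMod n => φ (x - ((1:ℕ) : ZMod n))) - (fun x : ZMod n => φ (x - ((6:ℕ) : ZMod n))) - (fun x : ZMod n => φ (x - ((7:ℕ) : ZMod n))) + (fun x : ZMod n => φ (x - ((8:ℕ) : ZMod n)))
      - (fun x : ZMod n => φ (h * x - ((0:ℕ) : ZMod n))) + (fun x : ZMod n => φ (h * x - ((4:ℕ) : ZMod n))) = (0 : ZMod n → ℂ) := by
    funext x
    have := hφ x
    simp only [Pi.add_apply, Pi.sub_apply, Pi.zero_apply]
    push_cast
    rw [← this, Mop, sub_zero]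
  have e2 := congrArg (fun F => dft F k) e
  simp only [map_add, map_sub, Pi.add_apply, Pi.sub_apply, dft_shift, dft_half h hh, map_zero, Pi.zero_apply] at e2
  linear_combination -e2

theorem kernel (hn : Nat.Coprime n 30) (h : ZMod n) (hh : 2 * h = 1) (φ : ZMod n → ℂ)
    (hφ : ∀ x, Mop h φ x = 0) (hs : ∑ x, φ x = 0) : φ = 0 := by
  have h2 : Nat.Coprime 2 n := (Nat.Coprime.coprime_dvd_right (by norm_num : 2 ∣ 30) hn).symm
  have h8 : Nat.Coprime 8 n := by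
    have := Nat.Coprime.pow_left 3 h2
    simpa using this
  have hinj : dft φ = 0 := by
    funext k
    show dft φ k = 0
    by_cases hk : k = 0
    · rw [hk, dft_apply_zero]; exact hs
    by_contra hne
    set u2 := ZMod.unitOfCoprime 2 h2 with hu2
    have hu2c : (u2 : ZMod n) = 2 := by rw [hu2, ZMod.coe_unitOfCoprime]; norm_num
    set l := Fintype.card (ZMod n)ˣ with hl
    have hlpos : 0 < l := Fintype.card_pos
    have hpow : (2 : ZMod n) ^ l = 1 := by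
      rw [← hu2c, ← Units.val_pow_eq_pow_val, hl, pow_card_eq_one, Units.val_one]
    set Y : ℂ := stdAddChar (-k) with hY
    have hstep : ∀ j : ℕ, (stdAddChar (-(2 ^ j * k)) : ℂ) = Y ^ (2 ^ j) := by
      intro j
      rw [hY, ← psi_mul]; congr 1; push_cast; ring
    have hind : ∀ j : ℕ, dft φ (2 ^ j * k) * ∏ i ∈ Finset.range j, (1 - (Y ^ (2 ^ i)) ^ 8) =
        dft φ k * ∏ i ∈ Finset.range j, (Y ^ (2 ^ i) - (Y ^ (2 ^ i)) ^ 6 - (Y ^ (2 ^ i)) ^ 7 + (Y ^ (2 ^ i)) ^ 8) := by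
      intro j
      induction j with
      | zero => simp
      | succ j ih =>
        rw [Finset.prod_range_succ, Finset.prod_range_succ]
        have hr := dft_rel h hh φ hφ (2 ^ j * k)
        rw [hstep j] at hr
        have e : (2 : ZMod n) ^ (j + 1) * k = 2 * (2 ^ j * k) := by ring
        rw [e]
        calc dft φ (2 * (2 ^ j * k)) * ((∏ i ∈ Finset.range j, (1 - (Y ^ (2 ^ i)) ^ 8)) * (1 - (Y ^ (2 ^ j)) ^ 8))
            = (∏ i ∈ Finset.range j, (1 - (Y ^ (2 ^ i)) ^ 8)) * (dft φ (2 * (2 ^ j * k)) * (1 - (Y ^ (2 ^ j)) ^ 8)) := by ring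
          _ = (dft φ (2 ^ j * k) * ∏ i ∈ Finset.range j, (1 - (Y ^ (2 ^ i)) ^ 8)) * (Y ^ (2 ^ j) - (Y ^ (2 ^ j)) ^ 6 - (Y ^ (2 ^ j)) ^ 7 + (Y ^ (2 ^ j)) ^ 8) := by
              rw [hr]; ring
          _ = _ := by rw [ih]; ring
    have hfin := hind l
    rw [hpow, one_mul] at hfin
    have hfin' := mul_left_cancel₀ hne hfin
    set Q : Polynomial ℤ := (∏ i ∈ Finset.range l, (1 - (Polynomial.X ^ (2 ^ i)) ^ 8)) -
      ∏ i ∈ Finset.range l, (Polynomial.X ^ (2 ^ i) - (Polynomial.X ^ (2 ^ i)) ^ 6 - (Polynomial.X ^ (2 ^ i)) ^ 7 + (Polynomial.X ^ (2 ^ i)) ^ 8) with hQ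
    have hQ0 : Polynomial.aeval (stdAddChar (-k) : ℂ) Q = 0 := by
      rw [hQ]
      simp only [map_sub, map_prod, map_add, map_one, map_pow, Polynomial.aeval_X]
      rw [sub_eq_zero]; exact hfin'
    have hQu : ∀ u : (ZMod n)ˣ, ∏ i ∈ Finset.range l, ‖1 - ((stdAddChar ((u : ZMod n) * (-k)) : ℂ) ^ (2 ^ i)) ^ 8‖ =
        ∏ i ∈ Finset.range l, (‖1 - ((stdAddChar ((u : ZMod n) * (-k)) : ℂ) ^ (2 ^ i)) ^ 2‖ * ‖fP ((stdAddChar ((u : ZMod n) * (-k)) : ℂ) ^ (2 ^ i))‖) := by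
      intro u
      have := galois Q (-k) u hQ0
      rw [hQ] at this
      simp only [map_sub, map_prod, map_add, map_one, map_pow, Polynomial.aeval_X] at this
      rw [sub_eq_zero] at this
      have h' := congrArg norm this
      rw [norm_prod, norm_prod] at h'
      rw [h']
      apply Finset.prod_congr rfl
      intro i _
      set Z : ℂ := (stdAddChar ((u : ZMod n) * (-k)) : ℂ) ^ (2 ^ i) with hZ
      have hZ1 : ‖Z‖ = 1 := by rw [hZ, norm_pow, psi_norm, one_pow]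
      have : Z - Z ^ 6 - Z ^ 7 + Z ^ 8 = Z * ((1 - Z ^ 2) * fP Z) := by rw [fP]; ring
      rw [this, norm_mul, norm_mul, hZ1, one_mul]
    have hk' : -k ≠ 0 := neg_ne_zero.mpr hk
    have hprod : ∏ u : (ZMod n)ˣ, ∏ i ∈ Finset.range l, ‖1 - ((stdAddChar ((u : ZMod n) * (-k)) : ℂ) ^ (2 ^ i)) ^ 8‖ =
        ∏ u : (ZMod n)ˣ, ∏ i ∈ Finset.range l, (‖1 - ((stdAddChar ((u : ZMod n) * (-k)) : ℂ) ^ (2 ^ i)) ^ 2‖ * ‖fP ((stdAddChar ((u : ZMod n) * (-k)) : ℂ) ^ (2 ^ i))‖) :=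
      Finset.prod_congr rfl (fun u _ => hQu u)
    rw [Finset.prod_comm, Finset.prod_comm (s := Finset.univ)] at hprod
    have hL : ∀ i, ∏ u : (ZMod n)ˣ, ‖1 - ((stdAddChar ((u : ZMod n) * (-k)) : ℂ) ^ (2 ^ i)) ^ 8‖ = NP (fun y => ‖1 - y‖) (-k) := by
      intro i
      have e1 : ∏ u : (ZMod n)ˣ, ‖1 - ((stdAddChar ((u : ZMod n) * (-k)) : ℂ) ^ (2 ^ i)) ^ 8‖ = NP (fun y => (fun y => ‖1 - y ^ 8‖) (y ^ (2 ^ i))) (-k) := rfl
      rw [e1, NP_pow (fun y => ‖1 - y ^ 8‖) (2 ^ i) (Nat.Coprime.pow_left i h2), NP_one_sub_pow 8 h8]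
    have hR : ∀ i, ∏ u : (ZMod n)ˣ, (‖1 - ((stdAddChar ((u : ZMod n) * (-k)) : ℂ) ^ (2 ^ i)) ^ 2‖ * ‖fP ((stdAddChar ((u : ZMod n) * (-k)) : ℂ) ^ (2 ^ i))‖) =
        NP (fun y => ‖1 - y‖) (-k) * NP (fun y => ‖fP y‖) (-k) := by
      intro i
      have e1 : ∏ u : (ZMod n)ˣ, (‖1 - ((stdAddChar ((u : ZMod n) * (-k)) : ℂ) ^ (2 ^ i)) ^ 2‖ * ‖fP ((stdAddChar ((u : ZMod n) * (-k)) : ℂ) ^ (2 ^ i))‖) = NP (fun y => (fun y => ‖1 - y ^ 2‖ * ‖fP y‖) (y ^ (2 ^ i))) (-k) := rfl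
      rw [e1, NP_pow (fun y => ‖1 - y ^ 2‖ * ‖fP y‖) (2 ^ i) (Nat.Coprime.pow_left i h2), NP_mul, NP_one_sub_pow 2 h2]
    simp only [hL, hR, Finset.prod_const, Finset.card_range] at hprod
    have hα := NP_one_sub_pos hk'
    have hF := NP_f_gt hn hk'
    have hαl : 0 < NP (fun y => ‖1 - y‖) (-k) ^ l := pow_pos hα l
    have : (1:ℝ) < NP (fun y => ‖fP y‖) (-k) ^ l := one_lt_pow₀ hF (by omega)
    rw [mul_pow] at hprod
    nlinarith
  exact (LinearEquiv.map_eq_zero_iff (dft (N := n) (E := ℂ))).mp hinj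

end Pool.TH236.SU
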