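import Mathlib
import Pool.Agent.TH236.SUKernel

set_option autoImplicit false

namespace Pool.TH236.SU

open ZMod

variable {n : ℕ} [NeZero n]

theorem sum_shift (φ : ZMod n → ℝ) (c : ZMod n) : ∑ x, φ (x - c) = ∑ x, φ x :=
  Fintype.sum_equiv (Equiv.subRight c) _ _ (fun _ => rfl)

theorem sum_half (h : ZMod n) (hh : 2 * h = 1) (φ : ZMod n → ℝ) (c : ZMod n) :
    ∑ x, φ (h * x - c) = ∑ x, φ x :=
  Fintype.sum_equiv (eHalf h hh c) _ _ (fun _ => rfl)

theorem sum_Mop (h : ZMod n) (hh : 2 * h = 1) (φ : ZMod n → ℝ) : ∑ x, Mop h φ x = 0 := by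
  unfold Mop
  have h0 := sum_half h hh φ 0
  simp only [sub_zero] at h0
  simp only [Finset.sum_add_distrib, Finset.sum_sub_distrib, sum_shift, sum_half h hh, h0]
  ring

/-- The composite operator. -/
def Lop (h : ZMod n) : (ZMod n → ℝ) →ₗ[ℝ] (ZMod n → ℝ) where
  toFun φ x := Mop h φ (x - 1) - Mop h φ x
  map_add' φ ψ := by
    funext x
    simp only [Mop, Pi.add_apply]; ring
  map_smul' c φ := by
    funext x
    simp only [Mop, Pi.smul_apply, smul_eq_mul, RingHom.id_apply]; ring

/-- The functional `φ ↦ ∑ φ`. -/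
def sumF : (ZMod n → ℝ) →ₗ[ℝ] ℝ where
  toFun φ := ∑ x, φ x
  map_add' φ ψ := by simp [Finset.sum_add_distrib]
  map_smul' c φ := by simp [Finset.mul_sum]

theorem const_of_shift (q : ZMod n → ℝ) (hq : ∀ x, q (x - 1) = q x) (x : ZMod n) : q x = q 0 := by
  have : ∀ j : ℕ, q (j : ZMod n) = q 0 := by
    intro j
    induction j with
    | zero => simp
    | succ j ih =>
      have := hq ((j : ZMod n) + 1)
      rw [add_sub_cancel_right] at this
      push_cast
      rw [← this, ih]
  have := this x.val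
  rwa [ZMod.natCast_zmod_val] at this

theorem exists_phi (hn : Nat.Coprime n 30) (h : ZMod n) (hh : 2 * h = 1) (r : ZMod n → ℝ)
    (hr : ∑ x, r x = 0) : ∃ φ : ZMod n → ℝ, ∀ x, Mop h φ (x - 1) - Mop h φ x = r x := by
  let V0 : Submodule ℝ (ZMod n → ℝ) := LinearMap.ker (sumF (n := n))
  have hmem : ∀ φ : ZMod n → ℝ, φ ∈ V0 ↔ ∑ x, φ x = 0 := fun φ => LinearMap.mem_ker
  have hmaps : ∀ φ ∈ V0, Lop h φ ∈ V0 := by
    intro φ _
    rw [hmem]
    show ∑ x, (Mop h φ (x - 1) - Mop h φ x) = 0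
    rw [Finset.sum_sub_distrib, sum_shift (Mop h φ) 1, sub_self]
  let L0 : V0 →ₗ[ℝ] V0 := (Lop h).restrict hmaps
  have hinj : Function.Injective L0 := by
    rw [injective_iff_map_eq_zero]
    intro φ hφ
    have h1 : ∀ x, Mop h φ.1 (x - 1) = Mop h φ.1 x := by
      intro x
      have := congrFun (congrArg Subtype.val hφ) x
      exact sub_eq_zero.mp this
    have h2 : ∀ x, Mop h φ.1 x = 0 := by
      intro x
      have hc := const_of_shift (Mop h φ.1) h1
      have hs := sum_Mop h hh φ.1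
      rw [Finset.sum_congr rfl (fun x _ => hc x), Finset.sum_const, Finset.card_univ, ZMod.card] at hs
      have : Mop h φ.1 0 = 0 := by
        have hn0 : (n : ℝ) ≠ 0 := Nat.cast_ne_zero.mpr (NeZero.ne n)
        simpa [hn0] using hs
      rw [hc x, this]
    have h3 : (fun x => ((φ.1 x : ℝ) : ℂ)) = (0 : ZMod n → ℂ) := by
      apply kernel hn h hh
      · intro x
        have := h2 x
        unfold Mop at this ⊢
        have := congrArg (fun t : ℝ => (t : ℂ)) this
        push_cast at this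
        exact this
      · have := (hmem φ.1).mp φ.2
        exact_mod_cast this
    apply Subtype.ext
    funext x
    have h4 : ((φ.1 x : ℝ) : ℂ) = 0 := congrFun h3 x
    show φ.1 x = 0
    exact_mod_cast h4
  have hsurj : Function.Surjective L0 := LinearMap.injective_iff_surjective.mp hinj
  obtain ⟨φ, hφ⟩ := hsurj ⟨r, (hmem r).mpr hr⟩
  refine ⟨φ.1, fun x => ?_⟩
  exact congrFun (congrArg Subtype.val hφ) x

end Pool.TH236.SU
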