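import Mathlib
import Pool.Agent.TH236.SUSurj

set_option autoImplicit false

namespace Pool.TH236.SU

open ZMod

section general
variable {X : Type*} [DecidableEq X] [Fintype X]

/-- Monomial unitary matrix with permutation `σ` and phases `s`. -/
noncomputable def mono (σ : Equiv.Perm X) (s : X → ℝ) : Matrix X X ℂ :=
  fun i j => if i = σ j then Complex.exp ((s i : ℂ) * Complex.I) else 0

theorem mono_mul (σ τ : Equiv.Perm X) (s t : X → ℝ) :
    mono σ s * mono τ t = mono (σ * τ) (fun i => s i + t (σ.symm i)) := by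
  ext i j
  rw [Matrix.mul_apply]
  simp only [mono]
  rw [Finset.sum_eq_single (σ.symm i)]
  · rw [if_pos (by simp)]
    by_cases hij : σ.symm i = τ j
    · rw [if_pos hij, if_pos (by rw [Equiv.Perm.mul_apply, ← hij]; simp), ← Complex.exp_add]
      push_cast; congr 1; ring
    · rw [if_neg hij, if_neg (by
        intro h; apply hij; rw [h, Equiv.Perm.mul_apply]; simp), mul_zero]
  · intro k _ hk
    rw [if_neg (by intro h; apply hk; rw [h]; simp), zero_mul]
  · intro h; exact absurd (Finset.mem_univ _) h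

theorem mono_one_diag (s : X → ℝ) : mono (1 : Equiv.Perm X) s = Matrix.diagonal (fun i => Complex.exp ((s i : ℂ) * Complex.I)) := by
  ext i j
  by_cases h : i = j
  · simp [mono, Matrix.diagonal_apply, h]
  · simp [mono, Matrix.diagonal_apply, h]

theorem mono_one_zero : mono (1 : Equiv.Perm X) (fun _ => (0:ℝ)) = 1 := by
  rw [mono_one_diag]; simp

theorem star_mono (σ : Equiv.Perm X) (s : X → ℝ) :
    star (mono σ s) = mono σ⁻¹ (fun i => - s (σ i)) := by
  ext i j
  rw [Matrix.star_apply]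
  simp only [mono]
  by_cases h : j = σ i
  · rw [if_pos h, if_pos (by rw [h]; simp)]
    rw [Complex.star_def, ← Complex.exp_conj]
    congr 1
    simp [h]
  · rw [if_neg h, if_neg (by intro h'; apply h; rw [h']; simp)]; simp

theorem mono_mul_star (σ : Equiv.Perm X) (s : X → ℝ) : mono σ s * star (mono σ s) = 1 := by
  rw [star_mono, mono_mul, mul_inv_cancel, ← mono_one_zero]
  congr 1; funext i; simp

theorem mono_mem (σ : Equiv.Perm X) (s : X → ℝ) : mono σ s ∈ Matrix.unitaryGroup X ℂ :=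
  Matrix.mem_unitaryGroup_iff.mpr (mono_mul_star σ s)

end general

variable {n : ℕ} [NeZero n]

/-- doubling -/
def sg (h : ZMod n) (hh : 2 * h = 1) : Equiv.Perm (ZMod n) where
  toFun x := 2 * x
  invFun x := h * x
  left_inv x := by show h * (2 * x) = x; linear_combination x * hh
  right_inv x := by show 2 * (h * x) = x; linear_combination x * hh

/-- translation -/
def tr (c : ZMod n) : Equiv.Perm (ZMod n) where
  toFun x := x + c
  invFun x := x - c
  left_inv x := by ring
  right_inv x := by ring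

/-- phases of the first matrix -/
def sf (h : ZMod n) (φ : ZMod n → ℝ) (x : ZMod n) : ℝ := φ (x-1) - φ (h*x) - φ (h*x-1)
/-- phases of the second matrix -/
def tf (φ : ZMod n → ℝ) (x : ZMod n) : ℝ := φ x - φ (x-2)

theorem rel1 (h : ZMod n) (hh : 2 * h = 1) (φ : ZMod n → ℝ) (x : ZMod n) :
    sf h φ x + tf φ (h*x) = 0 + (tf φ (x-1) + sf h φ (x-1-1)) := by
  unfold sf tf
  rw [show x-1-1-1 = x-1-2 by ring, show h*(x-1-1)-1 = h*x-2 by linear_combination -hh,
    show h*(x-1-1) = h*x-1 by linear_combination -hh]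
  ring

theorem rel2 (h : ZMod n) (hh : 2 * h = 1) (φ : ZMod n → ℝ) (x : ZMod n) :
    (sf h φ x + sf h φ (h*x)) + (tf φ (h*(h*x)) + tf φ (h*(h*x)-1)) =
      Mop h φ x + ((tf φ (x-6) + tf φ (x-6-1)) + (sf h φ (x-6-1-1) + sf h φ (h*(x-6-1-1)))) := by
  unfold sf tf Mop
  rw [show x-6-1-1-1 = x-9 by ring, show h*(h*(x-6-1-1))-1 = h*(h*x)-3 by linear_combination (-4*h-2)*hh,
    show h*(h*(x-6-1-1)) = h*(h*x)-2 by linear_combination (-4*h-2)*hh,
    show h*(x-6-1-1)-1 = h*x-5 by linear_combination -4*hh,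
    show h*(x-6-1-1) = h*x-4 by linear_combination -4*hh,
    show h*(h*x)-1-2 = h*(h*x)-3 by ring, show x-6-2 = x-8 by ring, show x-6-1-2 = x-9 by ring,
    show x-6-1 = x-7 by ring]
  ring

theorem word_mono (h : ZMod n) (hh : 2 * h = 1) (φ : ZMod n → ℝ) :
    ∃ A B : Matrix (ZMod n) (ZMod n) ℂ, A ∈ Matrix.unitaryGroup (ZMod n) ℂ ∧ B ∈ Matrix.unitaryGroup (ZMod n) ℂ ∧
      (A * B * star A * star B) * (A ^ 2 * B ^ 2 * star (A ^ 2) * star (B ^ 2)) *
            star (A * B * star A * star B) *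
            star (A ^ 2 * B ^ 2 * star (A ^ 2) * star (B ^ 2)) =
        mono 1 (fun x => Mop h φ (x-1) - Mop h φ x) := by
  set A := mono (sg h hh) (sf h φ) with hA
  set B := mono (tr (n := n) 1) (tf φ) with hB
  set T := mono (tr (n := n) 1) (fun _ => (0:ℝ)) with hT
  set Q := mono (tr (n := n) 6) (Mop h φ) with hQ
  have AU := mono_mem (sg h hh) (sf h φ)
  have BU := mono_mem (tr (n := n) 1) (tf φ)
  rw [← hA] at AU
  rw [← hB] at BU
  have A1 : A * star A = 1 := Matrix.mem_unitaryGroup_iff.mp AU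
  have B1 : B * star B = 1 := Matrix.mem_unitaryGroup_iff.mp BU
  have T1 : T * star T = 1 := mono_mul_star _ _
  have Q1 : Q * star Q = 1 := mono_mul_star _ _
  have r1 : A * B = T * (B * A) := by
    rw [hA, hB, hT, mono_mul, mono_mul, mono_mul]
    congr 1
    · ext x
      show 2 * (x + 1) = 2 * x + 1 + 1
      ring
    · funext x
      exact rel1 h hh φ x
  have r2 : A ^ 2 * B ^ 2 = Q * (B ^ 2 * A ^ 2) := by
    rw [sq, sq, hA, hB, hQ]
    rw [mono_mul, mono_mul, mono_mul, mono_mul, mono_mul]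
    congr 1
    · ext x
      show 2 * (2 * (x + 1 + 1)) = 2 * (2 * x) + 1 + 1 + 6
      ring
    · funext x
      exact rel2 h hh φ x
  have r3 : T * Q = mono 1 (fun x => Mop h φ (x-1) - Mop h φ x) * (Q * T) := by
    rw [hT, hQ, mono_mul, mono_mul, mono_mul]
    congr 1
    · ext x
      show x + 6 + 1 = x + 1 + 6
      ring
    · funext x
      show 0 + Mop h φ (x - 1) = Mop h φ (x-1) - Mop h φ x + (Mop h φ x + 0)
      ring
  have c1 : A * B * star A * star B = T := by
    rw [r1]
    calc T * (B * A) * star A * star B = T * (B * (A * star A) * star B) := by simp only [mul_assoc]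
      _ = T := by rw [A1, mul_one, B1, mul_one]
  have A2 : A ^ 2 * star (A ^ 2) = 1 := by
    have : A ^ 2 ∈ Matrix.unitaryGroup (ZMod n) ℂ := pow_mem AU 2
    exact Matrix.mem_unitaryGroup_iff.mp this
  have B2 : B ^ 2 * star (B ^ 2) = 1 := by
    have : B ^ 2 ∈ Matrix.unitaryGroup (ZMod n) ℂ := pow_mem BU 2
    exact Matrix.mem_unitaryGroup_iff.mp this
  have c2 : A ^ 2 * B ^ 2 * star (A ^ 2) * star (B ^ 2) = Q := by
    rw [r2]
    calc Q * (B ^ 2 * A ^ 2) * star (A ^ 2) * star (B ^ 2) = Q * (B ^ 2 * (A ^ 2 * star (A ^ 2)) * star (B ^ 2)) := by simp only [mul_assoc]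
      _ = Q := by rw [A2, mul_one, B2, mul_one]
  refine ⟨A, B, AU, BU, ?_⟩
  rw [c1, c2, r3]
  calc mono 1 (fun x => Mop h φ (x-1) - Mop h φ x) * (Q * T) * star T * star Q
      = mono 1 (fun x => Mop h φ (x-1) - Mop h φ x) * (Q * (T * star T) * star Q) := by simp only [mul_assoc]
    _ = _ := by rw [T1, mul_one, Q1, mul_one]

end Pool.TH236.SU
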