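import Mathlib
import Pool.Agent.TH236.SUMono
import Pool.Agent.TH236.SUDiag

set_option autoImplicit false

namespace Pool.TH236.SU

open Matrix

section com
variable {X : Type*} [DecidableEq X] [Fintype X]

/-- `[x,y]` for unitary matrices. -/
noncomputable def com (x y : Matrix X X ℂ) : Matrix X X ℂ := x * y * star x * star y

theorem com_smul (x y : Matrix X X ℂ) (c d : ℂ) (hc : c * (starRingEnd ℂ) c = 1) (hd : d * (starRingEnd ℂ) d = 1) :
    com (c • x) (d • y) = com x y := by
  unfold com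
  rw [star_smul, star_smul]
  simp only [smul_mul_assoc, mul_smul_comm, smul_smul, Complex.star_def]
  rw [show (starRingEnd ℂ) d * ((starRingEnd ℂ) c * (d * c)) = (c * (starRingEnd ℂ) c) * (d * (starRingEnd ℂ) d) by ring,
    hc, hd, one_mul, one_smul]

theorem conj_sq (U x : Matrix X X ℂ) (hU : star U * U = 1) : (U * x * star U) ^ 2 = U * x ^ 2 * star U := by
  rw [sq, sq]
  calc U * x * star U * (U * x * star U) = U * x * (star U * U) * x * star U := by simp only [mul_assoc]
    _ = _ := by rw [hU, mul_one]; simp only [mul_assoc]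

theorem com_conj (U x y : Matrix X X ℂ) (hU : star U * U = 1) :
    com (U * x * star U) (U * y * star U) = U * com x y * star U := by
  unfold com
  have e : ∀ z : Matrix X X ℂ, star (U * z * star U) = U * star z * star U := by
    intro z; rw [star_mul, star_mul, star_star, mul_assoc]
  rw [e, e]
  calc U * x * star U * (U * y * star U) * (U * star x * star U) * (U * star y * star U)
      = U * x * (star U * U) * y * (star U * U) * star x * (star U * U) * star y * star U := by simp only [mul_assoc]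
    _ = _ := by rw [hU]; simp only [mul_one, mul_assoc]

variable {Y : Type*} [DecidableEq Y] [Fintype Y]

theorem com_submatrix (e : Y ≃ X) (x y : Matrix X X ℂ) :
    com (x.submatrix e e) (y.submatrix e e) = (com x y).submatrix e e := by
  unfold com
  have hs : ∀ z : Matrix X X ℂ, star (z.submatrix e e) = (star z).submatrix e e := by
    intro z; rfl
  rw [hs, hs, Matrix.submatrix_mul_equiv, Matrix.submatrix_mul_equiv, Matrix.submatrix_mul_equiv]

theorem sq_submatrix (e : Y ≃ X) (x : Matrix X X ℂ) : (x.submatrix e e) ^ 2 = (x ^ 2).submatrix e e := by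
  rw [sq, sq, Matrix.submatrix_mul_equiv]

theorem submatrix_mem (e : Y ≃ X) (x : Matrix X X ℂ) (hx : x ∈ Matrix.unitaryGroup X ℂ) :
    x.submatrix e e ∈ Matrix.unitaryGroup Y ℂ := by
  rw [Matrix.mem_unitaryGroup_iff] at hx ⊢
  have hs : star (x.submatrix e e) = (star x).submatrix e e := rfl
  rw [hs, Matrix.submatrix_mul_equiv, hx, Matrix.submatrix_one_equiv]

end com

/-- scalar correction of the determinant -/
theorem det_fix {n : ℕ} (hn : n ≠ 0) (A : Matrix (Fin n) (Fin n) ℂ) (hA : A ∈ Matrix.unitaryGroup (Fin n) ℂ) :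
    ∃ c : ℂ, c * (starRingEnd ℂ) c = 1 ∧ c • A ∈ Matrix.specialUnitaryGroup (Fin n) ℂ := by
  have hdet : A.det * (starRingEnd ℂ) A.det = 1 := by
    have := Matrix.mem_unitaryGroup_iff.mp hA
    have h2 := congrArg Matrix.det this
    rw [Matrix.det_mul, Matrix.star_eq_conjTranspose, Matrix.det_conjTranspose, Matrix.det_one] at h2
    exact h2
  have hnorm : ‖A.det‖ = 1 := by
    rw [Complex.mul_conj, Complex.normSq_eq_norm_sq] at hdet
    have h3 : ‖A.det‖^2 = 1 := by exact_mod_cast hdet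
    nlinarith [norm_nonneg A.det]
  obtain ⟨c, hc⟩ := IsAlgClosed.exists_pow_nat_eq ((starRingEnd ℂ) A.det) (Nat.pos_of_ne_zero hn)
  have hcn : ‖c‖ = 1 := by
    have : ‖c‖ ^ n = 1 := by rw [← norm_pow, hc, RCLike.norm_conj, hnorm]
    exact (pow_eq_one_iff_of_nonneg (norm_nonneg c) hn).mp this
  have hcc : c * (starRingEnd ℂ) c = 1 := by
    rw [Complex.mul_conj, Complex.normSq_eq_norm_sq, hcn]; norm_num
  refine ⟨c, hcc, ?_⟩
  rw [Matrix.mem_specialUnitaryGroup_iff]
  constructor
  · rw [Matrix.mem_unitaryGroup_iff, star_smul, smul_mul_smul_comm, Matrix.mem_unitaryGroup_iff.mp hA]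
    rw [Complex.star_def, hcc, one_smul]
  · rw [Matrix.det_smul, Fintype.card_fin, hc, mul_comm, hdet]

theorem main_thm (n : ℕ) (hn : Nat.Coprime n 30) (g : Matrix (Fin n) (Fin n) ℂ)
    (hg : g ∈ Matrix.specialUnitaryGroup (Fin n) ℂ) :
    ∃ x y : Matrix (Fin n) (Fin n) ℂ,
          x ∈ Matrix.specialUnitaryGroup (Fin n) ℂ ∧
          y ∈ Matrix.specialUnitaryGroup (Fin n) ℂ ∧
          (x * y * star x * star y) * (x ^ 2 * y ^ 2 * star (x ^ 2) * star (y ^ 2)) *
            star (x * y * star x * star y) *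
            star (x ^ 2 * y ^ 2 * star (x ^ 2) * star (y ^ 2)) = g := by
  have hn0 : n ≠ 0 := by
    rintro rfl
    norm_num at hn
  have : NeZero n := ⟨hn0⟩
  have h2 : Nat.Coprime 2 n := (Nat.Coprime.coprime_dvd_right (by norm_num : 2 ∣ 30) hn).symm
  have hh : (2 : ZMod n) * (2 : ZMod n)⁻¹ = 1 := by
    have := ZMod.coe_mul_inv_eq_one 2 h2
    simpa using this
  set h : ZMod n := (2 : ZMod n)⁻¹ with hhdef
  obtain ⟨hgU, hgd⟩ := Matrix.mem_specialUnitaryGroup_iff.mp hg
  obtain ⟨U, hU, d, hd⟩ := unitary_diag g hgU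
  have hdn := diag_norm g U hgU hU d hd
  have U1 : star U * U = 1 := Matrix.mem_unitaryGroup_iff'.mp hU
  have U2 : U * star U = 1 := Matrix.mem_unitaryGroup_iff.mp hU
  have hprod : ∏ i, d i = 1 := by
    have h3 := congrArg Matrix.det hd
    rw [hgd, Matrix.det_mul, Matrix.det_mul, Matrix.det_diagonal] at h3
    have h4 := congrArg Matrix.det U2
    rw [Matrix.det_mul, Matrix.det_one] at h4
    calc ∏ i, d i = (U.det * (star U).det) * ∏ i, d i := by rw [h4, one_mul]
      _ = U.det * (∏ i, d i) * (star U).det := by ring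
      _ = 1 := h3.symm
  let e : Fin n ≃ ZMod n := (ZMod.finEquiv n).toEquiv
  have hexp : ∀ i, Complex.exp (((d i).arg : ℂ) * Complex.I) = d i := by
    intro i
    have := Complex.norm_mul_exp_arg_mul_I (d i)
    rwa [hdn i, Complex.ofReal_one, one_mul] at this
  have hsum : Complex.exp (((∑ i, (d i).arg : ℝ) : ℂ) * Complex.I) = 1 := by
    push_cast
    rw [Finset.sum_mul, Complex.exp_sum, Finset.prod_congr rfl (fun i _ => hexp i), hprod]
  obtain ⟨m, hm⟩ := Complex.exp_eq_one_iff.mp hsum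
  have hm' : (∑ i, (d i).arg : ℝ) = m * (2 * Real.pi) := by
    have h5 : (((∑ i, (d i).arg : ℝ) : ℂ)) = ((m * (2 * Real.pi) : ℝ) : ℂ) := by
      have hI : Complex.I ≠ 0 := Complex.I_ne_zero
      apply mul_right_cancel₀ hI
      rw [hm]; push_cast; ring
    exact_mod_cast h5
  let r : ZMod n → ℝ := fun x => (d (e.symm x)).arg - (if x = 0 then (m : ℝ) * (2 * Real.pi) else 0)
  have hr : ∑ x, r x = 0 := by
    show ∑ x, ((d (e.symm x)).arg - (if x = 0 then (m : ℝ) * (2 * Real.pi) else 0)) = 0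
    rw [Finset.sum_sub_distrib, Finset.sum_ite_eq' Finset.univ (0 : ZMod n), if_pos (Finset.mem_univ _)]
    rw [Equiv.sum_comp e.symm (fun i => (d i).arg), hm', sub_self]
  have hrexp : ∀ x, Complex.exp (((r x : ℝ) : ℂ) * Complex.I) = d (e.symm x) := by
    intro x
    show Complex.exp ((((d (e.symm x)).arg - (if x = 0 then (m : ℝ) * (2 * Real.pi) else 0) : ℝ) : ℂ) * Complex.I) = _
    refine Eq.trans ?_ (hexp (e.symm x))
    split_ifs with hx
    · rw [Complex.exp_eq_exp_iff_exists_int]
      refine ⟨-m, ?_⟩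
      push_cast; ring
    · simp
  obtain ⟨φ, hφ⟩ := exists_phi hn h hh r hr
  obtain ⟨A, B, hA, hB, hAB⟩ := word_mono h hh φ
  have hword : com (com A B) (com (A ^ 2) (B ^ 2)) = Matrix.diagonal (fun x => d (e.symm x)) := by
    have e1 : com (com A B) (com (A ^ 2) (B ^ 2)) = mono 1 (fun x => Mop h φ (x-1) - Mop h φ x) := hAB
    rw [e1, mono_one_diag]
    congr 1
    funext x
    rw [hφ x, hrexp x]
  set A' := A.submatrix e e with hA'
  set B' := B.submatrix e e with hB'
  have hAu := submatrix_mem e A hA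
  have hBu := submatrix_mem e B hB
  have hword' : com (com A' B') (com (A' ^ 2) (B' ^ 2)) = Matrix.diagonal d := by
    rw [hA', hB', sq_submatrix, sq_submatrix, com_submatrix, com_submatrix, com_submatrix, hword]
    ext i j
    rw [Matrix.submatrix_apply, Matrix.diagonal_apply, Matrix.diagonal_apply]
    simp
  obtain ⟨c1, hc1, hx⟩ := det_fix hn0 A' hAu
  obtain ⟨c2, hc2, hy⟩ := det_fix hn0 B' hBu
  have hUs : ∀ z : Matrix (Fin n) (Fin n) ℂ, z ∈ Matrix.specialUnitaryGroup (Fin n) ℂ →
      U * z * star U ∈ Matrix.specialUnitaryGroup (Fin n) ℂ := by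
    intro z hz
    obtain ⟨z1, z2⟩ := Matrix.mem_specialUnitaryGroup_iff.mp hz
    rw [Matrix.mem_specialUnitaryGroup_iff]
    constructor
    · exact mul_mem (mul_mem hU z1) (Unitary.star_mem hU)
    · have h4 := congrArg Matrix.det U2
      rw [Matrix.det_mul, Matrix.det_one] at h4
      rw [Matrix.det_mul, Matrix.det_mul, z2, mul_one, h4]
  refine ⟨U * (c1 • A') * star U, U * (c2 • B') * star U, hUs _ hx, hUs _ hy, ?_⟩
  show com (com (U * (c1 • A') * star U) (U * (c2 • B') * star U)) (com ((U * (c1 • A') * star U) ^ 2) ((U * (c2 • B') * star U) ^ 2)) = g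
  rw [conj_sq _ _ U1, conj_sq _ _ U1, com_conj _ _ _ U1, com_conj _ _ _ U1, com_conj _ _ _ U1]
  rw [com_smul _ _ _ _ hc1 hc2, smul_pow, smul_pow]
  rw [com_smul _ _ (c1 ^ 2) (c2 ^ 2) (by rw [map_pow, ← mul_pow, hc1, one_pow]) (by rw [map_pow, ← mul_pow, hc2, one_pow])]
  rw [hword', ← hd]

end Pool.TH236.SU
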