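import Mathlib

set_option autoImplicit false

open Metric Set Filter Topology

namespace Pool.Agent.TH236.NB

variable {V : Type*} [NormedAddCommGroup V] [NormedSpace ℂ V]

/-- the terms of the series -/
noncomputable def term (c : ℕ → ℝ) (m : ℕ → ℕ) (α : ℕ → ℂ) (L : ℕ → V →L[ℂ] ℂ) (i : ℕ) (z : V) : ℂ :=
  (c i : ℂ) * (α i + L i z) ^ m i

theorem contDiff_term (c : ℕ → ℝ) (m : ℕ → ℕ) (α : ℕ → ℂ) (L : ℕ → V →L[ℂ] ℂ) (i : ℕ)
    (N : WithTop ℕ∞) : ContDiff ℂ N (term c m α L i) := by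
  unfold term
  fun_prop

theorem iteratedDeriv_pw (c : ℝ) (m : ℕ) (α : ℂ) (k : ℕ) (w : ℂ) :
    iteratedDeriv k (fun w : ℂ => (c : ℂ) * (α + w) ^ m) w
      = (c : ℂ) * ((m.descFactorial k : ℂ) * (α + w) ^ (m - k)) := by
  rw [iteratedDeriv_const_mul_field]
  have := congrFun (iteratedDeriv_comp_const_add k (fun w : ℂ => w ^ m) α) w
  simp only [iteratedDeriv_pow] at this
  rw [this]

theorem iteratedFDeriv_term (c : ℕ → ℝ) (m : ℕ → ℕ) (α : ℕ → ℂ) (L : ℕ → V →L[ℂ] ℂ) (i k : ℕ)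
    (z : V) :
    iteratedFDeriv ℂ k (term c m α L i) z =
      (iteratedFDeriv ℂ k (fun w : ℂ => (c i : ℂ) * (α i + w) ^ m i) (L i z)).compContinuousLinearMap
        fun _ => L i := by
  have e : term c m α L i = (fun w : ℂ => (c i : ℂ) * (α i + w) ^ m i) ∘ (L i) := by
    ext z; rfl
  have hg : ContDiff ℂ ⊤ (fun w : ℂ => (c i : ℂ) * (α i + w) ^ m i) := by fun_prop
  rw [e, ContinuousLinearMap.iteratedFDeriv_comp_right (L i) hg z (i := k) le_top]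

theorem norm_iter_term {c : ℕ → ℝ} (hc : ∀ i, 0 ≤ c i) (m : ℕ → ℕ) (α : ℕ → ℂ)
    {L : ℕ → V →L[ℂ] ℂ} (hL : ∀ i, ‖L i‖ ≤ 1) (i k : ℕ) (z : V) (hz : ‖α i + L i z‖ ≤ 1) :
    ‖iteratedFDeriv ℂ k (term c m α L i) z‖ ≤ c i * (m i : ℝ) ^ k := by
  rw [iteratedFDeriv_term]
  refine (ContinuousMultilinearMap.norm_compContinuousLinearMap_le _ _).trans ?_
  rw [norm_iteratedFDeriv_eq_norm_iteratedDeriv]
  have h1 : ∏ _j : Fin k, ‖L i‖ ≤ 1 := by
    apply Finset.prod_le_one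
    · intros; positivity
    · intros; exact hL i
  have h2 : ‖iteratedDeriv k (fun w : ℂ => (c i : ℂ) * (α i + w) ^ m i) (L i z)‖
      ≤ c i * (m i : ℝ) ^ k := by
    rw [iteratedDeriv_pw, norm_mul, norm_mul, norm_pow]
    rw [Complex.norm_real, Real.norm_of_nonneg (hc i), Complex.norm_natCast]
    have h3 : ((m i).descFactorial k : ℝ) ≤ (m i : ℝ) ^ k := by
      exact_mod_cast Nat.descFactorial_le_pow _ _
    have h4 : ‖α i + L i z‖ ^ (m i - k) ≤ 1 := pow_le_one₀ (norm_nonneg _) hz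
    have h5 := hc i
    calc c i * (((m i).descFactorial k : ℝ) * ‖α i + L i z‖ ^ (m i - k))
        ≤ c i * ((m i : ℝ) ^ k * 1) := by gcongr
      _ = _ := by rw [mul_one]
  calc _ ≤ (c i * (m i : ℝ) ^ k) * 1 := by
        apply mul_le_mul h2 h1 (Finset.prod_nonneg fun _ _ => norm_nonneg _)
        have := hc i
        positivity
    _ = _ := mul_one _

/-- the sum of the series -/
noncomputable def ser (c : ℕ → ℝ) (m : ℕ → ℕ) (α : ℕ → ℂ) (L : ℕ → V →L[ℂ] ℂ) (z : V) : ℂ :=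
  ∑' i, term c m α L i z

/-- the sum of the `k`-th derivatives -/
noncomputable def serD (c : ℕ → ℝ) (m : ℕ → ℕ) (α : ℕ → ℂ) (L : ℕ → V →L[ℂ] ℂ) (k : ℕ) (z : V) :
    V [×k]→L[ℂ] ℂ :=
  ∑' i, iteratedFDeriv ℂ k (term c m α L i) z

theorem continuousOn_serD {c : ℕ → ℝ} (hc : ∀ i, 0 ≤ c i) (m : ℕ → ℕ) {α : ℕ → ℂ}
    {L : ℕ → V →L[ℂ] ℂ} (hL : ∀ i, ‖L i‖ ≤ 1)
    (hs : ∀ k : ℕ, Summable fun i => c i * (m i : ℝ) ^ k)
    (hb : ∀ i, ∀ z : V, ‖z‖ ≤ 1 → ‖α i + L i z‖ ≤ 1) (k : ℕ) :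
    ContinuousOn (serD c m α L k) (closedBall 0 1) := by
  unfold serD
  refine continuousOn_tsum (fun i => ?_) (hs k) (fun i z hz => ?_)
  · exact ((contDiff_term c m α L i ⊤).continuous_iteratedFDeriv le_top).continuousOn
  · exact norm_iter_term hc m α hL i k z (hb i z (by simpa using hz))

theorem summable_iter {c : ℕ → ℝ} (hc : ∀ i, 0 ≤ c i) (m : ℕ → ℕ) {α : ℕ → ℂ}
    {L : ℕ → V →L[ℂ] ℂ} (hL : ∀ i, ‖L i‖ ≤ 1)
    (hs : ∀ k : ℕ, Summable fun i => c i * (m i : ℝ) ^ k)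
    (hb : ∀ i, ∀ z : V, ‖z‖ ≤ 1 → ‖α i + L i z‖ ≤ 1) (k : ℕ) {z : V} (hz : ‖z‖ ≤ 1) :
    Summable fun i => iteratedFDeriv ℂ k (term c m α L i) z :=
  Summable.of_norm_bounded (hs k) fun i => norm_iter_term hc m α hL i k z (hb i z hz)

theorem hasFDerivAt_serD {c : ℕ → ℝ} (hc : ∀ i, 0 ≤ c i) (m : ℕ → ℕ) {α : ℕ → ℂ}
    {L : ℕ → V →L[ℂ] ℂ} (hL : ∀ i, ‖L i‖ ≤ 1)
    (hs : ∀ k : ℕ, Summable fun i => c i * (m i : ℝ) ^ k)
    (hb : ∀ i, ∀ z : V, ‖z‖ ≤ 1 → ‖α i + L i z‖ ≤ 1) (k : ℕ) {z : V} (hz : z ∈ ball (0 : V) 1) :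
    HasFDerivAt (serD c m α L k)
      (∑' i, fderiv ℂ (iteratedFDeriv ℂ k (term c m α L i)) z) z := by
  unfold serD
  refine hasFDerivAt_tsum_of_isPreconnected (hs (k + 1)) isOpen_ball
    (convex_ball _ _).isPreconnected (fun i x _ => ?_) (fun i x hx => ?_)
    (mem_ball_self one_pos) ?_ hz
  · exact (((contDiff_term c m α L i ⊤).differentiable_iteratedFDeriv (m := k)
      (by exact WithTop.coe_lt_top _)) x).hasFDerivAt
  · rw [norm_fderiv_iteratedFDeriv]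
    exact norm_iter_term hc m α hL i (k + 1) x (hb i x (by simpa using (mem_ball.1 hx).le))
  · exact summable_iter hc m hL hs hb k (by simp)

theorem iteratedFDeriv_ser {c : ℕ → ℝ} (hc : ∀ i, 0 ≤ c i) (m : ℕ → ℕ) {α : ℕ → ℂ}
    {L : ℕ → V →L[ℂ] ℂ} (hL : ∀ i, ‖L i‖ ≤ 1)
    (hs : ∀ k : ℕ, Summable fun i => c i * (m i : ℝ) ^ k)
    (hb : ∀ i, ∀ z : V, ‖z‖ ≤ 1 → ‖α i + L i z‖ ≤ 1) (k : ℕ) :
    ∀ z ∈ ball (0 : V) 1, iteratedFDeriv ℂ k (ser c m α L) z = serD c m α L k z := by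
  induction k with
  | zero =>
    intro z hz
    have hz1 : ‖z‖ ≤ 1 := by simpa using (mem_ball.1 hz).le
    rw [iteratedFDeriv_zero_eq_comp]
    simp only [Function.comp_apply, ser, serD, iteratedFDeriv_zero_eq_comp]
    exact ((continuousMultilinearCurryFin0 ℂ V ℂ).symm.toContinuousLinearEquiv).map_tsum
  | succ k ih =>
    intro z hz
    have hz1 : ‖z‖ ≤ 1 := by simpa using (mem_ball.1 hz).le
    rw [iteratedFDeriv_succ_eq_comp_left]
    simp only [Function.comp_apply]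
    have h1 : iteratedFDeriv ℂ k (ser c m α L) =ᶠ[𝓝 z] serD c m α L k := by
      filter_upwards [isOpen_ball.mem_nhds hz] with w hw using ih w hw
    rw [h1.fderiv_eq, (hasFDerivAt_serD hc m hL hs hb k hz).fderiv]
    unfold serD
    have h2 : ∀ i, iteratedFDeriv ℂ (k + 1) (term c m α L i) z =
        (continuousMultilinearCurryLeftEquiv ℂ (fun _ : Fin (k + 1) => V) ℂ).symm
          (fderiv ℂ (iteratedFDeriv ℂ k (term c m α L i)) z) := by
      intro i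
      rw [iteratedFDeriv_succ_eq_comp_left]
      rfl
    simp only [h2]
    exact ((continuousMultilinearCurryLeftEquiv ℂ (fun _ : Fin (k + 1) => V)
      ℂ).symm.toContinuousLinearEquiv).map_tsum

theorem differentiableOn_ser {c : ℕ → ℝ} (hc : ∀ i, 0 ≤ c i) (m : ℕ → ℕ) {α : ℕ → ℂ}
    {L : ℕ → V →L[ℂ] ℂ} (hL : ∀ i, ‖L i‖ ≤ 1)
    (hs : ∀ k : ℕ, Summable fun i => c i * (m i : ℝ) ^ k)
    (hb : ∀ i, ∀ z : V, ‖z‖ ≤ 1 → ‖α i + L i z‖ ≤ 1) :
    DifferentiableOn ℂ (ser c m α L) (ball 0 1) := by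
  intro z hz
  have h1 : DifferentiableAt ℂ (serD c m α L 0) z :=
    (hasFDerivAt_serD hc m hL hs hb 0 hz).differentiableAt
  have h2 : DifferentiableAt ℂ
      (fun w => (continuousMultilinearCurryFin0 ℂ V ℂ) (serD c m α L 0 w)) z :=
    (continuousMultilinearCurryFin0 ℂ V ℂ).toContinuousLinearEquiv.differentiableAt.comp z h1
  refine DifferentiableAt.differentiableWithinAt (h2.congr_of_eventuallyEq ?_)
  filter_upwards [isOpen_ball.mem_nhds hz] with w hw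
  rw [← iteratedFDeriv_ser hc m hL hs hb 0 w hw]
  simp

/-- values of the derivatives of the series on the line -/
theorem serD_one {c : ℕ → ℝ} (hc : ∀ i, 0 ≤ c i) (m : ℕ → ℕ) {α : ℕ → ℂ}
    {L : ℕ → ℂ →L[ℂ] ℂ} (hL : ∀ i, ‖L i‖ ≤ 1)
    (hs : ∀ k : ℕ, Summable fun i => c i * (m i : ℝ) ^ k)
    (hb : ∀ i, ∀ z : ℂ, ‖z‖ ≤ 1 → ‖α i + L i z‖ ≤ 1) (k : ℕ) {z : ℂ} (hz : ‖z‖ ≤ 1) :
    HasSum (fun i => (c i : ℂ) * (((m i).descFactorial k : ℂ) * (α i + L i z) ^ (m i - k)) *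
      (L i 1) ^ k) (serD c m α L k z (fun _ => 1)) := by
  have h1 := (summable_iter hc m hL hs hb k hz).hasSum
  have h2 := ContinuousMultilinearMap.hasSum_eval h1 (fun _ => (1 : ℂ))
  have e : (fun i => (c i : ℂ) * (((m i).descFactorial k : ℂ) * (α i + L i z) ^ (m i - k)) *
      (L i 1) ^ k) = fun i => (iteratedFDeriv ℂ k (term c m α L i) z) (fun _ => 1) := by
    funext i
    rw [iteratedFDeriv_term]
    simp only [ContinuousMultilinearMap.compContinuousLinearMap_apply]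
    rw [iteratedFDeriv_apply_eq_iteratedDeriv_mul_prod, iteratedDeriv_pw]
    simp [Finset.prod_const]
    ring
  rw [e]
  exact h2

end Pool.Agent.TH236.NB
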