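import Mathlib
import Pool.Agent.TH236.NBSeries

set_option autoImplicit false

open Metric Set Filter Topology

namespace Pool.Agent.TH236.NB

/-- the degrees -/
def deg (i : ℕ) : ℕ := 2 ^ (4 ^ i)

/-- the coefficients -/
noncomputable def cf (i : ℕ) : ℝ := (1 / 2) ^ i / (deg i : ℝ) ^ (deg (i - 1))

theorem deg_pos (i : ℕ) : 0 < deg i := by unfold deg; positivity

theorem deg_mono : Monotone deg := by
  intro i j h
  unfold deg
  exact Nat.pow_le_pow_right (by norm_num) (Nat.pow_le_pow_right (by norm_num) h)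

theorem lt_deg (i : ℕ) : i < deg i := by
  unfold deg
  calc i < 4 ^ i := Nat.lt_pow_self (by norm_num)
    _ < 2 ^ (4 ^ i) := Nat.lt_two_pow_self

theorem two_pow_le_deg (i : ℕ) : 2 ^ i ≤ deg i := by
  unfold deg
  exact Nat.pow_le_pow_right (by norm_num) (Nat.lt_pow_self (by norm_num)).le

theorem deg_succ (i : ℕ) : deg (i + 1) = deg i ^ 4 := by
  unfold deg
  rw [← pow_mul, pow_succ]

theorem cf_pos (i : ℕ) : 0 < cf i := by
  unfold cf
  have := deg_pos i
  positivity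

theorem cf_mul_pow_le {i k : ℕ} (h : k ≤ deg (i - 1)) : cf i * (deg i : ℝ) ^ k ≤ (1 / 2) ^ i := by
  have h0 : (1 : ℝ) ≤ deg i := by exact_mod_cast deg_pos i
  have h1 : (deg i : ℝ) ^ k ≤ (deg i : ℝ) ^ (deg (i - 1)) := pow_le_pow_right₀ h0 h
  unfold cf
  rw [div_mul_eq_mul_div, div_le_iff₀ (by positivity)]
  gcongr

theorem summable_cf (k : ℕ) : Summable fun i => cf i * (deg i : ℝ) ^ k := by
  refine Summable.of_norm_bounded_eventually_nat (g := fun i => (1 / 2 : ℝ) ^ i)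
    (summable_geometric_of_lt_one (by norm_num) (by norm_num)) ?_
  filter_upwards [eventually_ge_atTop (k + 1)] with i hi
  have h1 : k ≤ deg (i - 1) := by
    have := lt_deg (i - 1)
    omega
  have h2 := cf_pos i
  rw [Real.norm_of_nonneg (by positivity)]
  exact cf_mul_pow_le h1

/-- the growth estimate -/
theorem growth (ε M : ℝ) (hε : 0 < ε) :
    ∀ᶠ i in atTop, (deg i + 1 : ℝ) * M < cf i * (1 + ε) ^ deg i := by
  have h1 : ∀ᶠ p : ℕ in atTop, (p : ℝ) ^ 4 < (1 + ε) ^ p := by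
    have := tendsto_pow_const_div_const_pow_of_one_lt 4 (show (1 : ℝ) < 1 + ε by linarith)
    filter_upwards [this.eventually_lt_const one_pos] with p hp
    rwa [div_lt_one (by positivity)] at hp
  have h2 : ∀ᶠ p : ℕ in atTop, 2 * |M| < (1 + ε) ^ p :=
    (tendsto_pow_atTop_atTop_of_one_lt (show (1 : ℝ) < 1 + ε by linarith)).eventually_gt_atTop _
  have h3 : ∀ᶠ p : ℕ in atTop, 2 ≤ p := eventually_ge_atTop 2
  have h4 : Tendsto (fun i => deg i) atTop atTop :=
    tendsto_atTop_mono (fun i => (lt_deg i).le) tendsto_id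
  have h5 := h4.eventually ((h1.and h2).and h3)
  filter_upwards [(tendsto_sub_atTop_nat 1).eventually h5, eventually_ge_atTop 1] with i hi hi1
  obtain ⟨⟨ha, hb⟩, hc⟩ := hi
  have hd : deg i = deg (i - 1) ^ 4 := by
    obtain ⟨j, rfl⟩ : ∃ j, i = j + 1 := ⟨i - 1, by omega⟩
    rw [deg_succ]; simp
  have he : (2 : ℝ) ^ i ≤ (deg (i - 1) : ℝ) ^ 4 := by
    have := two_pow_le_deg i
    rw [hd] at this
    exact_mod_cast this
  unfold cf
  rw [hd]
  push_cast
  set p := deg (i - 1) with hp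
  set X := 1 + ε with hX
  have hX1 : 1 ≤ X := by rw [hX]; linarith
  have hX0 : 0 < X := by linarith
  have hp1 : (1 : ℝ) ≤ (p : ℝ) := by exact_mod_cast (by omega : 1 ≤ p)
  have hp4 : (1 : ℝ) ≤ (p : ℝ) ^ 4 := one_le_pow₀ hp1
  have e1 : 3 * p + p * p ≤ p ^ 4 := by
    have : p ^ 4 = p * p * (p * p) := by ring
    nlinarith [Nat.mul_le_mul hc hc]
  have e2 : (2 : ℝ) ^ i * ((p : ℝ) ^ 4 * X ^ p) * ((p : ℝ) ^ 4) ^ p ≤ X ^ (p ^ 4) := by
    calc (2 : ℝ) ^ i * ((p : ℝ) ^ 4 * X ^ p) * ((p : ℝ) ^ 4) ^ p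
        ≤ X ^ p * (X ^ p * X ^ p) * (X ^ p) ^ p := by
          gcongr
          exact he.trans ha.le
      _ = X ^ (3 * p + p * p) := by ring
      _ ≤ X ^ (p ^ 4) := pow_le_pow_right₀ hX1 e1
  have e3 : ((p : ℝ) ^ 4 + 1) * M ≤ (p : ℝ) ^ 4 * (2 * |M|) := by
    have := le_abs_self M
    have h0 := abs_nonneg M
    calc ((p : ℝ) ^ 4 + 1) * M ≤ ((p : ℝ) ^ 4 + 1) * |M| := by gcongr
      _ ≤ ((p : ℝ) ^ 4 + (p : ℝ) ^ 4) * |M| := by gcongr
      _ = _ := by ring
  have e4 : (p : ℝ) ^ 4 * (2 * |M|) < (p : ℝ) ^ 4 * X ^ p := by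
    gcongr
  refine lt_of_le_of_lt e3 (e4.trans_le ?_)
  rw [div_mul_eq_mul_div, le_div_iff₀ (by positivity), one_div, inv_pow]
  rw [← div_eq_inv_mul, le_div_iff₀ (by positivity)]
  calc _ = (2 : ℝ) ^ i * ((p : ℝ) ^ 4 * X ^ p) * ((p : ℝ) ^ 4) ^ p := by ring
    _ ≤ _ := e2

/-- the Taylor coefficients at a boundary point -/
theorem coeff_bound {α β : ℕ → ℂ} {ρ M : ℝ} (hρ : 0 < ρ) (hρ1 : ρ ≤ 1) (hM : 0 ≤ M)
    (hα : ∀ i, ‖α i‖ ≤ 1) (hβ : ∀ i, ‖β i‖ ≤ 1) (S : ℕ → ℂ)
    (hS : ∀ k, HasSum (fun i => (cf i : ℂ) * (((deg i).descFactorial k : ℂ) *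
      (α i) ^ (deg i - k)) * (β i) ^ k) (S k))
    (hb : ∀ k, ‖S k‖ ≤ k.factorial * M / ρ ^ k) (i : ℕ) :
    cf i * (‖α i‖ + ρ * ‖β i‖) ^ deg i ≤ (deg i + 1) * (M + 2) := by
  have key : ∀ j ≤ deg i, cf i * ((deg i).choose j : ℝ) * ‖α i‖ ^ (deg i - j) * (ρ * ‖β i‖) ^ j
      ≤ M + 2 := by
    intro j hj
    have hd1 : (1 : ℝ) ≤ deg i := by exact_mod_cast deg_pos i
    have hcf := cf_pos i
    have hρβ : ρ * ‖β i‖ ≤ 1 := mul_le_one₀ hρ1 (norm_nonneg _) (hβ i)
    rcases le_or_gt j (deg (i - 1)) with h | h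
    · have h1 : ((deg i).choose j : ℝ) ≤ (deg i : ℝ) ^ j := by
        exact_mod_cast Nat.choose_le_pow _ _
      have h2 : ‖α i‖ ^ (deg i - j) ≤ 1 := pow_le_one₀ (norm_nonneg _) (hα i)
      have h3 : (ρ * ‖β i‖) ^ j ≤ 1 := pow_le_one₀ (by positivity) hρβ
      calc cf i * ((deg i).choose j : ℝ) * ‖α i‖ ^ (deg i - j) * (ρ * ‖β i‖) ^ j
          ≤ cf i * (deg i : ℝ) ^ j * 1 * 1 := by gcongr
        _ = cf i * (deg i : ℝ) ^ j := by ring
        _ ≤ (1 / 2) ^ i := cf_mul_pow_le h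
        _ ≤ 1 := pow_le_one₀ (by norm_num) (by norm_num)
        _ ≤ M + 2 := by linarith
    · -- the main case
      set t : ℕ → ℂ := fun i => (cf i : ℂ) * (((deg i).descFactorial j : ℂ) *
        (α i) ^ (deg i - j)) * (β i) ^ j with ht
      have hsum := hS j
      have h1 : ∀ i', i' ≠ i → ‖t i'‖ ≤ (1 / 2) ^ i' := by
        intro i' hi'
        rcases lt_or_gt_of_ne hi' with hlt | hgt
        · have h2 : deg i' < j := by
            refine lt_of_le_of_lt (deg_mono ?_) h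
            omega
          have h3 : (deg i').descFactorial j = 0 := Nat.descFactorial_eq_zero_iff_lt.2 h2
          simp only [ht, h3]
          simp
        · have h2 : j ≤ deg (i' - 1) := hj.trans (deg_mono (by omega))
          have h3 : ‖α i'‖ ^ (deg i' - j) ≤ 1 := pow_le_one₀ (norm_nonneg _) (hα i')
          have h4 : ‖β i'‖ ^ j ≤ 1 := pow_le_one₀ (norm_nonneg _) (hβ i')
          have h5 := cf_pos i'
          have h6 : ((deg i').descFactorial j : ℝ) ≤ (deg i' : ℝ) ^ j := by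
            exact_mod_cast Nat.descFactorial_le_pow _ _
          simp only [ht, norm_mul, norm_pow, Complex.norm_natCast, Complex.norm_real,
            Real.norm_of_nonneg h5.le]
          calc cf i' * (((deg i').descFactorial j : ℝ) * ‖α i'‖ ^ (deg i' - j)) * ‖β i'‖ ^ j
              ≤ cf i' * ((deg i' : ℝ) ^ j * 1) * 1 := by gcongr
            _ = cf i' * (deg i' : ℝ) ^ j := by ring
            _ ≤ _ := cf_mul_pow_le h2
      have h2 : ‖t i‖ ≤ j.factorial * M / ρ ^ j + 2 := by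
        have e := hsum.summable.tsum_eq_add_tsum_ite i
        rw [hsum.tsum_eq] at e
        have h3 : ‖∑' n, ite (n = i) 0 (t n)‖ ≤ 2 := by
          have hg : HasSum (fun n : ℕ => (1 / 2 : ℝ) ^ n) 2 := hasSum_geometric_two
          refine tsum_of_norm_bounded hg ?_
          intro n
          split_ifs with hn
          · simp
          · exact h1 n hn
        have h4 : t i = S j - ∑' n, ite (n = i) 0 (t n) := by
          rw [e]; ring
        rw [h4]
        exact (norm_sub_le _ _).trans (add_le_add (hb j) h3)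
      have h3 : ‖t i‖ = cf i * (((deg i).descFactorial j : ℝ) * ‖α i‖ ^ (deg i - j)) * ‖β i‖ ^ j := by
        simp only [ht, norm_mul, norm_pow, Complex.norm_natCast, Complex.norm_real,
            Real.norm_of_nonneg hcf.le]
      rw [h3, Nat.descFactorial_eq_factorial_mul_choose] at h2
      push_cast at h2
      have hf : (1 : ℝ) ≤ (j.factorial : ℝ) := by exact_mod_cast Nat.factorial_pos j
      have hρj : 0 < ρ ^ j := by positivity
      have hρj1 : ρ ^ j ≤ 1 := pow_le_one₀ hρ.le hρ1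
      set Y := cf i * ((deg i).choose j : ℝ) * ‖α i‖ ^ (deg i - j) * ‖β i‖ ^ j with hY
      have h4 : (j.factorial : ℝ) * Y ≤ j.factorial * M / ρ ^ j + 2 := by
        refine le_trans (le_of_eq ?_) h2
        rw [hY]; ring
      have h5 : Y ≤ M / ρ ^ j + 2 := by
        have h6 : (j.factorial : ℝ) * Y ≤ j.factorial * (M / ρ ^ j + 2) := by
          refine h4.trans ?_
          have : (j.factorial : ℝ) * (M / ρ ^ j + 2) = j.factorial * M / ρ ^ j + j.factorial * 2 := by
            ring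
          rw [this]
          linarith
        exact le_of_mul_le_mul_left h6 (by linarith)
      calc cf i * ((deg i).choose j : ℝ) * ‖α i‖ ^ (deg i - j) * (ρ * ‖β i‖) ^ j
          = Y * ρ ^ j := by rw [hY, mul_pow]; ring
        _ ≤ (M / ρ ^ j + 2) * ρ ^ j := by gcongr
        _ = M + 2 * ρ ^ j := by field_simp
        _ ≤ M + 2 := by linarith
  calc cf i * (‖α i‖ + ρ * ‖β i‖) ^ deg i
      = ∑ j ∈ Finset.range (deg i + 1),
          cf i * ((deg i).choose j : ℝ) * ‖α i‖ ^ (deg i - j) * (ρ * ‖β i‖) ^ j := by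
        rw [add_comm, add_pow, Finset.mul_sum]
        apply Finset.sum_congr rfl
        intro j _
        ring
    _ ≤ ∑ j ∈ Finset.range (deg i + 1), (M + 2) := by
        apply Finset.sum_le_sum
        intro j hj
        exact key j (by simpa [Nat.lt_succ_iff] using hj)
    _ = (deg i + 1) * (M + 2) := by
        rw [Finset.sum_const, Finset.card_range, nsmul_eq_mul]
        push_cast
        ring

end Pool.Agent.TH236.NB
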