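import Mathlib

set_option autoImplicit false

open Filter Topology

namespace Pool.Agent.TH236.Germ

/-- the germ `(z₁, z₂, z₃) ↦ (z₃, z₁², z₂² z₃)` -/
noncomputable def f (z : Fin 3 → ℂ) : Fin 3 → ℂ := ![z 2, z 0 ^ 2, z 1 ^ 2 * z 2]

/-- the degrees of the components of the iterates -/
def st : ℕ → ℕ × ℕ × ℕ
  | 0 => (1, 1, 1)
  | k + 1 => ((st k).2.2, 2 * (st k).1, 2 * (st k).2.1 + (st k).2.2)

/-- the degree of the first component -/
def X (k : ℕ) : ℕ := (st k).1
/-- the degree of the second component -/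
def Y (k : ℕ) : ℕ := (st k).2.1
/-- the degree of the third component -/
def Z (k : ℕ) : ℕ := (st k).2.2

theorem X_zero : X 0 = 1 := rfl
theorem Y_zero : Y 0 = 1 := rfl
theorem Z_zero : Z 0 = 1 := rfl
theorem X_succ (k : ℕ) : X (k + 1) = Z k := rfl
theorem Y_succ (k : ℕ) : Y (k + 1) = 2 * X k := rfl
theorem Z_succ (k : ℕ) : Z (k + 1) = 2 * Y k + Z k := rfl

theorem X_le_Z (k : ℕ) : X k ≤ Z k := by
  cases k with
  | zero => exact le_rfl
  | succ k => rw [X_succ, Z_succ]; omega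

theorem Z_odd (k : ℕ) : Z k % 2 = 1 := by
  induction k with
  | zero => rfl
  | succ k ih => rw [Z_succ]; omega

theorem X_odd (k : ℕ) : X k % 2 = 1 := by
  cases k with
  | zero => rfl
  | succ k => rw [X_succ]; exact Z_odd k

theorem Y_even (k : ℕ) (hk : 1 ≤ k) : Y k % 2 = 0 := by
  obtain ⟨j, rfl⟩ : ∃ j, k = j + 1 := ⟨k - 1, by omega⟩
  rw [Y_succ]; omega

/-- the difference of the two competing degrees -/
def d (k : ℕ) : ℤ := (X k : ℤ) - Y k

theorem d_zero : d 0 = 0 := rfl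
theorem d_one : d 1 = -1 := rfl
theorem d_rec (k : ℕ) : d (k + 2) = -d (k + 1) - 2 * d k := by
  unfold d
  rw [X_succ, Y_succ, Z_succ, X_succ, Y_succ]
  push_cast
  ring

theorem d_ne (k : ℕ) (hk : 1 ≤ k) : d k ≠ 0 := by
  have h1 := X_odd k
  have h2 := Y_even k hk
  unfold d
  omega

/-- a root of `x² + x + 2` -/
noncomputable def μ : ℂ := ⟨-1 / 2, Real.sqrt 7 / 2⟩

theorem μ_sq : μ ^ 2 = -μ - 2 := by
  have h : Real.sqrt 7 * Real.sqrt 7 = 7 := Real.mul_self_sqrt (by norm_num)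
  apply Complex.ext
  · simp only [μ, sq, Complex.mul_re, Complex.sub_re, Complex.neg_re, Complex.re_ofNat]
    linarith
  · simp only [μ, sq, Complex.mul_im, Complex.sub_im, Complex.neg_im, Complex.im_ofNat]
    ring

theorem im_μ_pow (k : ℕ) : (μ ^ k).im = -(Real.sqrt 7 / 2) * (d k : ℝ) := by
  induction k using Nat.strong_induction_on with
  | _ k ih =>
    rcases k with _ | _ | k
    · simp [d_zero]
    · simp [d_one, μ]
    · have e : μ ^ (k + 2) = -(μ ^ (k + 1)) - 2 * μ ^ k := by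
        calc μ ^ (k + 2) = μ ^ k * μ ^ 2 := by ring
          _ = μ ^ k * (-μ - 2) := by rw [μ_sq]
          _ = _ := by ring
      rw [e, d_rec]
      simp only [Complex.sub_im, Complex.neg_im, Complex.mul_im, Complex.re_ofNat,
        Complex.im_ofNat, zero_mul, add_zero]
      rw [ih (k + 1) (by omega), ih k (by omega)]
      push_cast
      ring

/-- a second order recursion with complex roots has no positive solution -/
theorem no_pos (D : ℕ → ℝ) (t N : ℝ) (h : t ^ 2 < 4 * N)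
    (hr : ∀ j, D (j + 2) = t * D (j + 1) - N * D j) (hp : ∀ j, 0 < D j) : False := by
  set ρ : ℕ → ℝ := fun j => D (j + 1) / D j with hρ
  have hρpos : ∀ j, 0 < ρ j := fun j => div_pos (hp _) (hp _)
  have hρrec : ∀ j, ρ (j + 1) = t - N / ρ j := by
    intro j
    simp only [hρ]
    have h1 := (hp j).ne'
    have h2 := (hp (j + 1)).ne'
    rw [show j + 1 + 1 = j + 2 by ring, hr]
    field_simp
  set δ := (4 * N - t ^ 2) / (4 * ρ 0) with hδ
  have hδpos : 0 < δ := div_pos (by linarith) (by have := hρpos 0; linarith)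
  have key : ∀ j : ℕ, ρ j ≤ ρ 0 - j * δ := by
    intro j
    induction j with
    | zero => simp
    | succ j ih =>
      have hj := hρpos j
      have h0 := hρpos 0
      have hle : ρ j ≤ ρ 0 := by
        have : 0 ≤ (j : ℝ) * δ := by positivity
        linarith
      have h1 : δ ≤ (4 * N - t ^ 2) / (4 * ρ j) := by
        rw [hδ]
        apply div_le_div_of_nonneg_left (by linarith) (by linarith) (by linarith)
      have h2 : t - N / ρ j ≤ ρ j - (4 * N - t ^ 2) / (4 * ρ j) := by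
        have e : ρ j - (4 * N - t ^ 2) / (4 * ρ j) - (t - N / ρ j) = (ρ j - t / 2) ^ 2 / ρ j := by
          field_simp
          ring
        have : 0 ≤ (ρ j - t / 2) ^ 2 / ρ j := by positivity
        linarith
      rw [hρrec]
      push_cast
      linarith
  obtain ⟨j, hj⟩ := exists_nat_gt (ρ 0 / δ)
  have h1 := key j
  have h2 := hρpos j
  rw [div_lt_iff₀ hδpos] at hj
  linarith

theorem no_pos_im (z w : ℂ) (hw : w.im ≠ 0) (hp : ∀ j : ℕ, 0 < (z * w ^ j).im) : False := by
  refine no_pos (fun j => (z * w ^ j).im) (2 * w.re) (w.re ^ 2 + w.im ^ 2) ?_ ?_ hp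
  · have : 0 < w.im ^ 2 := by positivity
    nlinarith
  · intro j
    have e : w ^ 2 = (2 * w.re : ℝ) * w - ((w.re ^ 2 + w.im ^ 2 : ℝ) : ℂ) := by
      apply Complex.ext
      · simp [sq, Complex.mul_re]
        ring
      · simp [sq, Complex.mul_im]
        ring
    have e2 : z * w ^ (j + 2) = (2 * w.re : ℝ) * (z * w ^ (j + 1))
        - ((w.re ^ 2 + w.im ^ 2 : ℝ) : ℂ) * (z * w ^ j) := by
      calc z * w ^ (j + 2) = z * w ^ j * w ^ 2 := by ring
        _ = z * w ^ j * ((2 * w.re : ℝ) * w - ((w.re ^ 2 + w.im ^ 2 : ℝ) : ℂ)) := by rw [e]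
        _ = _ := by ring
    show (z * w ^ (j + 2)).im = 2 * w.re * (z * w ^ (j + 1)).im
      - (w.re ^ 2 + w.im ^ 2) * (z * w ^ j).im
    rw [e2, Complex.sub_im, Complex.im_ofReal_mul, Complex.im_ofReal_mul]

/-- the signs of the differences are not constant along an arithmetic progression -/
theorem sign_change (k T : ℕ) (hT : 1 ≤ T) :
    ¬ (∀ j : ℕ, 0 < d (k + T * j)) ∧ ¬ (∀ j : ℕ, d (k + T * j) < 0) := by
  have h7 : 0 < Real.sqrt 7 := Real.sqrt_pos.2 (by norm_num)
  have hw : (μ ^ T).im ≠ 0 := by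
    rw [im_μ_pow]
    have := d_ne T hT
    have h1 : (d T : ℝ) ≠ 0 := by exact_mod_cast this
    have h2 : -(Real.sqrt 7 / 2) ≠ 0 := by
      have : 0 < Real.sqrt 7 / 2 := by positivity
      linarith
    exact mul_ne_zero h2 h1
  have e : ∀ j : ℕ, (μ ^ k * (μ ^ T) ^ j).im = -(Real.sqrt 7 / 2) * (d (k + T * j) : ℝ) := by
    intro j
    rw [← pow_mul, ← pow_add, im_μ_pow]
  constructor
  · intro h
    refine no_pos_im (-(μ ^ k)) (μ ^ T) hw fun j => ?_
    rw [neg_mul, Complex.neg_im, e]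
    have : (0 : ℝ) < d (k + T * j) := by exact_mod_cast h j
    have : 0 < (Real.sqrt 7 / 2) * (d (k + T * j) : ℝ) := by positivity
    linarith
  · intro h
    refine no_pos_im (μ ^ k) (μ ^ T) hw fun j => ?_
    rw [e]
    have h1 : (d (k + T * j) : ℝ) < 0 := by exact_mod_cast h j
    have h2 : (0 : ℝ) < -(d (k + T * j) : ℝ) := by linarith
    have : 0 < (Real.sqrt 7 / 2) * (-(d (k + T * j) : ℝ)) := by positivity
    linarith

/-- the order of the iterates -/
def s (k : ℕ) : ℕ := min (X k) (Y k)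

theorem s_pos (k : ℕ) : 0 < s k := by
  have h1 : 0 < X k := by have := X_odd k; omega
  have h2 : 0 < Y k := by
    cases k with
    | zero => exact Nat.one_pos
    | succ k => rw [Y_succ]; have := X_odd k; omega
  exact lt_min h1 h2

theorem s_parity (k : ℕ) (hk : 1 ≤ k) : (s k % 2 = 1 ↔ d k < 0) ∧ (s k % 2 = 0 ↔ 0 < d k) := by
  have h1 := X_odd k
  have h2 := Y_even k hk
  unfold s d
  rcases le_total (X k) (Y k) with h | h
  · rw [min_eq_left h]
    constructor <;> constructor <;> intro h3 <;> omega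
  · rw [min_eq_right h]
    constructor <;> constructor <;> intro h3 <;> omega

/-- the orders do not satisfy a linear recursion -/
theorem not_rec (D : ℕ) (a : Fin D → ℤ) (K : ℕ)
    (h : ∀ k, K ≤ k → (s (k + D) : ℤ) = ∑ i : Fin D, a i * (s (k + (i : ℕ)) : ℤ)) : False := by
  -- the windows modulo 2
  let W : ℕ → (Fin (D + 1) → ZMod 2) := fun k i => (s (K + k + 1 + (i : ℕ)) : ZMod 2)
  let F : (Fin (D + 1) → ZMod 2) → (Fin (D + 1) → ZMod 2) := fun v =>
    Fin.snoc (α := fun _ => ZMod 2) (fun i : Fin D => v i.succ) (∑ i : Fin D, (a i : ZMod 2) * v i.succ)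
  have hW : ∀ k, W (k + 1) = F (W k) := by
    intro k
    funext i
    refine Fin.lastCases ?_ (fun i => ?_) i
    · simp only [F, Fin.snoc_last, W, Fin.val_last]
      have := h (K + (k + 1) + 1) (by omega)
      have h2 := congrArg (Int.cast : ℤ → ZMod 2) this
      push_cast at h2
      rw [h2]
      apply Finset.sum_congr rfl
      intro i _
      congr 2
      simp only [Fin.val_succ]
      ring_nf
    · simp only [F, Fin.snoc_castSucc, W, Fin.val_succ, Fin.val_castSucc]
      congr 2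
      omega
  -- pigeonhole
  obtain ⟨i, j, hij, hWij⟩ := Finite.exists_ne_map_eq_of_infinite W
  wlog hlt : i < j generalizing i j
  · exact this j i hij.symm hWij.symm (lt_of_le_of_ne (not_lt.1 hlt) hij.symm)
  have hper : ∀ t, W (i + t) = W (j + t) := by
    intro t
    induction t with
    | zero => exact hWij
    | succ t ih =>
      rw [← add_assoc, ← add_assoc, hW, hW, ih]
  have hs : ∀ t, (s (K + i + 1 + t) : ZMod 2) = (s (K + i + 1 + (j - i) + t) : ZMod 2) := by
    intro t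
    have h1 := congrFun (hper t) 0
    simp only [W, Fin.val_zero, add_zero] at h1
    have e1 : K + (i + t) + 1 = K + i + 1 + t := by ring
    have e2 : K + (j + t) + 1 = K + i + 1 + (j - i) + t := by omega
    rw [e1, e2] at h1
    exact h1
  have hs2 : ∀ n : ℕ, s (K + i + 1 + (j - i) * n) % 2 = s (K + i + 1) % 2 := by
    intro n
    induction n with
    | zero => simp
    | succ n ih =>
      rw [← ih]
      have h1 := hs ((j - i) * n)
      have e2 : K + i + 1 + (j - i) + (j - i) * n = K + i + 1 + (j - i) * (n + 1) := by ring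
      rw [e2] at h1
      exact ((ZMod.natCast_eq_natCast_iff' _ _ 2).1 h1).symm
  have hsc := sign_change (K + i + 1) (j - i) (by omega)
  rcases Nat.mod_two_eq_zero_or_one (s (K + i + 1)) with h0 | h1
  · refine hsc.1 fun n => ?_
    exact (s_parity _ (by omega)).2.1 ((hs2 n).trans h0)
  · refine hsc.2 fun n => ?_
    exact (s_parity _ (by omega)).1.1 ((hs2 n).trans h1)


theorem f_zero' (z : Fin 3 → ℂ) : f z 0 = z 2 := rfl
theorem f_one' (z : Fin 3 → ℂ) : f z 1 = z 0 ^ 2 := rfl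
theorem f_two' (z : Fin 3 → ℂ) : f z 2 = z 1 ^ 2 * z 2 := rfl

theorem iter_smul (k : ℕ) (c : ℂ) (z : Fin 3 → ℂ) :
    (f^[k] (c • z)) 0 = c ^ X k * (f^[k] z) 0 ∧ (f^[k] (c • z)) 1 = c ^ Y k * (f^[k] z) 1 ∧
      (f^[k] (c • z)) 2 = c ^ Z k * (f^[k] z) 2 := by
  induction k with
  | zero => simp [X_zero, Y_zero, Z_zero]
  | succ k ih =>
    obtain ⟨h0, h1, h2⟩ := ih
    simp only [Function.iterate_succ_apply', f_zero', f_one', f_two', h0, h1, h2, X_succ, Y_succ,
      Z_succ]
    refine ⟨trivial, ?_, ?_⟩ <;> ring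

theorem iter_one (k : ℕ) : f^[k] (fun _ => 1) = fun _ => 1 := by
  induction k with
  | zero => rfl
  | succ k ih =>
    rw [Function.iterate_succ_apply', ih]
    funext i
    fin_cases i <;> simp [f]

theorem contDiff_f : ContDiff ℂ ⊤ f := by
  rw [contDiff_pi]
  intro i
  fin_cases i
  · show ContDiff ℂ ⊤ fun z : Fin 3 → ℂ => z 2
    fun_prop
  · show ContDiff ℂ ⊤ fun z : Fin 3 → ℂ => z 0 ^ 2
    fun_prop
  · show ContDiff ℂ ⊤ fun z : Fin 3 → ℂ => z 1 ^ 2 * z 2
    fun_prop

open scoped ContDiff in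
theorem analyticAt_f : AnalyticAt ℂ f 0 := by
  have h : ContDiff ℂ ω f := by
    rw [contDiff_pi]
    intro i
    fin_cases i
    · show ContDiff ℂ ω fun z : Fin 3 → ℂ => z 2
      fun_prop
    · show ContDiff ℂ ω fun z : Fin 3 → ℂ => z 0 ^ 2
      fun_prop
    · show ContDiff ℂ ω fun z : Fin 3 → ℂ => z 1 ^ 2 * z 2
      fun_prop
  exact h.contDiffAt.analyticAt

theorem contDiff_iter (k : ℕ) : ContDiff ℂ ⊤ (f^[k]) := by
  induction k with
  | zero => exact contDiff_id
  | succ k ih =>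
    rw [Function.iterate_succ']
    exact contDiff_f.comp ih

/-- the derivatives at the origin of a homogeneous function -/
theorem hom_eq_zero (h : (Fin 3 → ℂ) → ℂ) (hc : ContDiff ℂ ⊤ h) (D : ℕ)
    (hh : ∀ (c : ℂ) (z : Fin 3 → ℂ), h (c • z) = c ^ D * h z) (m : ℕ) (hm : m ≠ D) :
    iteratedFDeriv ℂ m h 0 = 0 := by
  let L : (Fin 3 → ℂ) →L[ℂ] (Fin 3 → ℂ) := (2 : ℂ) • ContinuousLinearMap.id ℂ (Fin 3 → ℂ)
  have e1 : h ∘ L = (2 : ℂ) ^ D • h := by
    funext z
    simp only [Function.comp_apply, Pi.smul_apply, smul_eq_mul]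
    exact hh 2 z
  have hc' : ContDiff ℂ (m : WithTop ℕ∞) h := hc.of_le le_top
  have e2 := L.iteratedFDeriv_comp_right hc' 0 le_rfl
  rw [e1, iteratedFDeriv_const_smul_apply hc'.contDiffAt] at e2
  rw [map_zero] at e2
  ext v
  have e3 := congrArg (fun M => M v) e2
  simp only [smul_apply,
    ContinuousMultilinearMap.compContinuousLinearMap_apply] at e3
  have e4 : (fun i => L (v i)) = fun i => (2 : ℂ) • v i := rfl
  rw [e4] at e3
  have e5 := (iteratedFDeriv ℂ m h 0).map_smul_univ (fun _ => (2 : ℂ)) v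
  rw [e5] at e3
  simp only [Finset.prod_const, Finset.card_univ, Fintype.card_fin, smul_eq_mul] at e3
  have e6 : ((2 : ℂ) ^ D - 2 ^ m) * (iteratedFDeriv ℂ m h 0) v = 0 := by
    rw [sub_mul, e3, sub_self]
  rcases mul_eq_zero.1 e6 with h1 | h1
  · exfalso
    have h2 : (2 : ℂ) ^ D = 2 ^ m := sub_eq_zero.1 h1
    have h3 : (2 : ℕ) ^ D = 2 ^ m := by exact_mod_cast h2
    exact hm (Nat.pow_right_injective (le_refl 2) h3).symm
  · simpa using h1

theorem hom_ne_zero (h : (Fin 3 → ℂ) → ℂ) (hc : ContDiff ℂ ⊤ h) (D : ℕ)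
    (hh : ∀ (c : ℂ) (z : Fin 3 → ℂ), h (c • z) = c ^ D * h z) (h1 : h (fun _ => 1) = 1) :
    iteratedFDeriv ℂ D h 0 ≠ 0 := by
  intro h0
  let L : ℂ →L[ℂ] (Fin 3 → ℂ) := ContinuousLinearMap.pi fun _ => ContinuousLinearMap.id ℂ ℂ
  have e1 : h ∘ L = fun t : ℂ => t ^ D := by
    funext t
    have : L t = t • (fun _ : Fin 3 => (1 : ℂ)) := by
      funext i
      simp [L]
    simp only [Function.comp_apply]
    rw [this, hh, h1, mul_one]
  have hc' : ContDiff ℂ (D : WithTop ℕ∞) h := hc.of_le le_top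
  have e2 := L.iteratedFDeriv_comp_right hc' 0 le_rfl
  rw [e1, map_zero, h0] at e2
  have e3 : iteratedDeriv D (fun t : ℂ => t ^ D) 0 = 0 := by
    rw [iteratedDeriv_eq_iteratedFDeriv, e2]
    simp
  rw [iteratedDeriv_fun_pow_zero, if_pos rfl] at e3
  exact (Nat.factorial_ne_zero D) (by exact_mod_cast e3)

theorem comp_proj (k m : ℕ) (i : Fin 3) :
    iteratedFDeriv ℂ m (fun z => (f^[k] z) i) 0 =
      (ContinuousLinearMap.proj (R := ℂ) (φ := fun _ : Fin 3 => ℂ) i).compContinuousMultilinearMap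
        (iteratedFDeriv ℂ m (f^[k]) 0) := by
  have hc' : ContDiff ℂ (m : WithTop ℕ∞) (f^[k]) := (contDiff_iter k).of_le le_top
  exact (ContinuousLinearMap.proj (R := ℂ) (φ := fun _ : Fin 3 => ℂ) i).iteratedFDeriv_comp_left
    hc'.contDiffAt le_rfl

/-- the degrees as one function -/
def deg (k : ℕ) : Fin 3 → ℕ := ![X k, Y k, Z k]

theorem iter_smul' (k : ℕ) (i : Fin 3) (c : ℂ) (z : Fin 3 → ℂ) :
    (f^[k] (c • z)) i = c ^ deg k i * (f^[k] z) i := by
  obtain ⟨h0, h1, h2⟩ := iter_smul k c z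
  fin_cases i
  · exact h0
  · exact h1
  · exact h2

theorem order_eq (k : ℕ) : sInf {m : ℕ | iteratedFDeriv ℂ m (f^[k]) 0 ≠ 0} = s k := by
  have hcomp : ∀ i : Fin 3, ContDiff ℂ ⊤ fun z => (f^[k] z) i := fun i =>
    (contDiff_pi.1 (contDiff_iter k)) i
  have hne : ∀ i : Fin 3, iteratedFDeriv ℂ (deg k i) (f^[k]) 0 ≠ 0 := by
    intro i h0
    refine hom_ne_zero (fun z => (f^[k] z) i) (hcomp i) (deg k i) (iter_smul' k i) ?_ ?_
    · simp only [iter_one]
    · rw [comp_proj, h0]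
      ext v
      simp
  have hge : ∀ m, iteratedFDeriv ℂ m (f^[k]) 0 ≠ 0 → ∃ i, m = deg k i := by
    intro m hm
    by_contra hcon
    push Not at hcon
    apply hm
    ext v i
    have h1 := hom_eq_zero (fun z => (f^[k] z) i) (hcomp i) (deg k i) (iter_smul' k i) m (hcon i)
    rw [comp_proj] at h1
    have h2 := congrArg (fun M => M v) h1
    simpa using h2
  apply le_antisymm
  · unfold s
    rcases le_total (X k) (Y k) with h | h
    · rw [min_eq_left h]
      exact Nat.sInf_le (hne 0)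
    · rw [min_eq_right h]
      exact Nat.sInf_le (hne 1)
  · have hmem := Nat.sInf_mem (s := {m : ℕ | iteratedFDeriv ℂ m (f^[k]) 0 ≠ 0}) ⟨_, hne 0⟩
    obtain ⟨i, hi⟩ := hge _ hmem
    rw [hi]
    have hXZ := X_le_Z k
    unfold s
    fin_cases i
    · exact min_le_left _ _
    · exact min_le_right _ _
    · exact (min_le_left _ _).trans hXZ

/-- the derivative of the germ -/
theorem hasFDerivAt_f (z : Fin 3 → ℂ) :
    HasFDerivAt f (LinearMap.toContinuousLinearMap (Matrix.toLin'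
      !![0, 0, 1; 2 * z 0, 0, 0; 0, 2 * z 1 * z 2, z 1 ^ 2])) z := by
  rw [hasFDerivAt_pi']
  have hp : ∀ i : Fin 3, HasFDerivAt (fun w : Fin 3 → ℂ => w i)
      (ContinuousLinearMap.proj (R := ℂ) (φ := fun _ : Fin 3 => ℂ) i) z := fun i =>
    (ContinuousLinearMap.proj (R := ℂ) (φ := fun _ : Fin 3 => ℂ) i).hasFDerivAt
  intro i
  fin_cases i
  · refine (hp 2).congr_fderiv ?_
    ext v
    simp [dotProduct, Fin.sum_univ_three]
  · refine ((hp 0).pow 2).congr_fderiv ?_
    ext v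
    simp [dotProduct, Fin.sum_univ_three]
  · refine (((hp 1).pow 2).mul (hp 2)).congr_fderiv ?_
    ext v
    simp [dotProduct, Fin.sum_univ_three]
    ring

theorem det_f (z : Fin 3 → ℂ) : (fderiv ℂ f z).det = 4 * z 0 * z 1 * z 2 := by
  rw [(hasFDerivAt_f z).fderiv]
  unfold ContinuousLinearMap.det
  rw [LinearMap.coe_toContinuousLinearMap, LinearMap.det_toLin', Matrix.det_fin_three]
  simp
  ring

end Pool.Agent.TH236.Germ
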