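import Mathlib

set_option autoImplicit false

open Complex Metric Set MeasureTheory InnerProductSpace Filter Topology

namespace Pool.Agent.TH236.Circ

/-- total angle of the part of the circle `|z| = r` in `E` -/
noncomputable def arcLen (E : Set ℂ) (r : ℝ) : ℝ :=
  (volume {θ : ℝ | θ ∈ Ioc (-Real.pi) Real.pi ∧ (r : ℂ) * Complex.exp (θ * I) ∈ E}).toReal

/-- circular symmetrisation -/
def circSymm (E : Set ℂ) : Set ℂ :=
  {z | (z = 0 ∧ (0 : ℂ) ∈ E) ∨ (z ≠ 0 ∧ ((∀ w : ℂ, ‖w‖ = ‖z‖ → w ∈ E) ∨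
    ((∃ w : ℂ, ‖w‖ = ‖z‖ ∧ w ∈ E) ∧ |arg z| < arcLen E ‖z‖ / 2)))}

theorem lt_cos_iff {κ x : ℝ} (h1 : -1 ≤ κ) (h2 : κ ≤ 1) (hx : |x| ≤ Real.pi) :
    κ < Real.cos x ↔ |x| < Real.arccos κ := by
  rw [← Real.cos_abs x]
  constructor
  · intro h
    by_contra hcon
    push Not at hcon
    have h3 : Real.cos |x| ≤ Real.cos (Real.arccos κ) :=
      Real.cos_le_cos_of_nonneg_of_le_pi (Real.arccos_nonneg κ) hx hcon
    rw [Real.cos_arccos h1 h2] at h3
    linarith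
  · intro h
    have h3 : Real.cos (Real.arccos κ) < Real.cos |x| :=
      Real.cos_lt_cos_of_nonneg_of_le_pi (abs_nonneg x) (Real.arccos_le_pi κ) h
    rwa [Real.cos_arccos h1 h2] at h3

theorem measurableSet_cos (κ α : ℝ) : MeasurableSet {θ : ℝ | κ < Real.cos (θ - α)} :=
  measurableSet_lt measurable_const (by fun_prop)

theorem volume_cos {κ : ℝ} (h1 : -1 ≤ κ) (h2 : κ < 1) (α : ℝ) :
    (volume {θ : ℝ | θ ∈ Ioc (-Real.pi) Real.pi ∧ κ < Real.cos (θ - α)}).toReal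
      = 2 * Real.arccos κ := by
  have key : ∀ β : ℝ, (volume {θ : ℝ | θ ∈ Ioc (-Real.pi) Real.pi ∧ κ < Real.cos (θ - β)}).toReal
      = ∫ θ in (-Real.pi)..Real.pi, ({θ : ℝ | κ < Real.cos θ}.indicator (fun _ => (1 : ℝ))) (θ - β) := by
    intro β
    rw [intervalIntegral.integral_of_le (by linarith [Real.pi_pos])]
    have e : (fun θ : ℝ => ({θ : ℝ | κ < Real.cos θ}.indicator (fun _ => (1 : ℝ))) (θ - β))
        = {θ : ℝ | κ < Real.cos (θ - β)}.indicator (fun _ => (1 : ℝ)) := by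
      funext θ
      simp only [indicator, mem_ofPred_eq]
    rw [e, setIntegral_indicator (measurableSet_cos κ β)]
    simp only [integral_const, MeasurableSet.univ, measureReal_restrict_apply, univ_inter,
      smul_eq_mul, mul_one]
    rfl
  have hper : Function.Periodic ({θ : ℝ | κ < Real.cos θ}.indicator (fun _ => (1 : ℝ)))
      (2 * Real.pi) := by
    intro θ
    simp only [indicator, mem_ofPred_eq, Real.cos_add_two_pi]
  have h0 : (volume {θ : ℝ | θ ∈ Ioc (-Real.pi) Real.pi ∧ κ < Real.cos (θ - 0)}).toReal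
      = 2 * Real.arccos κ := by
    have e : {θ : ℝ | θ ∈ Ioc (-Real.pi) Real.pi ∧ κ < Real.cos (θ - 0)}
        = Ioo (-Real.arccos κ) (Real.arccos κ) := by
      ext θ
      simp only [mem_ofPred_eq, mem_Ioc, mem_Ioo, sub_zero]
      have hpi := Real.arccos_le_pi κ
      constructor
      · rintro ⟨⟨h3, h4⟩, h5⟩
        rw [lt_cos_iff h1 h2.le (abs_le.2 ⟨by linarith, h4⟩)] at h5
        exact abs_lt.1 h5
      · rintro ⟨h3, h4⟩
        refine ⟨⟨by linarith, by linarith⟩, ?_⟩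
        rw [lt_cos_iff h1 h2.le (abs_le.2 ⟨by linarith, by linarith⟩)]
        exact abs_lt.2 ⟨h3, h4⟩
    rw [e, Real.volume_Ioo, ENNReal.toReal_ofReal (by linarith [Real.arccos_nonneg κ])]
    ring
  rw [← h0, key α, key 0, intervalIntegral.integral_comp_sub_right,
    intervalIntegral.integral_comp_sub_right]
  have := hper.intervalIntegral_add_eq (-Real.pi - α) (-Real.pi - 0)
  convert this using 2 <;> ring

theorem normSq_sub (r θ : ℝ) (C : ℂ) :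
    ‖(r : ℂ) * Complex.exp (θ * I) - C‖ ^ 2
      = r ^ 2 + ‖C‖ ^ 2 - 2 * r * ‖C‖ * Real.cos (θ - arg C) := by
  have h1 : ((r : ℂ) * Complex.exp (θ * I) - C).re = r * Real.cos θ - C.re := by
    rw [Complex.sub_re, Complex.re_ofReal_mul, Complex.exp_ofReal_mul_I_re]
  have h2 : ((r : ℂ) * Complex.exp (θ * I) - C).im = r * Real.sin θ - C.im := by
    rw [Complex.sub_im, Complex.im_ofReal_mul, Complex.exp_ofReal_mul_I_im]
  rw [← Complex.normSq_eq_norm_sq, Complex.normSq_apply, h1, h2, Real.cos_sub,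
    ← Complex.norm_mul_cos_arg C, ← Complex.norm_mul_sin_arg C]
  have h3 := Real.sin_sq_add_cos_sq θ
  have h4 := Real.sin_sq_add_cos_sq (arg C)
  linear_combination (r ^ 2) * h3 + ‖C‖ ^ 2 * h4

theorem mem_ball_iff {C : ℂ} {ρ r θ : ℝ} (hr : 0 < r) (hC : 0 < ‖C‖) (hρ : 0 < ρ) :
    (r : ℂ) * Complex.exp (θ * I) ∈ ball C ρ ↔
      (r ^ 2 + ‖C‖ ^ 2 - ρ ^ 2) / (2 * r * ‖C‖) < Real.cos (θ - arg C) := by
  rw [mem_ball, dist_eq_norm, div_lt_iff₀ (by positivity)]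
  rw [← sq_lt_sq₀ (norm_nonneg _) hρ.le, normSq_sub]
  constructor <;> intro h <;> linarith

theorem circSymm_ball (C : ℂ) {ρ : ℝ} (hρ : 0 < ρ) :
    circSymm (ball C ρ) = ball ((‖C‖ : ℝ) : ℂ) ρ := by
  rcases eq_or_ne C 0 with rfl | hC0
  · ext z
    simp only [circSymm, mem_ofPred_eq, norm_zero, ofReal_zero, mem_ball_zero_iff]
    constructor
    · rintro (⟨rfl, h⟩ | ⟨h0, h | ⟨⟨w, hw, h1⟩, h2⟩⟩)
      · simpa using h
      · exact h z rfl
      · rwa [← hw]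
    · intro h
      by_cases hz : z = 0
      · left; exact ⟨hz, by simpa using hρ⟩
      · right; exact ⟨hz, Or.inl fun w hw => by rw [hw]; exact h⟩
  have hC : 0 < ‖C‖ := norm_pos_iff.2 hC0
  have hC' : 0 < ‖((‖C‖ : ℝ) : ℂ)‖ := by rw [Complex.norm_real, norm_norm]; exact hC
  have harg : arg ((‖C‖ : ℝ) : ℂ) = 0 := Complex.arg_ofReal_of_nonneg hC.le
  have hnn : ‖((‖C‖ : ℝ) : ℂ)‖ = ‖C‖ := by rw [Complex.norm_real, norm_norm]
  ext z
  by_cases hz : z = 0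
  · subst hz
    simp only [circSymm, mem_ofPred_eq, true_and, ne_eq, not_true_eq_false, false_and, or_false,
      mem_ball, dist_zero_left, hnn]
  have hr : 0 < ‖z‖ := norm_pos_iff.2 hz
  set r := ‖z‖ with hrdef
  set κ := (r ^ 2 + ‖C‖ ^ 2 - ρ ^ 2) / (2 * r * ‖C‖) with hκ
  have hmem : ∀ θ : ℝ, (r : ℂ) * Complex.exp (θ * I) ∈ ball C ρ ↔ κ < Real.cos (θ - arg C) :=
    fun θ => mem_ball_iff hr hC hρ
  have hzpol : z = (r : ℂ) * Complex.exp (arg z * I) := (Complex.norm_mul_exp_arg_mul_I z).symm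
  have htar : z ∈ ball ((‖C‖ : ℝ) : ℂ) ρ ↔ κ < Real.cos (arg z) := by
    conv_lhs => rw [hzpol]
    rw [mem_ball_iff hr hC' hρ, harg, sub_zero, hnn]
  have hw : ∀ w : ℂ, ‖w‖ = r → (w ∈ ball C ρ ↔ κ < Real.cos (arg w - arg C)) := by
    intro w hw
    rw [← hmem, ← hw, Complex.norm_mul_exp_arg_mul_I]
  rw [htar]
  have hexp : ∀ θ : ℝ, ‖(r : ℂ) * Complex.exp (θ * I)‖ = r := by
    intro θ
    rw [norm_mul, Complex.norm_exp_ofReal_mul_I, mul_one, Complex.norm_real, Real.norm_of_nonneg hr.le]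
  have hlen : -1 ≤ κ → κ < 1 → arcLen (ball C ρ) r = 2 * Real.arccos κ := by
    intro h1 h2
    rw [← volume_cos h1 h2 (arg C)]
    unfold arcLen
    simp only [hmem]
  rcases lt_or_ge κ (-1) with h1 | h1
  · have hall : ∀ x : ℝ, κ < Real.cos x := fun x => h1.trans_le (Real.neg_one_le_cos x)
    constructor
    · intro _; exact hall _
    · intro _
      right
      exact ⟨hz, Or.inl fun w hwn => (hw w hwn).2 (hall _)⟩
  rcases lt_or_ge κ 1 with h2 | h2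
  · have h3 := lt_cos_iff h1 h2.le (Complex.abs_arg_le_pi z)
    constructor
    · rintro (⟨h, _⟩ | ⟨_, h | ⟨_, h⟩⟩)
      · exact absurd h hz
      · exfalso
        have h4 := (hmem (arg C + Real.pi)).1 (h _ (hexp _))
        rw [add_sub_cancel_left, Real.cos_pi] at h4
        linarith
      · rw [h3]
        rw [← hrdef, hlen h1 h2] at h
        linarith
    · intro h
      right
      refine ⟨hz, Or.inr ⟨⟨(r : ℂ) * Complex.exp (arg C * I), hexp _, ?_⟩, ?_⟩⟩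
      · rw [hmem, sub_self, Real.cos_zero]; exact h2
      · rw [← hrdef, hlen h1 h2]
        rw [h3] at h
        linarith
  · constructor
    · rintro (⟨h, _⟩ | ⟨_, h | ⟨⟨w, hwn, h⟩, _⟩⟩)
      · exact absurd h hz
      · have h4 := (hw z rfl).1 (h z rfl)
        linarith [Real.cos_le_one (arg z - arg C)]
      · have h4 := (hw w hwn).1 h
        linarith [Real.cos_le_one (arg w - arg C)]
    · intro h
      linarith [Real.cos_le_one (arg z)]

/-! ### Green's functions -/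

/-- `g` is the Green function of the domain `G` with pole `a` (the least positive function with a
logarithmic pole at `a`) -/
structure IsGreen (G : Set ℂ) (a : ℂ) (g : ℂ → ℝ) : Prop where
  isOpen : IsOpen G
  connected : IsConnected G
  mem : a ∈ G
  pos : ∀ z ∈ G, z ≠ a → 0 < g z
  pole : ∃ H : ℂ → ℝ, HarmonicOnNhd H G ∧ ∀ z ∈ G, z ≠ a → g z = H z - Real.log ‖z - a‖
  least : ∀ h H : ℂ → ℝ, HarmonicOnNhd H G → (∀ z ∈ G, z ≠ a → h z = H z - Real.log ‖z - a‖) →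
    (∀ z ∈ G, z ≠ a → 0 < h z) → ∀ z ∈ G, z ≠ a → g z ≤ h z

theorem IsGreen.unique {G : Set ℂ} {a : ℂ} {g g' : ℂ → ℝ} (h : IsGreen G a g)
    (h' : IsGreen G a g') : ∀ z ∈ G, z ≠ a → g z = g' z := by
  intro z hz hza
  obtain ⟨H, hH, hg⟩ := h.pole
  obtain ⟨H', hH', hg'⟩ := h'.pole
  exact le_antisymm (h.least g' H' hH' hg' h'.pos z hz hza) (h'.least g H hH hg h.pos z hz hza)

/-- the level domain `{g > l}`; the pole belongs to it -/
def level (G : Set ℂ) (a : ℂ) (g : ℂ → ℝ) (l : ℝ) : Set ℂ := {z | z ∈ G ∧ (z = a ∨ l < g z)}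

theorem level_congr {G : Set ℂ} {a : ℂ} {g g' : ℂ → ℝ} (h : IsGreen G a g)
    (h' : IsGreen G a g') (l : ℝ) : level G a g l = level G a g' l := by
  ext z
  simp only [level, mem_ofPred_eq]
  constructor
  · rintro ⟨h1, h2⟩
    refine ⟨h1, ?_⟩
    rcases eq_or_ne z a with h3 | h3
    · exact Or.inl h3
    · rcases h2 with h2 | h2
      · exact absurd h2 h3
      · right; rw [← h.unique h' z h1 h3]; exact h2
  · rintro ⟨h1, h2⟩
    refine ⟨h1, ?_⟩
    rcases eq_or_ne z a with h3 | h3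
    · exact Or.inl h3
    · rcases h2 with h2 | h2
      · exact absurd h2 h3
      · right; rw [h.unique h' z h1 h3]; exact h2

theorem min_principle {C : ℂ} {ρ r m : ℝ} {u : ℂ → ℝ} (hr : 0 < r) (hρ : r < ρ)
    (hu : HarmonicOnNhd u (ball C ρ)) (h : ∀ z ∈ sphere C r, m ≤ u z) :
    ∀ z ∈ closedBall C r, m ≤ u z := by
  obtain ⟨F, hF, hFu⟩ := hu.exists_analyticOnNhd_ball_re_eq
  intro z hz
  have hsub : closedBall C r ⊆ ball C ρ := closedBall_subset_ball hρ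
  have hd : DiffContOnCl ℂ (fun z => Complex.exp (-F z)) (ball C r) := by
    apply DifferentiableOn.diffContOnCl
    rw [closure_ball C hr.ne']
    intro w hw
    exact ((hF w (hsub hw)).differentiableAt.neg.cexp).differentiableWithinAt
  have hn : ∀ w ∈ ball C ρ, ‖Complex.exp (-F w)‖ = Real.exp (-u w) := by
    intro w hw
    rw [Complex.norm_exp, Complex.neg_re]
    have := hFu hw
    simp only at this
    rw [this]
  have hb := Complex.norm_le_of_forall_mem_frontier_norm_le (f := fun z => Complex.exp (-F z))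
    (C := Real.exp (-m)) isBounded_ball hd (fun w hw => by
      rw [frontier_ball C hr.ne'] at hw
      rw [hn w (hsub (sphere_subset_closedBall hw))]
      exact Real.exp_le_exp.2 (by linarith [h w hw]))
    (z := z) (by rw [closure_ball C hr.ne']; exact hz)
  rw [hn z (hsub hz), Real.exp_le_exp] at hb
  linarith

theorem key (p ζ : ℂ) (ρ : ℝ) :
    ‖(ρ : ℂ) ^ 2 - (starRingEnd ℂ) p * ζ‖ ^ 2 - ρ ^ 2 * ‖ζ - p‖ ^ 2
      = (ρ ^ 2 - ‖p‖ ^ 2) * (ρ ^ 2 - ‖ζ‖ ^ 2) := by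
  have e : (ρ : ℂ) ^ 2 = ((ρ ^ 2 : ℝ) : ℂ) := by push_cast; rfl
  rw [e]
  simp only [← Complex.normSq_eq_norm_sq]
  simp only [Complex.normSq_apply, Complex.sub_re, Complex.sub_im,
    Complex.mul_re, Complex.mul_im, Complex.conj_re, Complex.conj_im, Complex.ofReal_re,
    Complex.ofReal_im]
  ring

/-- harmonic part of the Green function of a disc -/
noncomputable def HB (C : ℂ) (ρ : ℝ) (a z : ℂ) : ℝ :=
  Real.log ‖(ρ : ℂ) ^ 2 - (starRingEnd ℂ) (a - C) * (z - C)‖ - Real.log ρ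

/-- the Green function of a disc -/
noncomputable def gB (C : ℂ) (ρ : ℝ) (a z : ℂ) : ℝ := HB C ρ a z - Real.log ‖z - a‖

theorem num_ne {C a z : ℂ} {ρ : ℝ} (ha : a ∈ ball C ρ) (hz : z ∈ ball C ρ) :
    (ρ : ℂ) ^ 2 - (starRingEnd ℂ) (a - C) * (z - C) ≠ 0 := by
  intro h0
  have h1 := key (a - C) (z - C) ρ
  rw [mem_ball, dist_eq_norm] at ha hz
  rw [h0, norm_zero] at h1
  have h2 : 0 < ρ ^ 2 - ‖a - C‖ ^ 2 := by nlinarith [norm_nonneg (a - C)]
  have h3 : 0 < ρ ^ 2 - ‖z - C‖ ^ 2 := by nlinarith [norm_nonneg (z - C)]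
  have h4 : 0 ≤ ρ ^ 2 * ‖z - C - (a - C)‖ ^ 2 := by positivity
  nlinarith [mul_pos h2 h3]

theorem harmonic_HB {C a : ℂ} {ρ : ℝ} (ha : a ∈ ball C ρ) :
    HarmonicOnNhd (HB C ρ a) (ball C ρ) := by
  intro z hz
  have h1 : HarmonicAt (fun z => Real.log ‖(ρ : ℂ) ^ 2 - (starRingEnd ℂ) (a - C) * (z - C)‖) z := by
    exact AnalyticAt.harmonicAt_log_norm
      (f := fun z => (ρ : ℂ) ^ 2 - (starRingEnd ℂ) (a - C) * (z - C)) (by fun_prop) (num_ne ha hz)
  exact h1.sub (harmonicAt_const _)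

theorem gB_sq {C a z : ℂ} {ρ : ℝ} (hρ : 0 < ρ) (ha : a ∈ ball C ρ) (hz : z ∈ ball C ρ)
    (hza : z ≠ a) :
    gB C ρ a z = (1 / 2) * Real.log (1 + (ρ ^ 2 - ‖a - C‖ ^ 2) * (ρ ^ 2 - ‖z - C‖ ^ 2)
      / (ρ ^ 2 * ‖z - a‖ ^ 2)) := by
  have h1 : 0 < ‖(ρ : ℂ) ^ 2 - (starRingEnd ℂ) (a - C) * (z - C)‖ := norm_pos_iff.2 (num_ne ha hz)
  have h2 : 0 < ‖z - a‖ := norm_pos_iff.2 (sub_ne_zero.2 hza)
  have h3 := key (a - C) (z - C) ρ
  rw [sub_sub_sub_cancel_right] at h3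
  rw [← h3]
  have e : 1 + (‖(ρ : ℂ) ^ 2 - (starRingEnd ℂ) (a - C) * (z - C)‖ ^ 2 - ρ ^ 2 * ‖z - a‖ ^ 2)
      / (ρ ^ 2 * ‖z - a‖ ^ 2)
      = (‖(ρ : ℂ) ^ 2 - (starRingEnd ℂ) (a - C) * (z - C)‖ / (ρ * ‖z - a‖)) ^ 2 := by
    field_simp
    ring
  rw [e, Real.log_pow, Real.log_div h1.ne' (by positivity), Real.log_mul hρ.ne' h2.ne']
  unfold gB HB
  push_cast
  ring

theorem gB_pos {C a z : ℂ} {ρ : ℝ} (hρ : 0 < ρ) (ha : a ∈ ball C ρ) (hz : z ∈ ball C ρ)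
    (hza : z ≠ a) : 0 < gB C ρ a z := by
  rw [gB_sq hρ ha hz hza]
  rw [mem_ball, dist_eq_norm] at ha hz
  have h2 : 0 < ρ ^ 2 - ‖a - C‖ ^ 2 := by nlinarith [norm_nonneg (a - C)]
  have h3 : 0 < ρ ^ 2 - ‖z - C‖ ^ 2 := by nlinarith [norm_nonneg (z - C)]
  have h4 : 0 < ‖z - a‖ := norm_pos_iff.2 (sub_ne_zero.2 hza)
  have h5 : 0 < (ρ ^ 2 - ‖a - C‖ ^ 2) * (ρ ^ 2 - ‖z - C‖ ^ 2) / (ρ ^ 2 * ‖z - a‖ ^ 2) := by
    positivity
  have := Real.log_pos (by linarith : 1 < 1 + (ρ ^ 2 - ‖a - C‖ ^ 2) * (ρ ^ 2 - ‖z - C‖ ^ 2)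
    / (ρ ^ 2 * ‖z - a‖ ^ 2))
  linarith

theorem isGreen_ball {C a : ℂ} {ρ : ℝ} (ha : a ∈ ball C ρ) : IsGreen (ball C ρ) a (gB C ρ a) := by
  have hρ : 0 < ρ := pos_of_mem_ball ha
  refine ⟨isOpen_ball, (convex_ball C ρ).isConnected ⟨a, ha⟩, ha, fun z hz hza => gB_pos hρ ha hz hza,
    ⟨HB C ρ a, harmonic_HB ha, fun z _ _ => rfl⟩, ?_⟩
  intro h K hK hh hpos z hz hza
  have hu : HarmonicOnNhd (fun w => K w - HB C ρ a w) (ball C ρ) := hK.sub (harmonic_HB ha)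
  have hmain : 0 ≤ K z - HB C ρ a z := by
    apply le_of_forall_pos_lt_add
    intro ε hε
    have hp : ‖a - C‖ < ρ := by rwa [mem_ball, dist_eq_norm] at ha
    have hz' : ‖z - C‖ < ρ := by rwa [mem_ball, dist_eq_norm] at hz
    set φ : ℝ → ℝ := fun r => (1 / 2) * ((ρ ^ 2 - ‖a - C‖ ^ 2) * (ρ ^ 2 - r ^ 2)
      / (ρ ^ 2 * (r - ‖a - C‖) ^ 2)) with hφ
    have hφc : ContinuousAt φ ρ := by
      have : ρ ^ 2 * (ρ - ‖a - C‖) ^ 2 ≠ 0 := by
        have : 0 < ρ - ‖a - C‖ := by linarith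
        positivity
      exact ContinuousAt.mul continuousAt_const
        (ContinuousAt.div (by fun_prop) (by fun_prop) this)
    have hφ0 : φ ρ = 0 := by simp [hφ]
    have ev1 : ∀ᶠ r in 𝓝[<] ρ, φ r < ε / 2 := by
      have h1 : ∀ᶠ r in 𝓝 ρ, φ r < ε / 2 := by
        apply hφc.eventually_lt continuousAt_const
        rw [hφ0]; linarith
      exact h1.filter_mono nhdsWithin_le_nhds
    have ev2 : ∀ᶠ r in 𝓝[<] ρ, max ‖a - C‖ ‖z - C‖ < r := by
      exact (eventually_gt_nhds (max_lt hp hz')).filter_mono nhdsWithin_le_nhds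
    obtain ⟨r, ⟨h1, h2⟩, h3⟩ := ((ev1.and ev2).and self_mem_nhdsWithin).exists
    have h3' : r < ρ := h3
    have h2a : ‖a - C‖ < r := (le_max_left _ _).trans_lt h2
    have h2z : ‖z - C‖ < r := (le_max_right _ _).trans_lt h2
    have hr : 0 < r := (norm_nonneg _).trans_lt h2a
    have hbd : ∀ w ∈ sphere C r, -(ε / 2) ≤ K w - HB C ρ a w := by
      intro w hw
      have hw' : ‖w - C‖ = r := by rwa [mem_sphere, dist_eq_norm] at hw
      have hwb : w ∈ ball C ρ := by rw [mem_ball, dist_eq_norm, hw']; exact h3'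
      have hwa : w ≠ a := by
        rintro rfl
        rw [hw'] at h2a
        exact lt_irrefl _ h2a
      have h4 := hh w hwb hwa
      have h5 := hpos w hwb hwa
      have h6 := gB_sq hρ ha hwb hwa
      have h7 : K w - HB C ρ a w = h w - gB C ρ a w := by
        rw [h4]; unfold gB; ring
      have h8 : 0 < ‖w - a‖ := norm_pos_iff.2 (sub_ne_zero.2 hwa)
      have h9 : r - ‖a - C‖ ≤ ‖w - a‖ := by
        have := norm_sub_norm_le (w - C) (a - C)
        rwa [hw', sub_sub_sub_cancel_right] at this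
      have h10 : 0 < r - ‖a - C‖ := by linarith
      have h11 : 0 ≤ (ρ ^ 2 - ‖a - C‖ ^ 2) * (ρ ^ 2 - r ^ 2) := by
        apply mul_nonneg <;> nlinarith [norm_nonneg (a - C)]
      have h12 : (ρ ^ 2 - ‖a - C‖ ^ 2) * (ρ ^ 2 - r ^ 2) / (ρ ^ 2 * ‖w - a‖ ^ 2)
          ≤ (ρ ^ 2 - ‖a - C‖ ^ 2) * (ρ ^ 2 - r ^ 2) / (ρ ^ 2 * (r - ‖a - C‖) ^ 2) := by
        apply div_le_div_of_nonneg_left h11 (by positivity)
        apply mul_le_mul_of_nonneg_left _ (by positivity)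
        exact pow_le_pow_left₀ h10.le h9 2
      rw [hw'] at h6
      have h13 : 0 ≤ (ρ ^ 2 - ‖a - C‖ ^ 2) * (ρ ^ 2 - r ^ 2) / (ρ ^ 2 * ‖w - a‖ ^ 2) := by
        positivity
      have h14 := Real.log_le_sub_one_of_pos (by linarith : 0 < 1 + (ρ ^ 2 - ‖a - C‖ ^ 2)
        * (ρ ^ 2 - r ^ 2) / (ρ ^ 2 * ‖w - a‖ ^ 2))
      rw [h7]
      simp only [hφ] at h1
      linarith
    have h4 := min_principle hr h3' hu hbd z (by
      rw [mem_closedBall, dist_eq_norm]; exact h2z.le)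
    linarith
  rw [hh z hz hza]
  unfold gB
  linarith

end Pool.Agent.TH236.Circ
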