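import Pool.Agent.TH236.Circ

set_option autoImplicit false

open Complex Metric Set MeasureTheory InnerProductSpace Filter Topology

namespace Pool.Agent.TH236.Circ

/-- relative position of the centre of a level disc -/
noncomputable def sg (ρ P t : ℝ) : ℝ := ρ ^ 2 * (1 - t ^ 2) / (ρ ^ 2 - t ^ 2 * P)
/-- radius of a level disc -/
noncomputable def rd (ρ P t : ℝ) : ℝ := ρ * t * (ρ ^ 2 - P) / (ρ ^ 2 - t ^ 2 * P)

theorem key2 (p ζ : ℂ) (ρ t : ℝ) (hN : ρ ^ 2 - t ^ 2 * ‖p‖ ^ 2 ≠ 0) :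
    t ^ 2 * ‖(ρ : ℂ) ^ 2 - (starRingEnd ℂ) p * ζ‖ ^ 2 - ρ ^ 2 * ‖ζ - p‖ ^ 2
      = (ρ ^ 2 - t ^ 2 * ‖p‖ ^ 2) * ((rd ρ (‖p‖ ^ 2) t) ^ 2
        - ‖ζ - (sg ρ (‖p‖ ^ 2) t : ℂ) * p‖ ^ 2) := by
  have e : (ρ : ℂ) ^ 2 = ((ρ ^ 2 : ℝ) : ℂ) := by push_cast; rfl
  have e1 : ‖(ρ : ℂ) ^ 2 - (starRingEnd ℂ) p * ζ‖ ^ 2
      = ρ ^ 4 - 2 * ρ ^ 2 * (p.re * ζ.re + p.im * ζ.im) + ‖p‖ ^ 2 * ‖ζ‖ ^ 2 := by
    rw [e]
    simp only [← Complex.normSq_eq_norm_sq]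
    simp only [Complex.normSq_apply, Complex.sub_re, Complex.sub_im,
      Complex.mul_re, Complex.mul_im, Complex.conj_re, Complex.conj_im, Complex.ofReal_re,
      Complex.ofReal_im]
    ring
  have e2 : ‖ζ - p‖ ^ 2 = ‖ζ‖ ^ 2 - 2 * (p.re * ζ.re + p.im * ζ.im) + ‖p‖ ^ 2 := by
    simp only [← Complex.normSq_eq_norm_sq]
    simp only [Complex.normSq_apply, Complex.sub_re, Complex.sub_im]
    ring
  have e3 : ∀ s : ℝ, ‖ζ - (s : ℂ) * p‖ ^ 2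
      = ‖ζ‖ ^ 2 - 2 * s * (p.re * ζ.re + p.im * ζ.im) + s ^ 2 * ‖p‖ ^ 2 := by
    intro s
    simp only [← Complex.normSq_eq_norm_sq]
    simp only [Complex.normSq_apply, Complex.sub_re, Complex.sub_im,
      Complex.mul_re, Complex.mul_im, Complex.ofReal_re, Complex.ofReal_im]
    ring
  rw [e1, e2, e3]
  generalize ‖p‖ ^ 2 = P at *
  generalize ‖ζ‖ ^ 2 = Q at *
  generalize p.re * ζ.re + p.im * ζ.im = S at *
  unfold rd sg
  field_simp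
  ring

theorem level_ball {C a : ℂ} {ρ l : ℝ} (ha : a ∈ ball C ρ) (hl : 0 < l) :
    level (ball C ρ) a (gB C ρ a) l
      = ball (C + (sg ρ (‖a - C‖ ^ 2) (Real.exp (-l)) : ℂ) * (a - C))
        (rd ρ (‖a - C‖ ^ 2) (Real.exp (-l))) := by
  have hρ : 0 < ρ := pos_of_mem_ball ha
  set t := Real.exp (-l) with ht
  have ht0 : 0 < t := Real.exp_pos _
  have ht1 : t < 1 := by rw [ht, Real.exp_lt_one_iff]; linarith
  have hp : ‖a - C‖ < ρ := by rwa [mem_ball, dist_eq_norm] at ha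
  have hpp : 0 < ρ ^ 2 - ‖a - C‖ ^ 2 := by nlinarith [norm_nonneg (a - C)]
  have hN : 0 < ρ ^ 2 - t ^ 2 * ‖a - C‖ ^ 2 := by
    have : t ^ 2 < 1 := by nlinarith
    nlinarith [sq_nonneg ‖a - C‖]
  have hR : 0 < rd ρ (‖a - C‖ ^ 2) t := by unfold rd; positivity
  have step1 : ∀ z, z ∈ level (ball C ρ) a (gB C ρ a) l ↔ z ∈ ball C ρ ∧
      ρ * ‖z - a‖ < t * ‖(ρ : ℂ) ^ 2 - (starRingEnd ℂ) (a - C) * (z - C)‖ := by
    intro z
    simp only [level, mem_ofPred_eq]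
    refine and_congr_right fun hz => ?_
    have h1 : 0 < ‖(ρ : ℂ) ^ 2 - (starRingEnd ℂ) (a - C) * (z - C)‖ :=
      norm_pos_iff.2 (num_ne ha hz)
    rcases eq_or_ne z a with h | h
    · subst h
      simp only [true_or, sub_self, norm_zero, mul_zero, true_iff]
      positivity
    · have h2 : 0 < ‖z - a‖ := norm_pos_iff.2 (sub_ne_zero.2 h)
      simp only [h, false_or]
      have h3 : gB C ρ a z = Real.log (‖(ρ : ℂ) ^ 2 - (starRingEnd ℂ) (a - C) * (z - C)‖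
          / (ρ * ‖z - a‖)) := by
        rw [Real.log_div h1.ne' (by positivity), Real.log_mul hρ.ne' h2.ne']
        unfold gB HB
        ring
      rw [h3, Real.lt_log_iff_exp_lt (by positivity), lt_div_iff₀ (by positivity)]
      have h4 : Real.exp l * t = 1 := by rw [ht, ← Real.exp_add]; simp
      have hel : 0 < Real.exp l := Real.exp_pos l
      constructor
      · intro h5
        have := mul_lt_mul_of_pos_left h5 ht0
        calc ρ * ‖z - a‖ = t * (Real.exp l * (ρ * ‖z - a‖)) := by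
              rw [← mul_assoc, mul_comm t, h4, one_mul]
          _ < _ := this
      · intro h5
        have := mul_lt_mul_of_pos_left h5 hel
        calc Real.exp l * (ρ * ‖z - a‖) < Real.exp l * (t * _) := this
          _ = _ := by rw [← mul_assoc, h4, one_mul]
  ext z
  rw [step1, mem_ball (y := z) (x := C + _), dist_eq_norm]
  have h2 := key2 (a - C) (z - C) ρ t hN.ne'
  have h1 := key (a - C) (z - C) ρ
  rw [sub_sub_sub_cancel_right] at h1 h2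
  rw [← sub_sub]
  set A := ‖(ρ : ℂ) ^ 2 - (starRingEnd ℂ) (a - C) * (z - C)‖ with hA
  set B := ‖z - a‖ with hB
  set E := ‖z - C - (sg ρ (‖a - C‖ ^ 2) t : ℂ) * (a - C)‖ with hE
  have hA0 : 0 ≤ A := norm_nonneg _
  have hB0 : 0 ≤ B := norm_nonneg _
  have hE0 : 0 ≤ E := norm_nonneg _
  constructor
  · rintro ⟨_, h3⟩
    have h4 : (ρ * B) ^ 2 < (t * A) ^ 2 := pow_lt_pow_left₀ h3 (by positivity) two_ne_zero
    have h5 : 0 < (ρ ^ 2 - t ^ 2 * ‖a - C‖ ^ 2) * ((rd ρ (‖a - C‖ ^ 2) t) ^ 2 - E ^ 2) := by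
      rw [← h2]; nlinarith
    have h6 := (pos_iff_pos_of_mul_pos h5).1 hN
    exact lt_of_pow_lt_pow_left₀ 2 hR.le (by linarith)
  · intro h3
    have h4 : E ^ 2 < (rd ρ (‖a - C‖ ^ 2) t) ^ 2 := pow_lt_pow_left₀ h3 hE0 two_ne_zero
    have h5 : 0 < (ρ ^ 2 - t ^ 2 * ‖a - C‖ ^ 2) * ((rd ρ (‖a - C‖ ^ 2) t) ^ 2 - E ^ 2) :=
      mul_pos hN (by linarith)
    rw [← h2] at h5
    have h6 : ρ * B < t * A := lt_of_pow_lt_pow_left₀ 2 (by positivity) (by nlinarith)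
    refine ⟨?_, h6⟩
    have h7 : t ^ 2 * A ^ 2 ≤ A ^ 2 := by
      have : t ^ 2 ≤ 1 := by nlinarith
      nlinarith [sq_nonneg A]
    have h8 : 0 < (ρ ^ 2 - ‖a - C‖ ^ 2) * (ρ ^ 2 - ‖z - C‖ ^ 2) := by
      rw [← h1]; linarith
    have h9 := (pos_iff_pos_of_mul_pos h8).1 hpp
    rw [mem_ball, dist_eq_norm]
    exact lt_of_pow_lt_pow_left₀ 2 hρ.le (by linarith)

theorem ball_subset_iff {x y R R' : ℝ} (hR : 0 < R) :
    ball (x : ℂ) R ⊆ ball (y : ℂ) R' ↔ |x - y| + R ≤ R' := by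
  constructor
  · intro h
    by_contra hcon
    push Not at hcon
    set δ := max 0 (R' - |x - y|) with hδ
    have h1 : δ < R := max_lt hR (by linarith)
    have h2 : 0 ≤ δ := le_max_left _ _
    have h3 : R' ≤ |x - y| + δ := by
      have := le_max_right 0 (R' - |x - y|)
      linarith
    rcases le_total y x with hxy | hxy
    · have h4 : ((x + δ : ℝ) : ℂ) ∈ ball (x : ℂ) R := by
        rw [mem_ball, dist_eq_norm, ← Complex.ofReal_sub, Complex.norm_real, Real.norm_eq_abs]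
        rw [add_sub_cancel_left, abs_of_nonneg h2]
        exact h1
      have h5 := h h4
      rw [mem_ball, dist_eq_norm, ← Complex.ofReal_sub, Complex.norm_real, Real.norm_eq_abs] at h5
      rw [abs_of_nonneg (by linarith : 0 ≤ x - y)] at h3
      rw [abs_of_nonneg (by linarith : 0 ≤ x + δ - y)] at h5
      linarith
    · have h4 : ((x - δ : ℝ) : ℂ) ∈ ball (x : ℂ) R := by
        rw [mem_ball, dist_eq_norm, ← Complex.ofReal_sub, Complex.norm_real, Real.norm_eq_abs]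
        rw [sub_sub_cancel_left, abs_neg, abs_of_nonneg h2]
        exact h1
      have h5 := h h4
      rw [mem_ball, dist_eq_norm, ← Complex.ofReal_sub, Complex.norm_real, Real.norm_eq_abs] at h5
      rw [abs_of_nonpos (by linarith : x - y ≤ 0)] at h3
      rw [abs_of_nonpos (by linarith : x - δ - y ≤ 0)] at h5
      linarith
  · intro h z hz
    rw [mem_ball, dist_eq_norm] at hz ⊢
    have h1 : ‖(x : ℂ) - y‖ = |x - y| := by
      rw [← Complex.ofReal_sub, Complex.norm_real, Real.norm_eq_abs]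
    have h2 : z - (y : ℂ) = (z - x) + ((x : ℂ) - y) := by ring
    calc ‖z - (y : ℂ)‖ ≤ ‖z - x‖ + ‖(x : ℂ) - y‖ := by rw [h2]; exact norm_add_le _ _
      _ < R' := by rw [h1]; linarith

/-- squared norm of the centre of a level disc -/
theorem norm_centre (C : ℂ) (a s : ℝ) :
    ‖C + (s : ℂ) * ((a : ℂ) - C)‖ ^ 2
      = (1 - s) ^ 2 * ‖C‖ ^ 2 + s ^ 2 * a ^ 2 + 2 * s * (1 - s) * a * C.re := by
  simp only [← Complex.normSq_eq_norm_sq]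
  simp only [Complex.normSq_apply, Complex.sub_re, Complex.sub_im, Complex.add_re, Complex.add_im,
    Complex.mul_re, Complex.mul_im, Complex.ofReal_re, Complex.ofReal_im]
  ring

theorem norm_p (C : ℂ) (a : ℝ) : ‖(a : ℂ) - C‖ ^ 2 = (a - ‖C‖) ^ 2 + 2 * a * (‖C‖ - C.re) := by
  have h : ‖(a : ℂ) - C‖ ^ 2 = a ^ 2 - 2 * a * C.re + ‖C‖ ^ 2 := by
    simp only [← Complex.normSq_eq_norm_sq]
    simp only [Complex.normSq_apply, Complex.sub_re, Complex.sub_im,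
      Complex.ofReal_re, Complex.ofReal_im]
    ring
  rw [h]
  ring

theorem alg1 (ρ a u Y t N M P : ℝ) (hN0 : N ≠ 0) (hM0 : M ≠ 0) (hP : P = u ^ 2 + 2 * a * Y)
    (hN : N = ρ ^ 2 - t ^ 2 * P) (hM : M = ρ ^ 2 - t ^ 2 * u ^ 2) :
    ρ * t * (ρ ^ 2 - u ^ 2) / M - ρ * t * (ρ ^ 2 - P) / N
      = ρ * t * (ρ ^ 2 * (1 - t ^ 2) * (2 * a * Y) / (N * M)) := by
  field_simp
  rw [hN, hM, hP]
  ring

theorem alg2 (ρ a c u Y t N M P : ℝ) (hN0 : N ≠ 0) (hM0 : M ≠ 0) (hP : P = u ^ 2 + 2 * a * Y)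
    (hN : N = ρ ^ 2 - t ^ 2 * P) (hM : M = ρ ^ 2 - t ^ 2 * u ^ 2) (hc : c = a - u) :
    (1 - ρ ^ 2 * (1 - t ^ 2) / N) ^ 2 * c ^ 2 + (ρ ^ 2 * (1 - t ^ 2) / N) ^ 2 * a ^ 2
        + 2 * (ρ ^ 2 * (1 - t ^ 2) / N) * (1 - ρ ^ 2 * (1 - t ^ 2) / N) * a * (c - Y)
      = ((c + ρ ^ 2 * (1 - t ^ 2) / M * u)
          + u * t ^ 2 * (ρ ^ 2 * (1 - t ^ 2) * (2 * a * Y) / (N * M))) ^ 2
        - (ρ ^ 2 * (1 - t ^ 2) * (2 * a * Y) / (N * M)) * t ^ 2 * (ρ ^ 2 - P) * M / N := by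
  have e : ρ ^ 2 * (1 - t ^ 2) / M + t ^ 2 * (ρ ^ 2 * (1 - t ^ 2) * (2 * a * Y) / (N * M))
      = ρ ^ 2 * (1 - t ^ 2) / N := by
    field_simp
    rw [hN, hM, hP]
    ring
  have e2 : (c + ρ ^ 2 * (1 - t ^ 2) / M * u)
          + u * t ^ 2 * (ρ ^ 2 * (1 - t ^ 2) * (2 * a * Y) / (N * M))
      = c + u * (ρ ^ 2 * (1 - t ^ 2) / N) := by
    rw [← e]; ring
  have e3 : 1 - ρ ^ 2 * (1 - t ^ 2) / N = t ^ 2 * (ρ ^ 2 - P) / N := by
    field_simp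
    rw [hN]
    ring
  have e4 : (ρ ^ 2 * (1 - t ^ 2) * (2 * a * Y) / (N * M)) * t ^ 2 * (ρ ^ 2 - P) * M / N
      = 2 * a * Y * (ρ ^ 2 * (1 - t ^ 2) / N) * (t ^ 2 * (ρ ^ 2 - P) / N) := by
    field_simp
  rw [e2, e4, ← e3, hc]
  ring

theorem alg3 (ρ a c u Y t N M P : ℝ) (hN0 : N ≠ 0) (hM0 : M ≠ 0) (hP : P = u ^ 2 + 2 * a * Y)
    (hN : N = ρ ^ 2 - t ^ 2 * P) (hM : M = ρ ^ 2 - t ^ 2 * u ^ 2) (hc : c = a - u)
    (A B : ℝ) (hA : A = ρ - u * t) (hB : B = ρ + u * t) (hu1 : A ≠ 0) (hu2 : B ≠ 0) :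
    ((c + ρ ^ 2 * (1 - t ^ 2) / M * u) - ρ * t * (ρ ^ 2 * (1 - t ^ 2) * (2 * a * Y) / (N * M))) ^ 2
      - (((c + ρ ^ 2 * (1 - t ^ 2) / M * u)
          + u * t ^ 2 * (ρ ^ 2 * (1 - t ^ 2) * (2 * a * Y) / (N * M))) ^ 2
        - (ρ ^ 2 * (1 - t ^ 2) * (2 * a * Y) / (N * M)) * t ^ 2 * (ρ ^ 2 - P) * M / N)
      = (ρ ^ 2 * (1 - t ^ 2) * (2 * a * Y) / (N * M)) * t * (B / A)
        * (t * (ρ ^ 2 + a ^ 2 - c ^ 2) - 2 * a * ρ) := by
  set Δ := ρ ^ 2 * (1 - t ^ 2) * (2 * a * Y) / (N * M) with hΔ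
  have h1 : t * (ρ ^ 2 - P) * M / N + t * Δ * M = t * (ρ ^ 2 - u ^ 2) := by
    rw [hΔ]
    field_simp
    rw [hN, hM, hP]
    ring
  have h2 : (c + ρ ^ 2 * (1 - t ^ 2) / M * u) * B
      = c * B + u * ρ ^ 2 * (1 - t ^ 2) / A := by
    have : M = A * B := by rw [hM, hA, hB]; ring
    rw [this]
    field_simp
  have h3 : (t * (ρ ^ 2 - u ^ 2) - 2 * (c * B + u * ρ ^ 2 * (1 - t ^ 2) / A))
      = B / A * (t * (ρ ^ 2 + a ^ 2 - c ^ 2) - 2 * a * ρ) := by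
    field_simp
    rw [hc, hA, hB]
    ring
  set y := c + ρ ^ 2 * (1 - t ^ 2) / M * u with hy
  have h4 : (y - ρ * t * Δ) ^ 2 - ((y + u * t ^ 2 * Δ) ^ 2 - Δ * t ^ 2 * (ρ ^ 2 - P) * M / N)
      = Δ * t * ((t * (ρ ^ 2 - P) * M / N + t * Δ * M) - 2 * (y * B)) := by
    rw [hM, hB]
    ring
  rw [h4, h1, h2, h3]
  ring

end Pool.Agent.TH236.Circ
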