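import Pool.Agent.TH236.Circ2

set_option autoImplicit false

open Complex Metric Set MeasureTheory InnerProductSpace Filter Topology

namespace Pool.Agent.TH236.Circ

/-- difference of the radii divided by `ρ t` -/
noncomputable def dl (ρ a u Y P t : ℝ) : ℝ :=
  ρ ^ 2 * (1 - t ^ 2) * (2 * a * Y) / ((ρ ^ 2 - t ^ 2 * P) * (ρ ^ 2 - t ^ 2 * u ^ 2))

theorem core {C : ℂ} {ρ a t : ℝ} (ha0 : 0 < a) (ha : (a : ℂ) ∈ ball C ρ) (ht0 : 0 < t)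
    (ht1 : t < 1) :
    0 ≤ dl ρ a (a - ‖C‖) (‖C‖ - C.re) (‖(a : ℂ) - C‖ ^ 2) t ∧
    (C.re < ‖C‖ → 0 < dl ρ a (a - ‖C‖) (‖C‖ - C.re) (‖(a : ℂ) - C‖ ^ 2) t) ∧
    rd ρ ((a - ‖C‖) ^ 2) t - rd ρ (‖(a : ℂ) - C‖ ^ 2) t
      = ρ * t * dl ρ a (a - ‖C‖) (‖C‖ - C.re) (‖(a : ℂ) - C‖ ^ 2) t ∧
    0 < rd ρ (‖(a : ℂ) - C‖ ^ 2) t ∧
    ‖C + (sg ρ (‖(a : ℂ) - C‖ ^ 2) t : ℂ) * ((a : ℂ) - C)‖
      ≤ ‖C‖ + sg ρ ((a - ‖C‖) ^ 2) t * (a - ‖C‖)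
        + ρ * t * dl ρ a (a - ‖C‖) (‖C‖ - C.re) (‖(a : ℂ) - C‖ ^ 2) t ∧
    (‖C‖ + sg ρ ((a - ‖C‖) ^ 2) t * (a - ‖C‖)
        - ρ * t * dl ρ a (a - ‖C‖) (‖C‖ - C.re) (‖(a : ℂ) - C‖ ^ 2) t) ^ 2
      - ‖C + (sg ρ (‖(a : ℂ) - C‖ ^ 2) t : ℂ) * ((a : ℂ) - C)‖ ^ 2
      = dl ρ a (a - ‖C‖) (‖C‖ - C.re) (‖(a : ℂ) - C‖ ^ 2) t * t
        * ((ρ + (a - ‖C‖) * t) / (ρ - (a - ‖C‖) * t))
        * (t * (ρ ^ 2 + a ^ 2 - ‖C‖ ^ 2) - 2 * a * ρ) ∧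
    0 < ρ - (a - ‖C‖) * t ∧ 0 < ρ + (a - ‖C‖) * t := by
  have hρ : 0 < ρ := pos_of_mem_ball ha
  have hp : ‖(a : ℂ) - C‖ < ρ := by rwa [mem_ball, dist_eq_norm] at ha
  have hY : 0 ≤ ‖C‖ - C.re := by linarith [Complex.re_le_norm C]
  have hPdef := norm_p C a
  have hc0 : 0 ≤ ‖C‖ := norm_nonneg C
  have hu : |a - ‖C‖| < ρ := by
    have h1 : |‖(a : ℂ)‖ - ‖C‖| ≤ ‖(a : ℂ) - C‖ := abs_norm_sub_norm_le _ _
    rw [Complex.norm_real, Real.norm_of_nonneg ha0.le] at h1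
    linarith
  have hP : ‖(a : ℂ) - C‖ ^ 2 < ρ ^ 2 := pow_lt_pow_left₀ hp (norm_nonneg _) two_ne_zero
  have hP0 : 0 ≤ ‖(a : ℂ) - C‖ ^ 2 := sq_nonneg _
  have hX := norm_centre C a (sg ρ (‖(a : ℂ) - C‖ ^ 2) t)
  set P := ‖(a : ℂ) - C‖ ^ 2 with hPs
  set c := ‖C‖ with hcs
  set Y := c - C.re with hYs
  obtain ⟨u, hu_def⟩ : ∃ u, u = a - c := ⟨_, rfl⟩
  rw [← hu_def] at hu hPdef ⊢
  have hre : C.re = c - Y := by rw [hYs]; ring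
  rw [hre] at hX
  have hu2 : u ^ 2 < ρ ^ 2 := sq_lt_sq' (by linarith [(abs_lt.1 hu).1]) (abs_lt.1 hu).2
  have ht2 : t ^ 2 < 1 := pow_lt_one₀ ht0.le ht1 two_ne_zero
  have ht2' : 0 < t ^ 2 := by positivity
  obtain ⟨N, hN⟩ : ∃ N, N = ρ ^ 2 - t ^ 2 * P := ⟨_, rfl⟩
  obtain ⟨M, hM⟩ : ∃ M, M = ρ ^ 2 - t ^ 2 * u ^ 2 := ⟨_, rfl⟩
  have hN0 : 0 < N := by
    have := mul_le_mul_of_nonneg_right ht2.le hP0
    rw [hN]; linarith
  have hM0 : 0 < M := by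
    have := mul_le_mul_of_nonneg_right ht2.le (sq_nonneg u)
    rw [hM]; linarith
  obtain ⟨A, hA⟩ : ∃ A, A = ρ - u * t := ⟨_, rfl⟩
  obtain ⟨B, hB⟩ : ∃ B, B = ρ + u * t := ⟨_, rfl⟩
  have hut : |u * t| < ρ := by
    rw [abs_mul, abs_of_pos ht0]
    have := mul_le_mul_of_nonneg_left ht1.le (abs_nonneg u)
    linarith
  have hA0 : 0 < A := by rw [hA]; linarith [(abs_lt.1 hut).2]
  have hB0 : 0 < B := by rw [hB]; linarith [(abs_lt.1 hut).1]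
  have hc : c = a - u := by rw [hu_def]; ring
  have e1 := alg1 ρ a u Y t N M P hN0.ne' hM0.ne' hPdef hN hM
  have e2 := alg2 ρ a c u Y t N M P hN0.ne' hM0.ne' hPdef hN hM hc
  have e3 := alg3 ρ a c u Y t N M P hN0.ne' hM0.ne' hPdef hN hM hc A B hA hB hA0.ne' hB0.ne'
  have hsg : sg ρ P t = ρ ^ 2 * (1 - t ^ 2) / N := by rw [hN]; rfl
  have hsg' : sg ρ (u ^ 2) t = ρ ^ 2 * (1 - t ^ 2) / M := by rw [hM]; rfl
  have hrd : rd ρ P t = ρ * t * (ρ ^ 2 - P) / N := by rw [hN]; rfl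
  have hrd' : rd ρ (u ^ 2) t = ρ * t * (ρ ^ 2 - u ^ 2) / M := by rw [hM]; rfl
  have hdl : dl ρ a u Y P t = ρ ^ 2 * (1 - t ^ 2) * (2 * a * Y) / (N * M) := by
    rw [hN, hM]; rfl
  rw [hsg] at hX ⊢
  rw [hsg', hrd, hrd', hdl, ← hA, ← hB]
  rw [e2] at hX
  set Δ := ρ ^ 2 * (1 - t ^ 2) * (2 * a * Y) / (N * M) with hΔ
  have h1t : 0 < 1 - t ^ 2 := by linarith
  have hΔ0 : 0 ≤ Δ := by rw [hΔ]; positivity
  have hs1 : 0 < ρ ^ 2 * (1 - t ^ 2) / M := by positivity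
  have hs2 : ρ ^ 2 * (1 - t ^ 2) / M ≤ 1 := by
    have := mul_le_mul_of_nonneg_left hu2.le ht2'.le
    rw [div_le_one hM0, hM]
    linarith
  have hy : 0 ≤ c + ρ ^ 2 * (1 - t ^ 2) / M * u := by
    rcases le_total 0 u with h | h
    · positivity
    · have := mul_le_mul_of_nonpos_right hs2 h
      rw [hc]
      linarith
  refine ⟨hΔ0, ?_, e1, ?_, ?_, ?_, hA0, hB0⟩
  · intro h
    have hY' : 0 < Y := by rw [hYs]; linarith
    rw [hΔ]; positivity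
  · have : 0 < ρ ^ 2 - P := by linarith
    positivity
  · apply le_of_sq_le_sq _ (by positivity)
    rw [hX]
    have h3 : 0 ≤ Δ * t ^ 2 * (ρ ^ 2 - P) * M / N := by
      have : 0 < ρ ^ 2 - P := by linarith
      positivity
    have h4 : |u * t ^ 2 * Δ| ≤ ρ * t * Δ := by
      have : u * t ^ 2 * Δ = (u * t) * (t * Δ) := by ring
      rw [this, abs_mul, abs_of_nonneg (by positivity : 0 ≤ t * Δ)]
      have := mul_le_mul_of_nonneg_right hut.le (by positivity : 0 ≤ t * Δ)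
      linarith
    have h5 : (c + ρ ^ 2 * (1 - t ^ 2) / M * u + u * t ^ 2 * Δ) ^ 2
        ≤ (c + ρ ^ 2 * (1 - t ^ 2) / M * u + ρ * t * Δ) ^ 2 := by
      apply sq_le_sq'
      · linarith [(abs_le.1 h4).1]
      · linarith [(abs_le.1 h4).2]
    linarith
  · rw [hX]
    exact e3

theorem eq_norm_of_re {C : ℂ} (h : ‖C‖ ≤ C.re) : C = ((‖C‖ : ℝ) : ℂ) := by
  have h1 : C.re = ‖C‖ := le_antisymm (Complex.re_le_norm C) h
  have h2 : ‖C‖ ^ 2 = C.re ^ 2 + C.im ^ 2 := by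
    rw [← Complex.normSq_eq_norm_sq, Complex.normSq_apply]; ring
  have h3 : C.im = 0 := by
    rw [← h1] at h2
    have : C.im ^ 2 = 0 := by linarith
    exact pow_eq_zero_iff two_ne_zero |>.1 this
  apply Complex.ext
  · rw [Complex.ofReal_re]; exact h1
  · rw [Complex.ofReal_im]; exact h3

theorem mem_symm_ball {C : ℂ} {ρ a : ℝ} (ha0 : 0 < a) (ha : (a : ℂ) ∈ ball C ρ) :
    (a : ℂ) ∈ ball ((‖C‖ : ℝ) : ℂ) ρ := by
  rw [mem_ball, dist_eq_norm] at ha ⊢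
  rw [← Complex.ofReal_sub, Complex.norm_real, Real.norm_eq_abs]
  have h1 : |‖(a : ℂ)‖ - ‖C‖| ≤ ‖(a : ℂ) - C‖ := abs_norm_sub_norm_le _ _
  rw [Complex.norm_real, Real.norm_of_nonneg ha0.le] at h1
  linarith

/-- the inclusion at one level, for a disc -/
theorem incl_iff {C : ℂ} {ρ a l : ℝ} (ha0 : 0 < a) (ha : (a : ℂ) ∈ ball C ρ) (hl : 0 < l) :
    circSymm (level (ball C ρ) a (gB C ρ a) l)
        ⊆ level (ball ((‖C‖ : ℝ) : ℂ) ρ) a (gB ((‖C‖ : ℝ) : ℂ) ρ a) l ↔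
      |‖C + (sg ρ (‖(a : ℂ) - C‖ ^ 2) (Real.exp (-l)) : ℂ) * ((a : ℂ) - C)‖
        - (‖C‖ + sg ρ ((a - ‖C‖) ^ 2) (Real.exp (-l)) * (a - ‖C‖))|
        + rd ρ (‖(a : ℂ) - C‖ ^ 2) (Real.exp (-l)) ≤ rd ρ ((a - ‖C‖) ^ 2) (Real.exp (-l)) := by
  have ht0 : 0 < Real.exp (-l) := Real.exp_pos _
  have ht1 : Real.exp (-l) < 1 := by rw [Real.exp_lt_one_iff]; linarith
  obtain ⟨-, -, -, hR, -⟩ := core ha0 ha ht0 ht1
  have ha' := mem_symm_ball ha0 ha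
  have hnorm : ‖(a : ℂ) - ((‖C‖ : ℝ) : ℂ)‖ ^ 2 = (a - ‖C‖) ^ 2 := by
    rw [← Complex.ofReal_sub, Complex.norm_real, Real.norm_eq_abs, sq_abs]
  rw [level_ball ha hl, level_ball ha' hl, circSymm_ball _ hR, hnorm]
  have hc : ((‖C‖ : ℝ) : ℂ) + (sg ρ ((a - ‖C‖) ^ 2) (Real.exp (-l)) : ℂ)
      * ((a : ℂ) - ((‖C‖ : ℝ) : ℂ))
      = ((‖C‖ + sg ρ ((a - ‖C‖) ^ 2) (Real.exp (-l)) * (a - ‖C‖) : ℝ) : ℂ) := by
    push_cast
    rfl
  rw [hc]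
  exact ball_subset_iff hR

/-- classification for discs -/
theorem disc_iff {C : ℂ} {ρ a : ℝ} (ha0 : 0 < a) (ha : (a : ℂ) ∈ ball C ρ) :
    (∀ l : ℝ, 0 < l → circSymm (level (ball C ρ) a (gB C ρ a) l)
        ⊆ level (ball ((‖C‖ : ℝ) : ℂ) ρ) a (gB ((‖C‖ : ℝ) : ℂ) ρ a) l) ↔
      (C = ((‖C‖ : ℝ) : ℂ) ∨ ρ ≤ a + ‖C‖) := by
  have hρ : 0 < ρ := pos_of_mem_ball ha
  constructor
  · intro H
    by_contra hcon
    push Not at hcon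
    obtain ⟨h1, h2⟩ := hcon
    have hre : C.re < ‖C‖ := by
      by_contra h3
      exact h1 (eq_norm_of_re (not_lt.1 h3))
    have hc : 0 < ‖C‖ := by
      apply norm_pos_iff.2
      rintro rfl
      simp at h1
    have hu : |a - ‖C‖| < ρ := by
      have := mem_symm_ball ha0 ha
      rwa [mem_ball, dist_eq_norm, ← Complex.ofReal_sub, Complex.norm_real,
        Real.norm_eq_abs] at this
    have hu2 : (a - ‖C‖) ^ 2 < ρ ^ 2 := sq_lt_sq' (by linarith [(abs_lt.1 hu).1]) (abs_lt.1 hu).2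
    have hp : ‖(a : ℂ) - C‖ < ρ := by rwa [mem_ball, dist_eq_norm] at ha
    have hP : ‖(a : ℂ) - C‖ ^ 2 < ρ ^ 2 := pow_lt_pow_left₀ hp (norm_nonneg _) two_ne_zero
    set F : ℝ → ℝ := fun t => ‖C‖ + ρ ^ 2 * (1 - t ^ 2) / (ρ ^ 2 - t ^ 2 * (a - ‖C‖) ^ 2)
        * (a - ‖C‖) - ρ * t * (ρ ^ 2 * (1 - t ^ 2) * (2 * a * (‖C‖ - C.re))
          / ((ρ ^ 2 - t ^ 2 * ‖(a : ℂ) - C‖ ^ 2) * (ρ ^ 2 - t ^ 2 * (a - ‖C‖) ^ 2))) with hF
    have hFc : ContinuousAt F 1 := by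
      have n1 : ρ ^ 2 - 1 ^ 2 * (a - ‖C‖) ^ 2 ≠ 0 := by
        have : 0 < ρ ^ 2 - (a - ‖C‖) ^ 2 := by linarith
        rw [one_pow, one_mul]; exact this.ne'
      have n2 : ρ ^ 2 - 1 ^ 2 * ‖(a : ℂ) - C‖ ^ 2 ≠ 0 := by
        have : 0 < ρ ^ 2 - ‖(a : ℂ) - C‖ ^ 2 := by linarith
        rw [one_pow, one_mul]; exact this.ne'
      apply ContinuousAt.sub
      · apply ContinuousAt.add continuousAt_const
        exact ContinuousAt.mul (ContinuousAt.div (by fun_prop) (by fun_prop) n1)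
          continuousAt_const
      · exact ContinuousAt.mul (by fun_prop)
          (ContinuousAt.div (by fun_prop) (by fun_prop) (mul_ne_zero n2 n1))
    have hF1 : F 1 = ‖C‖ := by simp [hF]
    have ev1 : ∀ᶠ t in 𝓝[<] (1 : ℝ), 0 < F t := by
      have h3 : ∀ᶠ t in 𝓝 (1 : ℝ), 0 < F t := by
        apply continuousAt_const.eventually_lt hFc
        rw [hF1]; exact hc
      exact h3.filter_mono nhdsWithin_le_nhds
    have ev2 : ∀ᶠ t in 𝓝[<] (1 : ℝ), 0 < t * (ρ ^ 2 + a ^ 2 - ‖C‖ ^ 2) - 2 * a * ρ := by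
      have h3 : ∀ᶠ t in 𝓝 (1 : ℝ), 0 < t * (ρ ^ 2 + a ^ 2 - ‖C‖ ^ 2) - 2 * a * ρ := by
        have hcc : ContinuousAt (fun t : ℝ => t * (ρ ^ 2 + a ^ 2 - ‖C‖ ^ 2) - 2 * a * ρ) 1 := by
          fun_prop
        apply continuousAt_const.eventually_lt hcc
        have : ‖C‖ ^ 2 < (ρ - a) ^ 2 := pow_lt_pow_left₀ (by linarith) hc.le two_ne_zero
        linarith
      exact h3.filter_mono nhdsWithin_le_nhds
    have ev3 : ∀ᶠ t in 𝓝[<] (1 : ℝ), 0 < t :=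
      (eventually_gt_nhds one_pos).filter_mono nhdsWithin_le_nhds
    obtain ⟨t, ⟨⟨⟨h3, h4⟩, h5⟩, h6⟩⟩ := (((ev1.and ev2).and ev3).and self_mem_nhdsWithin).exists
    have ht1 : t < 1 := h6
    have hl : 0 < -Real.log t := by
      have := Real.log_neg h5 ht1
      linarith
    have hexp : Real.exp (- -Real.log t) = t := by rw [neg_neg, Real.exp_log h5]
    have h7 := (incl_iff ha0 ha hl).1 (H _ hl)
    rw [hexp] at h7
    obtain ⟨-, hΔ, hrd, -, -, hid, hA, hB⟩ := core ha0 ha h5 ht1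
    have hΔ0 := hΔ hre
    have h8 : 0 < (‖C‖ + sg ρ ((a - ‖C‖) ^ 2) t * (a - ‖C‖)
        - ρ * t * dl ρ a (a - ‖C‖) (‖C‖ - C.re) (‖(a : ℂ) - C‖ ^ 2) t) ^ 2
      - ‖C + (sg ρ (‖(a : ℂ) - C‖ ^ 2) t : ℂ) * ((a : ℂ) - C)‖ ^ 2 := by
      rw [hid]
      exact mul_pos (mul_pos (mul_pos hΔ0 h5) (div_pos hB hA)) h4
    have h9 : 0 < ‖C‖ + sg ρ ((a - ‖C‖) ^ 2) t * (a - ‖C‖)
        - ρ * t * dl ρ a (a - ‖C‖) (‖C‖ - C.re) (‖(a : ℂ) - C‖ ^ 2) t := h3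
    have h10 : ‖C + (sg ρ (‖(a : ℂ) - C‖ ^ 2) t : ℂ) * ((a : ℂ) - C)‖
        < ‖C‖ + sg ρ ((a - ‖C‖) ^ 2) t * (a - ‖C‖)
        - ρ * t * dl ρ a (a - ‖C‖) (‖C‖ - C.re) (‖(a : ℂ) - C‖ ^ 2) t :=
      lt_of_pow_lt_pow_left₀ 2 h9.le (by linarith)
    have h11 := neg_abs_le (‖C + (sg ρ (‖(a : ℂ) - C‖ ^ 2) t : ℂ) * ((a : ℂ) - C)‖
        - (‖C‖ + sg ρ ((a - ‖C‖) ^ 2) t * (a - ‖C‖)))
    linarith
  · intro H l hl
    have ht0 : 0 < Real.exp (-l) := Real.exp_pos _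
    have ht1 : Real.exp (-l) < 1 := by rw [Real.exp_lt_one_iff]; linarith
    rw [incl_iff ha0 ha hl]
    obtain ⟨hΔ0, -, hrd, -, hup, hid, hA, hB⟩ := core ha0 ha ht0 ht1
    set t := Real.exp (-l) with ht
    set Δ := dl ρ a (a - ‖C‖) (‖C‖ - C.re) (‖(a : ℂ) - C‖ ^ 2) t with hΔ
    set X := ‖C + (sg ρ (‖(a : ℂ) - C‖ ^ 2) t : ℂ) * ((a : ℂ) - C)‖ with hX
    set y := ‖C‖ + sg ρ ((a - ‖C‖) ^ 2) t * (a - ‖C‖) with hy
    have hlow : y - ρ * t * Δ ≤ X := by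
      have h1 : (y - ρ * t * Δ) ^ 2 - X ^ 2 ≤ 0 := by
        rw [hid]
        rcases H with H | H
        · have h2 : ‖C‖ - C.re = 0 := by
            have : C.re = ‖C‖ := by
              conv_lhs => rw [H]
              exact Complex.ofReal_re _
            linarith
          have h3 : Δ = 0 := by
            rw [hΔ, h2]; unfold dl; simp
          rw [h3]; simp
        · apply mul_nonpos_of_nonneg_of_nonpos
          · exact mul_nonneg (mul_nonneg hΔ0 ht0.le) (div_pos hB hA).le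
          · have h4 : ρ ^ 2 + a ^ 2 - ‖C‖ ^ 2 ≤ 2 * a * ρ := by
              have h5 := mem_symm_ball ha0 ha
              rw [mem_ball, dist_eq_norm, ← Complex.ofReal_sub, Complex.norm_real,
                Real.norm_eq_abs] at h5
              have h6 : (ρ - a) ^ 2 ≤ ‖C‖ ^ 2 := by
                apply sq_le_sq'
                · linarith [(abs_lt.1 h5).2]
                · linarith
              linarith
            have h7 : 0 < 2 * a * ρ := by positivity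
            rcases le_total 0 (ρ ^ 2 + a ^ 2 - ‖C‖ ^ 2) with h8 | h8
            · have := mul_le_mul_of_nonneg_right ht1.le h8
              linarith
            · have := mul_nonpos_of_nonneg_of_nonpos ht0.le h8
              linarith
      have hX0 : 0 ≤ X := norm_nonneg _
      exact le_of_sq_le_sq (by linarith) hX0
    have habs : |X - y| ≤ ρ * t * Δ := abs_le.2 ⟨by linarith, by linarith⟩
    linarith

end Pool.Agent.TH236.Circ
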